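import Mathlib

/-! Finite-dimensional modules, two-term presentations and their numerical invariants. -/

set_option autoImplicit false
open Module Function

namespace Pool.Agent.P.MP_a7c6c4_al.H37

/-- A finite-dimensional module over the `K`-algebra `A`. -/
structure FM (K A : Type) [Field K] [Ring A] [Algebra K A] : Type 1 where
  c : Type
  [acg : AddCommGroup c]
  [mK : Module K c]
  [mA : Module A c]
  [tw : IsScalarTower K A c]
  [fd : FiniteDimensional K c]

attribute [instance] FM.acg FM.mK FM.mA FM.tw FM.fd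

variable {K A : Type} [Field K] [Ring A] [Algebra K A]

instance instCoeSortFM : CoeSort (FM K A) Type := ⟨FM.c⟩

instance fdSub (M : Type) [AddCommGroup M] [Module K M] [Module A M] [IsScalarTower K A M]
    [FiniteDimensional K M] (L : Submodule A M) : FiniteDimensional K L :=
  FiniteDimensional.of_injective (L.subtype.restrictScalars K) L.injective_subtype

instance finA (M : FM K A) : Module.Finite A M := Module.Finite.of_restrictScalars_finite K A M

namespace FM

abbrev of (M : Type) [AddCommGroup M] [Module K M] [Module A M] [IsScalarTower K A M]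
    [FiniteDimensional K M] : FM K A := ⟨M⟩

abbrev sub (M : FM K A) (L : Submodule A M) : FM K A := FM.of L
abbrev quo (M : FM K A) (L : Submodule A M) : FM K A := FM.of (M ⧸ L)
abbrev prod (M N : FM K A) : FM K A := FM.of (M × N)
abbrev pi {ι : Type} [Finite ι] (M : ι → FM K A) : FM K A := FM.of (∀ i, M i)
abbrev zero : FM K A := FM.of PUnit

end FM

/-- Post-composition as a `K`-linear map. -/
def post (P : FM K A) {M N : FM K A} (f : M →ₗ[A] N) : (P →ₗ[A] M) →ₗ[K] (P →ₗ[A] N) where
  toFun g := f ∘ₗ g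
  map_add' a b := by ext; simp
  map_smul' a b := by ext; simp

@[simp] lemma post_apply (P : FM K A) {M N : FM K A} (f : M →ₗ[A] N) (g : P →ₗ[A] M) :
    post P f g = f ∘ₗ g := rfl

/-- Pre-composition as a `K`-linear map. -/
def pre {P Q : FM K A} (f : P →ₗ[A] Q) (M : FM K A) : (Q →ₗ[A] M) →ₗ[K] (P →ₗ[A] M) where
  toFun g := g ∘ₗ f
  map_add' a b := by ext; simp
  map_smul' a b := by ext; simp

@[simp] lemma pre_apply {P Q : FM K A} (f : P →ₗ[A] Q) (M : FM K A) (g : Q →ₗ[A] M) :
    pre f M g = g ∘ₗ f := rfl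

noncomputable def hom (M N : FM K A) : ℕ := finrank K (M →ₗ[A] N)

lemma finrank_exact {L M N : Type} [AddCommGroup L] [Module K L] [AddCommGroup M] [Module K M]
    [AddCommGroup N] [Module K N] [FiniteDimensional K M] (i : L →ₗ[K] M) (p : M →ₗ[K] N)
    (hi : Injective i) (hp : Surjective p) (h : Function.Exact i p) :
    finrank K M = finrank K L + finrank K N := by
  have h1 := LinearMap.finrank_range_add_finrank_ker p
  rw [LinearMap.range_eq_top.2 hp, finrank_top, h.linearMap_ker_eq,
    LinearMap.finrank_range_of_inj hi] at h1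
  omega

/-- A map killed by `p` factors through the injection `i`. -/
lemma fac_of_exact {X L M N : Type} [AddCommGroup X] [Module A X] [AddCommGroup L] [Module A L]
    [AddCommGroup M] [Module A M] [AddCommGroup N] [Module A N]
    (i : L →ₗ[A] M) (p : M →ₗ[A] N) (hi : Injective i) (h : Function.Exact i p)
    (g : X →ₗ[A] M) (hg : p ∘ₗ g = 0) : ∃ k : X →ₗ[A] L, i ∘ₗ k = g := by
  have hm : ∀ x, g x ∈ LinearMap.range i := fun x => by
    have : p (g x) = 0 := LinearMap.congr_fun hg x
    exact (h _).1 this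
  refine ⟨(LinearEquiv.ofInjective i hi).symm.toLinearMap ∘ₗ g.codRestrict _ hm, ?_⟩
  ext x
  simp

def Additive (θ : FM K A → ℤ) : Prop :=
  ∀ (L M N : FM K A) (i : L →ₗ[A] M) (p : M →ₗ[A] N), Injective i → Surjective p →
    Function.Exact i p → θ M = θ L + θ N

lemma hom_add (P : FM K A) [Module.Projective A P] (L M N : FM K A) (i : L →ₗ[A] M)
    (p : M →ₗ[A] N) (hi : Injective i) (hp : Surjective p) (h : Function.Exact i p) :
    hom P M = hom P L + hom P N := by
  refine finrank_exact (post P i) (post P p) ?_ ?_ ?_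
  · intro a b hab
    ext x
    exact hi (LinearMap.congr_fun hab x)
  · intro g
    exact Module.projective_lifting_property p g hp
  · intro g
    constructor
    · intro hg
      exact fac_of_exact i p hi h g hg
    · rintro ⟨k, rfl⟩
      ext x
      exact h.apply_apply_eq_zero _

namespace Additive
variable {θ : FM K A → ℤ}

lemma sub_quo (h : Additive θ) (M : FM K A) (L : Submodule A M) :
    θ M = θ (M.sub L) + θ (M.quo L) :=
  h _ _ _ L.subtype L.mkQ L.injective_subtype L.mkQ_surjective (LinearMap.exact_subtype_mkQ L)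

lemma triv (h : Additive θ) (M : FM K A) [Subsingleton M] : θ M = 0 := by
  have := h M M M 0 0 (fun a b _ => Subsingleton.elim a b) (fun a => ⟨a, Subsingleton.elim _ _⟩)
    (fun a => ⟨fun _ => ⟨a, Subsingleton.elim _ _⟩, fun _ => rfl⟩)
  omega

lemma iso (h : Additive θ) {M N : FM K A} (e : M ≃ₗ[A] N) : θ M = θ N := by
  have := h M N FM.zero e.toLinearMap 0 e.injective (fun a => ⟨0, rfl⟩)
    (fun a => ⟨fun _ => e.surjective a, fun _ => rfl⟩)
  rw [h.triv FM.zero] at this
  omega

lemma ker (h : Additive θ) {M N : FM K A} (p : M →ₗ[A] N) (hp : Surjective p) :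
    θ M = θ (M.sub (LinearMap.ker p)) + θ N :=
  h _ _ _ (LinearMap.ker p).subtype p (Submodule.injective_subtype _) hp
    (LinearMap.exact_subtype_ker_map p)

lemma range (h : Additive θ) {M N : FM K A} (p : M →ₗ[A] N) :
    θ M = θ (M.sub (LinearMap.ker p)) + θ (N.sub (LinearMap.range p)) :=
  h _ _ _ (LinearMap.ker p).subtype p.rangeRestrict (Submodule.injective_subtype _)
    p.surjective_rangeRestrict (by
      intro x
      simp [Subtype.ext_iff])

lemma prod (h : Additive θ) (M N : FM K A) : θ (M.prod N) = θ M + θ N :=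
  h M (M.prod N) N (LinearMap.inl A M N) (LinearMap.snd A M N) LinearMap.inl_injective
    LinearMap.snd_surjective Function.Exact.inl_snd

lemma comb {θ' : FM K A → ℤ} (h : Additive θ) (h' : Additive θ') (a b : ℤ) :
    Additive (fun M => a * θ M + b * θ' M) := by
  intro L M N i p hi hp he
  simp only [h L M N i p hi hp he, h' L M N i p hi hp he]
  ring

end Additive

/-- Classes closed under quotients and extensions. -/
structure TC (T : FM K A → Prop) : Prop where
  triv : ∀ M : FM K A, Subsingleton M → T M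
  quo : ∀ (M N : FM K A) (p : M →ₗ[A] N), Surjective p → T M → T N
  ext : ∀ (M : FM K A) (L : Submodule A M), T (M.sub L) → T (M.quo L) → T M

namespace TC
variable {T : FM K A → Prop}

lemma ext' (h : TC T) {L M N : FM K A} (i : L →ₗ[A] M) (p : M →ₗ[A] N)
    (hp : Surjective p) (he : Function.Exact i p) (hL : T L) (hN : T N) : T M := by
  refine h.ext M (LinearMap.ker p) ?_ ?_
  · rw [he.linearMap_ker_eq]
    exact h.quo L _ i.rangeRestrict i.surjective_rangeRestrict hL
  · exact h.quo N _ (p.quotKerEquivOfSurjective hp).symm.toLinearMap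
      (p.quotKerEquivOfSurjective hp).symm.surjective hN

lemma inter {T' : FM K A → Prop} (h : TC T) (h' : TC T') : TC (fun M => T M ∧ T' M) :=
  ⟨fun M hM => ⟨h.triv M hM, h'.triv M hM⟩,
    fun M N p hp hM => ⟨h.quo M N p hp hM.1, h'.quo M N p hp hM.2⟩,
    fun M L h1 h2 => ⟨h.ext M L h1.1 h2.1, h'.ext M L h1.2 h2.2⟩⟩

lemma range (h : TC T) {M N : FM K A} (g : M →ₗ[A] N) (hM : T M) :
    T (N.sub (LinearMap.range g)) :=
  h.quo M _ g.rangeRestrict g.surjective_rangeRestrict hM

lemma prod (h : TC T) {M N : FM K A} (hM : T M) (hN : T N) : T (M.prod N) :=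
  h.ext' (L := M) (M := M.prod N) (N := N) (LinearMap.inl A M N) (LinearMap.snd A M N)
    LinearMap.snd_surjective Function.Exact.inl_snd hM hN

/-- The torsion part. -/
lemma exists_max (h : TC T) (M : FM K A) : ∃ L : Submodule A M, T (M.sub L) ∧
    ∀ X : FM K A, T X → ∀ g : X →ₗ[A] M.quo L, g = 0 := by
  classical
  have hb : ∀ L : Submodule A M, finrank K L ≤ finrank K M := fun L =>
    LinearMap.finrank_le_finrank_of_injective (f := L.subtype.restrictScalars K)
      L.injective_subtype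
  have hex : ∃ n, ∃ L : Submodule A M, T (M.sub L) ∧ finrank K L + n = finrank K M :=
    ⟨finrank K M, ⊥, h.triv _ inferInstance, by simp [finrank_zero_of_subsingleton]⟩
  obtain ⟨L, hL, hn⟩ := Nat.find_spec hex
  refine ⟨L, hL, fun X hX g => ?_⟩
  by_contra hg
  set L' : Submodule A M := (LinearMap.range g).comap L.mkQ with hL'
  have hle : L ≤ L' := fun x hx => by
    simp [hL', (Submodule.Quotient.mk_eq_zero L).2 hx]
  let p : M.sub L' →ₗ[A] (M.quo L).sub (LinearMap.range g) :=
    LinearMap.codRestrict _ (L.mkQ ∘ₗ L'.subtype) (fun x => x.2)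
  have hp : Surjective p := by
    rintro ⟨y, hy⟩
    obtain ⟨x, rfl⟩ := L.mkQ_surjective y
    exact ⟨⟨x, hy⟩, rfl⟩
  have he : Function.Exact (Submodule.inclusion hle) p := by
    intro x
    constructor
    · intro hx
      have : L.mkQ x.1 = 0 := congrArg Subtype.val hx
      exact ⟨⟨x.1, (Submodule.Quotient.mk_eq_zero L).1 this⟩, rfl⟩
    · rintro ⟨y, rfl⟩
      exact Subtype.ext ((Submodule.Quotient.mk_eq_zero L).2 y.2)
  have hT : T (M.sub L') := h.ext' (L := M.sub L) (Submodule.inclusion hle) p hp he hL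
    (h.range g hX)
  have hd := finrank_exact ((Submodule.inclusion hle).restrictScalars K) (p.restrictScalars K)
    (Submodule.inclusion_injective hle) hp he
  have hpos : 0 < finrank K (LinearMap.range g) := by
    have : Nontrivial (LinearMap.range g) :=
      Submodule.nontrivial_iff_ne_bot.2 (fun h0 => hg (LinearMap.range_eq_bot.1 h0))
    exact Module.finrank_pos
  have h1 := hb L'
  have h2 : finrank K L' + (finrank K M - finrank K L') = finrank K M := by omega
  have h3 := Nat.find_min' hex ⟨L', hT, h2⟩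
  change finrank K L' = finrank K L + finrank K (LinearMap.range g) at hd
  omega

end TC

def Tbar (θ : FM K A → ℤ) (M : FM K A) : Prop :=
  ∀ (N : FM K A) (p : M →ₗ[A] N), Surjective p → 0 ≤ θ N

def Tpos (θ : FM K A → ℤ) (M : FM K A) : Prop :=
  ∀ (N : FM K A) (p : M →ₗ[A] N), Surjective p → Nontrivial N → 0 < θ N

def Fbar (θ : FM K A → ℤ) (M : FM K A) : Prop :=
  ∀ (L : FM K A) (i : L →ₗ[A] M), Injective i → θ L ≤ 0

lemma tc_Tbar {θ : FM K A → ℤ} (h : Additive θ) : TC (Tbar θ) := by
  refine ⟨fun M hM N p hp => ?_, fun M N p hp hM Q q hq => hM Q (q ∘ₗ p) (hq.comp hp), ?_⟩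
  · have : Subsingleton N := hp.subsingleton
    rw [h.triv N]
  · intro M L h1 h2 N p hp
    rw [h.sub_quo N (L.map p)]
    have a1 := h1 (N.sub (L.map p)) (p.submoduleMap L) (p.submoduleMap_surjective L)
    have a2 := h2 (N.quo (L.map p)) (L.mapQ _ p (Submodule.le_comap_map p L)) (by
      intro y
      obtain ⟨z, rfl⟩ := Submodule.mkQ_surjective _ y
      obtain ⟨x, rfl⟩ := hp z
      exact ⟨L.mkQ x, rfl⟩)
    omega

/-- A two-term complex of finitely generated projectives. -/
structure Pres (K A : Type) [Field K] [Ring A] [Algebra K A] : Type 1 where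
  P1 : FM K A
  P0 : FM K A
  [p1 : Module.Projective A P1]
  [p0 : Module.Projective A P0]
  d : P1 →ₗ[A] P0

attribute [instance] Pres.p1 Pres.p0

namespace Pres
variable (U : Pres K A)

noncomputable def H (M : FM K A) : ℕ := finrank K (LinearMap.ker (pre U.d M))
noncomputable def E (M : FM K A) : ℕ :=
  finrank K ((U.P1 →ₗ[A] M) ⧸ LinearMap.range (pre U.d M))
noncomputable def θ (M : FM K A) : ℤ := (hom U.P0 M : ℤ) - hom U.P1 M
def E0 (M : FM K A) : Prop := ∀ h : U.P1 →ₗ[A] M, ∃ g : U.P0 →ₗ[A] M, g ∘ₗ U.d = h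
def H0 (M : FM K A) : Prop := ∀ g : U.P0 →ₗ[A] M, g ∘ₗ U.d = 0 → g = 0
abbrev C : FM K A := U.P0.quo (LinearMap.range U.d)
def Rigid : Prop := U.E0 U.C

lemma θ_eq (M : FM K A) : U.θ M = (U.H M : ℤ) - U.E M := by
  have h1 := LinearMap.finrank_range_add_finrank_ker (pre U.d M)
  have h2 := Submodule.finrank_quotient_add_finrank (LinearMap.range (pre U.d M))
  unfold θ H E hom
  omega

lemma additive : Additive U.θ := by
  intro L M N i p hi hp he
  unfold θ
  rw [hom_add U.P0 L M N i p hi hp he, hom_add U.P1 L M N i p hi hp he]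
  push_cast
  ring

lemma E_eq_zero (M : FM K A) : U.E M = 0 ↔ U.E0 M := by
  unfold E E0
  rw [Module.finrank_zero_iff, Submodule.Quotient.subsingleton_iff, LinearMap.range_eq_top]
  rfl

lemma H_eq_zero (M : FM K A) : U.H M = 0 ↔ U.H0 M := by
  unfold H H0
  rw [Submodule.finrank_eq_zero, LinearMap.ker_eq_bot']
  rfl

lemma H_eq_hom (M : FM K A) : U.H M = hom U.C M := by
  have hinj : Injective (pre (P := U.P0) (Q := U.C) (LinearMap.range U.d).mkQ M) := by
    intro a b hab
    exact Submodule.linearMap_qext _ hab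
  unfold H hom
  rw [← LinearMap.finrank_range_of_inj hinj]
  suffices h : LinearMap.ker (pre U.d M) =
      LinearMap.range (pre (P := U.P0) (Q := U.C) (LinearMap.range U.d).mkQ M) by rw [h]
  ext g
  constructor
  · intro hg
    refine ⟨(LinearMap.range U.d).liftQ g ?_, Submodule.liftQ_mkQ _ _ _⟩
    rintro _ ⟨x, rfl⟩
    exact LinearMap.congr_fun hg x
  · rintro ⟨k, rfl⟩
    ext x
    have : (LinearMap.range U.d).mkQ (U.d x) = 0 :=
      (Submodule.Quotient.mk_eq_zero _).2 ⟨x, rfl⟩
    change k ((LinearMap.range U.d).mkQ (U.d x)) = 0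
    rw [this, map_zero]

lemma H_mono {L M : FM K A} (i : L →ₗ[A] M) (hi : Injective i) : U.H L ≤ U.H M := by
  rw [H_eq_hom, H_eq_hom]
  refine LinearMap.finrank_le_finrank_of_injective (f := post U.C i) ?_
  intro a b hab
  ext1
  ext x
  exact hi (LinearMap.congr_fun hab _)

lemma E_mono {M N : FM K A} (p : M →ₗ[A] N) (hp : Surjective p) : U.E N ≤ U.E M := by
  refine LinearMap.finrank_le_finrank_of_surjective
    (f := (LinearMap.range (pre U.d M)).mapQ (LinearMap.range (pre U.d N)) (post U.P1 p) ?_) ?_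
  · rintro _ ⟨g, rfl⟩
    exact ⟨p ∘ₗ g, rfl⟩
  · intro y
    obtain ⟨h, rfl⟩ := Submodule.mkQ_surjective _ y
    obtain ⟨k, rfl⟩ := Module.projective_lifting_property p h hp
    exact ⟨Submodule.Quotient.mk k, rfl⟩

lemma tc_E0 : TC U.E0 := by
  refine ⟨fun M hM h => ⟨0, Subsingleton.elim _ _⟩, fun M N p hp hM => ?_, ?_⟩
  · rw [← E_eq_zero] at hM ⊢
    have := U.E_mono p hp
    omega
  · intro M L h1 h2 h
    obtain ⟨g, hg⟩ := h2 (L.mkQ ∘ₗ h)
    obtain ⟨g', rfl⟩ := Module.projective_lifting_property L.mkQ g L.mkQ_surjective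
    obtain ⟨k, hk⟩ := fac_of_exact L.subtype L.mkQ L.injective_subtype
      (LinearMap.exact_subtype_mkQ L) (h - g' ∘ₗ U.d) (by
        rw [LinearMap.comp_sub, ← hg, LinearMap.comp_assoc, sub_self])
    obtain ⟨k', rfl⟩ := h1 k
    refine ⟨g' + L.subtype ∘ₗ k', ?_⟩
    rw [LinearMap.add_comp, LinearMap.comp_assoc, hk]
    abel

lemma H0_sub {L M : FM K A} (i : L →ₗ[A] M) (hi : Injective i) (h : U.H0 M) : U.H0 L := by
  rw [← H_eq_zero] at h ⊢
  have := U.H_mono i hi
  omega

lemma θ_le_H {L M : FM K A} (i : L →ₗ[A] M) (hi : Injective i) : U.θ L ≤ U.H M := by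
  have := U.H_mono i hi
  rw [θ_eq]
  omega

lemma neg_θ_le_E {M N : FM K A} (p : M →ₗ[A] N) (hp : Surjective p) : -U.θ N ≤ U.E M := by
  have := U.E_mono p hp
  rw [θ_eq]
  omega

lemma E0_tbar {M : FM K A} (h : U.E0 M) : Tbar U.θ M := by
  intro N p hp
  have := (U.E_eq_zero N).2 (U.tc_E0.quo M N p hp h)
  rw [θ_eq]
  omega

lemma H0_fbar {M : FM K A} (h : U.H0 M) : Fbar U.θ M := by
  intro N p hp
  have := (U.H_eq_zero N).2 (U.H0_sub p hp h)
  rw [θ_eq]
  omega

lemma H0_iff (M : FM K A) : U.H0 M ↔ ∀ g : U.C →ₗ[A] M, g = 0 := by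
  rw [← H_eq_zero, H_eq_hom, hom, Module.finrank_zero_iff]
  exact ⟨fun _ g => Subsingleton.elim _ _, fun h => ⟨fun a b => by rw [h a, h b]⟩⟩

variable {U}

/-- For rigid `U` the numbers `H` and `E` are attained by `θ` on a sub- and a quotient module. -/
lemma Rigid.exists_sub (hU : U.Rigid) (M : FM K A) : ∃ L : Submodule A M,
    (U.H M : ℤ) = U.θ (M.sub L) ∧ (U.E M : ℤ) = -U.θ (M.quo L) := by
  obtain ⟨L, hL, hq⟩ := U.tc_E0.exists_max M
  have h1 : U.H M ≤ U.H (M.sub L) := by
    rw [H_eq_hom, H_eq_hom]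
    refine LinearMap.finrank_le_finrank_of_surjective
      (f := post U.C (M := M.sub L) (N := M) L.subtype) ?_
    intro g
    exact fac_of_exact L.subtype L.mkQ L.injective_subtype (LinearMap.exact_subtype_mkQ L) g
      (hq U.C hU _)
  have h2 := U.H_mono (L := M.sub L) L.subtype L.injective_subtype
  have h3 := U.θ_eq (M.sub L)
  have h4 := (U.E_eq_zero _).2 hL
  have h5 := U.θ_eq M
  have h6 := U.additive.sub_quo M L
  refine ⟨L, by omega, by omega⟩

lemma Rigid.E0_iff (hU : U.Rigid) (M : FM K A) : U.E0 M ↔ Tbar U.θ M := by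
  refine ⟨U.E0_tbar, fun h => ?_⟩
  obtain ⟨L, -, h2⟩ := hU.exists_sub M
  have := h (M.quo L) L.mkQ L.mkQ_surjective
  rw [← E_eq_zero]
  omega

lemma Rigid.H0_iff_fbar (hU : U.Rigid) (M : FM K A) : U.H0 M ↔ Fbar U.θ M := by
  refine ⟨U.H0_fbar, fun h => ?_⟩
  obtain ⟨L, h1, -⟩ := hU.exists_sub M
  have := h (M.sub L) L.subtype L.injective_subtype
  rw [← H_eq_zero]
  omega

/-- Nonzero quotients of `C` have positive value as soon as `E` vanishes on `C`. -/
lemma Rigid.tpos (hU : U.Rigid) : Tpos U.θ U.C := by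
  intro N p hp hN
  have h1 := (U.E_eq_zero N).2 (U.tc_E0.quo _ N p hp hU)
  have h2 : U.H N ≠ 0 := by
    rw [Ne, H_eq_zero, H0_iff]
    intro h
    obtain ⟨y, hy⟩ := exists_ne (0 : N)
    obtain ⟨x, rfl⟩ := hp y
    exact hy (by rw [h p]; rfl)
  rw [θ_eq]
  omega

end Pres

end Pool.Agent.P.MP_a7c6c4_al.H37
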