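import Mathlib

/-! Weights given by pairs of projective modules, and King stability. -/

set_option autoImplicit false
open CategoryTheory

namespace Pool.Agent.P.MP_a7c6c4_al.H37

/-- The value at `N` of the lattice point `[P0] - [P1]`:
`dim_K Hom(P0, N) - dim_K Hom(P1, N)`. -/
noncomputable def weight (K : Type) [Field K] {A : Type} [Ring A] [Algebra K A]
    (P0 P1 N : ModuleCat.{0} A) : ℤ :=
  (Module.finrank K (P0 ⟶ N) : ℤ) - (Module.finrank K (P1 ⟶ N) : ℤ)

/-- King stability: `N` is nonzero, `η N = 0`, and `η L < 0` for every nonzero proper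
submodule `L` of `N`. -/
def KingStable {A : Type} [Ring A] (η : ModuleCat.{0} A → ℝ) (N : ModuleCat.{0} A) : Prop :=
  Nontrivial N ∧ η N = 0 ∧ ∀ L : Submodule A N, L ≠ ⊥ → L ≠ ⊤ → η (ModuleCat.of A L) < 0

end Pool.Agent.P.MP_a7c6c4_al.H37
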