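import Pool.Agent.P.MP_a7c6c4_al.H37.Segment

/-! Stable modules on a rational plane; projectives are determined by their Hom-dimensions. -/

set_option autoImplicit false
open Module Function

namespace Pool.Agent.P.MP_a7c6c4_al.H37

variable {K A : Type} [Field K] [Ring A] [Algebra K A]

def Pres.neg (U : Pres K A) : Pres K A := { P1 := U.P0, P0 := U.P1, d := 0 }

lemma Pres.θ_neg (U : Pres K A) (M : FM K A) : U.neg.θ M = -U.θ M := by
  unfold Pres.θ Pres.neg
  ring

theorem plane_isoFin [FiniteDimensional K A] (hA : AllRigid K A)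
    (hfin : ∀ U : Pres K A, IsoFin (Stable U.θ)) (U V : Pres K A) :
    IsoFin (fun N => ∃ a b : ℤ, Stable (fun M => a * U.θ M + b * V.θ M) N) := by
  obtain ⟨Z, hZ⟩ := U.exists_add U.neg
  refine (((((cone_isoFin hA hfin U V).union (cone_isoFin hA hfin U V.neg)).union
    (cone_isoFin hA hfin U.neg V)).union (cone_isoFin hA hfin U.neg V.neg)).union (hfin Z)).mono ?_
  rintro N ⟨a, b, hN⟩
  by_cases h0 : a = 0 ∧ b = 0
  · refine Or.inr (hN.congr fun M => ?_)
    rw [hZ, Pres.θ_neg, h0.1, h0.2]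
    ring
  refine Or.inl ?_
  obtain ⟨a, rfl | rfl⟩ := Int.eq_nat_or_neg a <;> obtain ⟨b, rfl | rfl⟩ := Int.eq_nat_or_neg b
  · exact Or.inl (Or.inl (Or.inl ⟨a, b, by omega, hN⟩))
  · exact Or.inl (Or.inl (Or.inr ⟨a, b, by omega, hN.congr fun M => by rw [Pres.θ_neg]; ring⟩))
  · exact Or.inl (Or.inr ⟨a, b, by omega, hN.congr fun M => by rw [Pres.θ_neg]; ring⟩)
  · exact Or.inr ⟨a, b, by omega, hN.congr fun M => by rw [Pres.θ_neg, Pres.θ_neg]; ring⟩

lemma exists_int_of_real (F : Set (ℤ × ℤ)) (hF : F.Finite) (v : ℤ × ℤ) (a b : ℝ)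
    (hv : a * v.1 + b * v.2 = 0) (h : ∀ f ∈ F, a * f.1 + b * f.2 < 0) :
    ∃ a' b' : ℤ, a' * v.1 + b' * v.2 = 0 ∧ ∀ f ∈ F, a' * f.1 + b' * f.2 < 0 := by
  by_cases h0 : v = 0
  · subst h0
    have hopen : IsOpen (⋂ f ∈ F, {x : ℝ × ℝ | x.1 * f.1 + x.2 * f.2 < 0}) :=
      hF.isOpen_biInter fun f _ => isOpen_lt (by fun_prop) continuous_const
    have hd : DenseRange (Prod.map ((↑) : ℚ → ℝ) ((↑) : ℚ → ℝ)) :=
      Rat.denseRange_cast.prodMap Rat.denseRange_cast
    obtain ⟨⟨p, q⟩, hpq⟩ := hd.exists_mem_open hopen ⟨(a, b), Set.mem_iInter₂.2 h⟩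
    refine ⟨p.num * q.den, q.num * p.den, by simp, fun f hf => ?_⟩
    have h1 : (p : ℝ) * f.1 + q * f.2 < 0 := Set.mem_iInter₂.1 hpq f hf
    have h2 : (0 : ℝ) < p.den := by exact_mod_cast p.pos
    have h3 : (0 : ℝ) < q.den := by exact_mod_cast q.pos
    have h4 : (p.num : ℝ) = p * p.den := by exact_mod_cast (Rat.mul_den_eq_num p).symm
    have h5 : (q.num : ℝ) = q * q.den := by exact_mod_cast (Rat.mul_den_eq_num q).symm
    have h6 : ((p.num * q.den * f.1 + q.num * p.den * f.2 : ℤ) : ℝ) < 0 := by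
      push_cast
      rw [h4, h5]
      nlinarith [mul_neg_of_pos_of_neg (mul_pos h2 h3) h1]
    exact_mod_cast h6
  · have hn : (0 : ℝ) < (v.1 : ℝ) ^ 2 + (v.2 : ℝ) ^ 2 := by
      by_contra c
      apply h0
      have a1 : (v.1 : ℝ) = 0 := by nlinarith [sq_nonneg (v.1 : ℝ), sq_nonneg (v.2 : ℝ)]
      have a2 : (v.2 : ℝ) = 0 := by nlinarith [sq_nonneg (v.1 : ℝ), sq_nonneg (v.2 : ℝ)]
      exact Prod.ext (by exact_mod_cast a1) (by exact_mod_cast a2)
    have key : ∀ f : ℤ × ℤ, ((v.1 : ℝ) ^ 2 + (v.2 : ℝ) ^ 2) * (a * f.1 + b * f.2) =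
        (b * v.1 - a * v.2) * ((-v.2 * f.1 + v.1 * f.2 : ℤ) : ℝ) := fun f => by
      push_cast
      linear_combination ((v.1 : ℝ) * f.1 + v.2 * f.2) * hv
    rcases le_total 0 (b * v.1 - a * v.2) with c | c
    · refine ⟨-v.2, v.1, by ring, fun f hf => ?_⟩
      have h1 := mul_neg_of_pos_of_neg hn (h f hf)
      rw [key] at h1
      exact_mod_cast neg_of_mul_neg_right h1 c
    · refine ⟨v.2, -v.1, by ring, fun f hf => ?_⟩
      have h1 := mul_neg_of_pos_of_neg hn (h f hf)
      rw [key] at h1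
      have h2 : 0 < -v.2 * f.1 + v.1 * f.2 := by exact_mod_cast pos_of_mul_neg_right h1 c
      linarith

lemma Pres.θ_sub_bound (U : Pres K A) (N : FM K A) (L : Submodule A N) :
    U.θ (N.sub L) ∈ Set.Icc (-(hom U.P1 N : ℤ)) (hom U.P0 N) := by
  have h0 := hom_mono U.P0 (L := N.sub L) L.subtype L.injective_subtype
  have h1 := hom_mono U.P1 (L := N.sub L) L.subtype L.injective_subtype
  unfold Pres.θ
  constructor <;> omega

lemma stable_of_real (U V : Pres K A) (N : FM K A) (a b : ℝ) (hN : Nontrivial N)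
    (h0 : a * U.θ N + b * V.θ N = 0)
    (h : ∀ L : Submodule A N, L ≠ ⊥ → L ≠ ⊤ → a * U.θ (N.sub L) + b * V.θ (N.sub L) < 0) :
    ∃ a' b' : ℤ, Stable (fun M => a' * U.θ M + b' * V.θ M) N := by
  obtain ⟨a', b', h1, h2⟩ := exists_int_of_real
    {f | ∃ L : Submodule A N, L ≠ ⊥ ∧ L ≠ ⊤ ∧ f = (U.θ (N.sub L), V.θ (N.sub L))}
    (((Set.finite_Icc _ _).prod (Set.finite_Icc _ _)).subset (by
      rintro _ ⟨L, -, -, rfl⟩
      exact ⟨U.θ_sub_bound N L, V.θ_sub_bound N L⟩)) (U.θ N, V.θ N) a b h0 (by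
      rintro _ ⟨L, h1, h2, rfl⟩
      exact h L h1 h2)
  exact ⟨a', b', hN, h1, fun L c d => h2 _ ⟨L, c, d, rfl⟩⟩

theorem proj_iso (P Q : FM K A) [Module.Projective A P] [Module.Projective A Q]
    (h : ∀ M, hom P M = hom Q M) : Nonempty (P ≃ₗ[A] Q) := by
  suffices H : ∀ n (P Q : FM K A), Module.Projective A P → Module.Projective A Q →
      (∀ M, hom P M = hom Q M) → finrank K P = n → Nonempty (P ≃ₗ[A] Q) from
    H _ P Q ‹_› ‹_› h rfl
  intro n
  induction n using Nat.strong_induction_on with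
  | _ n ih =>
    intro P Q _ _ h hn
    rcases subsingleton_or_nontrivial P with h0 | h0
    · have h1 : hom P Q = 0 := finrank_zero_of_subsingleton
      rw [h, hom, Module.finrank_zero_iff] at h1
      have : Subsingleton Q := ⟨fun a b => by
        have := Subsingleton.elim (LinearMap.id : Q →ₗ[A] Q) 0
        exact (LinearMap.congr_fun this a).trans (LinearMap.congr_fun this b).symm⟩
      exact ⟨LinearEquiv.ofSubsingleton _ _⟩
    obtain ⟨L, hL, -⟩ := (eq_top_or_exists_le_coatom (⊥ : Submodule A P)).resolve_left bot_ne_top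
    have hS := isSimpleModule_iff_isCoatom.2 hL
    have hπ : L.mkQ ≠ 0 := fun c => hL.1 (by rw [← L.ker_mkQ, c, LinearMap.ker_zero])
    have h1 := hom_pos (X := P) (L := P.quo L) L.mkQ hπ
    rw [h] at h1
    have : Nontrivial (Q →ₗ[A] P ⧸ L) := Module.nontrivial_of_finrank_pos (R := K) h1
    obtain ⟨π', hπ'⟩ := exists_ne (0 : Q →ₗ[A] P ⧸ L)
    obtain ⟨f, hf⟩ := Module.projective_lifting_property π' L.mkQ
      (LinearMap.surjective_of_ne_zero hπ')
    obtain ⟨g, hg⟩ := Module.projective_lifting_property L.mkQ π' L.mkQ_surjective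
    let e : Module.End A P := g ∘ₗ f
    let e' : Module.End A Q := f ∘ₗ g
    obtain ⟨m, ⟨c, c'⟩, hm⟩ := (((LinearMap.eventually_isCompl_ker_pow_range_pow e).and
      (LinearMap.eventually_isCompl_ker_pow_range_pow e')).and
      (Filter.eventually_ge_atTop 1)).exists
    have comm : ∀ (P Q : FM K A) (f : P →ₗ[A] Q) (g : Q →ₗ[A] P) (k : ℕ) (x : P),
        f (((g ∘ₗ f : Module.End A P) ^ k) x) = ((f ∘ₗ g : Module.End A Q) ^ k) (f x) := by
      intro P Q f g k
      induction k with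
      | zero => intro x; rfl
      | succ k ih =>
        intro x
        rw [pow_succ', pow_succ', Module.End.mul_apply, Module.End.mul_apply, ← ih]
        rfl
    have inj : ∀ (P Q : FM K A) (f : P →ₗ[A] Q) (g : Q →ₗ[A] P),
        IsCompl (LinearMap.ker ((g ∘ₗ f : Module.End A P) ^ m))
          (LinearMap.range ((g ∘ₗ f : Module.End A P) ^ m)) →
        ∃ k : P.sub (LinearMap.range ((g ∘ₗ f : Module.End A P) ^ m)) →ₗ[A]
          Q.sub (LinearMap.range ((f ∘ₗ g : Module.End A Q) ^ m)), Injective k := by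
      intro P Q f g c
      refine ⟨f.restrict ?_, ?_⟩
      · rintro _ ⟨x, rfl⟩
        exact ⟨f x, (comm P Q f g m x).symm⟩
      · rw [← LinearMap.ker_eq_bot, LinearMap.ker_eq_bot']
        intro x hx
        have h1 : f x.1 = 0 := congrArg Subtype.val hx
        obtain ⟨k, rfl⟩ : ∃ k, m = k + 1 := ⟨m - 1, by omega⟩
        refine Subtype.ext (Submodule.disjoint_def.1 c.disjoint x.1 ?_ x.2)
        change ((g ∘ₗ f : Module.End A P) ^ k) (g (f x.1)) = 0
        rw [h1, map_zero, map_zero]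
    obtain ⟨k, hk⟩ := inj P Q f g c
    obtain ⟨k', hk'⟩ := inj Q P g f c'
    let ε := LinearEquiv.ofBijective k
      ⟨hk, surj_of_inj_of_finrank_le k hk (finrank_le_of_inj k' hk')⟩
    have p1 : Module.Projective A (P.sub (LinearMap.ker (e ^ m))) :=
      Module.Projective.of_split (Submodule.subtype _) (Submodule.projectionOnto _ _ c)
        (Submodule.projectionOnto_comp_subtype c)
    have p2 : Module.Projective A (Q.sub (LinearMap.ker (e' ^ m))) :=
      Module.Projective.of_split (Submodule.subtype _) (Submodule.projectionOnto _ _ c')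
        (Submodule.projectionOnto_comp_subtype c')
    have hne : LinearMap.range (e ^ m) ≠ ⊥ := by
      have a : ∀ (j : ℕ) x, L.mkQ ((e ^ j) x) = L.mkQ x := by
        intro j
        induction j with
        | zero => intro x; rfl
        | succ j ih =>
          intro x
          rw [pow_succ, Module.End.mul_apply, ih]
          exact (LinearMap.congr_fun hg (f x)).trans (LinearMap.congr_fun hf x)
      intro b
      apply hπ
      refine LinearMap.ext fun x => ?_
      rw [← a m x, LinearMap.range_eq_bot.1 b]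
      simp
    have hd : finrank K P = finrank K (LinearMap.ker (e ^ m)) +
        finrank K (LinearMap.range (e ^ m)) := by
      rw [← Module.finrank_prod]
      exact ((Submodule.prodEquivOfIsCompl _ _ c).restrictScalars K).finrank_eq.symm
    have : Nontrivial (LinearMap.range (e ^ m)) := Submodule.nontrivial_iff_ne_bot.2 hne
    have hpos : 0 < finrank K (LinearMap.range (e ^ m)) := Module.finrank_pos
    obtain ⟨δ⟩ := ih (finrank K (LinearMap.ker (e ^ m))) (by omega) _ _ p1 p2 (fun M => by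
      have a := hom_compl P c M
      have b := hom_compl Q c' M
      have d := hom_iso ε M
      have := h M
      change hom (P.sub (LinearMap.range (e ^ m))) M =
        hom (Q.sub (LinearMap.range (e' ^ m))) M at d
      omega) rfl
    exact ⟨(Submodule.prodEquivOfIsCompl _ _ c).symm.trans
      ((δ.prodCongr ε).trans (Submodule.prodEquivOfIsCompl _ _ c'))⟩

end Pool.Agent.P.MP_a7c6c4_al.H37
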