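import Pool.Agent.P.MP_a7c6c4_al.H37.Two
import Pool.Agent.P.MP_a7c6c4_al.H37.Plane
import Pool.Agent.P.MP_a7c6c4_al.H37.Defs

/-! Translation between `ModuleCat` and `FM`. -/

set_option autoImplicit false
open Module Function CategoryTheory

namespace Pool.Agent.P.MP_a7c6c4_al.H37

variable {K A : Type} [Field K] [Ring A] [Algebra K A]

variable (K) in
abbrev toFM [FiniteDimensional K A] (M : ModuleCat.{0} A) (h : Module.Finite A M) : FM K A :=
  letI := ModuleCat.moduleOfAlgebraModule (k := K) M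
  haveI := ModuleCat.isScalarTower_of_algebra_moduleCat (k := K) M
  haveI : FiniteDimensional K M := Module.Finite.trans A M
  FM.of M

lemma semibrick_of_not_NS (h : ¬NS K A) : ∃ M : ℕ → ModuleCat.{0} A,
    (∀ i, Module.Finite A (M i) ∧ Nontrivial (M i) ∧ ∀ f : M i ⟶ M i, f ≠ 0 → IsIso f) ∧
      ∀ i j, i ≠ j → ∀ f : M i ⟶ M j, f = 0 := by
  obtain ⟨M, h1, h2⟩ := not_not.1 h
  refine ⟨fun i => ModuleCat.of A (M i), fun i => ⟨finA _, (h1 i).1, fun f hf => ?_⟩,
    fun i j hij f => ModuleCat.hom_ext (h2 i j hij f.hom)⟩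
  exact (ConcreteCategory.isIso_iff_bijective f).2
    ((h1 i).2 f.hom fun h0 => hf (ModuleCat.hom_ext h0))

lemma brick_toFM [FiniteDimensional K A] (M : ModuleCat.{0} A) (h : Module.Finite A M)
    (h1 : Nontrivial M) (h2 : ∀ f : M ⟶ M, f ≠ 0 → IsIso f) : Brick (toFM K M h) := by
  refine ⟨h1, fun f hf => ?_⟩
  have := h2 (ModuleCat.ofHom f) (fun h0 => hf (congrArg ModuleCat.Hom.hom h0))
  exact (ConcreteCategory.isIso_iff_bijective (ModuleCat.ofHom f)).1 this

lemma finrank_hom_eq [FiniteDimensional K A] (P N : ModuleCat.{0} A) (hP : Module.Finite A P)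
    (hN : Module.Finite A N) : finrank K (P ⟶ N) = hom (toFM K P hP) (toFM K N hN) := by
  letI := ModuleCat.moduleOfAlgebraModule (k := K) N
  haveI := ModuleCat.isScalarTower_of_algebra_moduleCat (k := K) N
  exact (ModuleCat.homLinearEquiv (S := K)).finrank_eq

variable (K) in
/-- The presentation with zero differential. -/
def presOf [FiniteDimensional K A] (P0 P1 : ModuleCat.{0} A) (h0 : Module.Finite A P0)
    (h1 : Module.Finite A P1) (p0 : Module.Projective A P0) (p1 : Module.Projective A P1) :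
    Pres K A :=
  { P1 := toFM K P1 h1, P0 := toFM K P0 h0, p1 := p1, p0 := p0, d := 0 }

lemma weight_eq [FiniteDimensional K A] (P0 P1 : ModuleCat.{0} A) (h0 : Module.Finite A P0)
    (h1 : Module.Finite A P1) (p0 : Module.Projective A P0) (p1 : Module.Projective A P1)
    (N : ModuleCat.{0} A) (hN : Module.Finite A N) :
    weight K P0 P1 N = (presOf K P0 P1 h0 h1 p0 p1).θ (toFM K N hN) := by
  unfold weight Pres.θ
  rw [finrank_hom_eq P0 N h0 hN, finrank_hom_eq P1 N h1 hN]
  rfl

lemma weight_sub [FiniteDimensional K A] (P0 P1 : ModuleCat.{0} A) (h0 : Module.Finite A P0)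
    (h1 : Module.Finite A P1) (p0 : Module.Projective A P0) (p1 : Module.Projective A P1)
    (N : ModuleCat.{0} A) (hN : Module.Finite A N) (L : Submodule A N) :
    weight K P0 P1 (ModuleCat.of A L) = (presOf K P0 P1 h0 h1 p0 p1).θ ((toFM K N hN).sub L) := by
  rw [weight_eq P0 P1 h0 h1 p0 p1 _ (finA ((toFM K N hN).sub L))]

end Pool.Agent.P.MP_a7c6c4_al.H37
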