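import Pool.Agent.P.MP_a7c6c4_al.H37.Indep

/-! If a multiple of a class is rigid, the class itself is rigid. -/

set_option autoImplicit false
open Module Function

namespace Pool.Agent.P.MP_a7c6c4_al.H37

variable {K A : Type} [Field K] [Ring A] [Algebra K A]

namespace Pres

lemma bongartz {V : Pres K A} (hV : V.Rigid) (P : FM K A) [Module.Projective A P] :
    ∃ (B : Pres K A) (N : ℕ), (∀ M, B.θ M = N * V.θ M + hom P M) ∧ (∀ M, V.E0 M → B.E0 M) ∧
      V.E0 B.C := by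
  classical
  let α := Module.finBasis K (V.P1 →ₗ[A] P)
  set N := finrank K (V.P1 →ₗ[A] P)
  let W := pi fun _ : Fin N => V
  let a : W.P1 →ₗ[A] P := LinearMap.lsum A (fun _ : Fin N => V.P1) K α
  let B : Pres K A := { P1 := W.P1, P0 := W.P0.prod P, d := W.d.prod a }
  refine ⟨B, N, fun M => ?_, fun M hM h => ?_, of_ez fun u => ?_⟩
  · have := θ_pi (fun _ : Fin N => V) M
    rw [Finset.sum_const, Finset.card_fin, nsmul_eq_mul] at this
    rw [← this]
    unfold θ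
    change ((hom (W.P0.prod P) M : ℕ) : ℤ) - hom W.P1 M = _
    rw [hom_prod]
    push_cast
    ring
  · obtain ⟨g, hg⟩ := (E0_pi_iff (fun _ : Fin N => V) M).2 (fun _ => hM) h
    exact ⟨g ∘ₗ LinearMap.fst A _ _, hg⟩
  · obtain ⟨v, z', hvz⟩ := ez (U := V) (V := W) (tc_pi_C V.tc_E0 _ fun _ => hV)
      (LinearMap.fst A _ _ ∘ₗ u)
    set w := LinearMap.snd A _ _ ∘ₗ u - a ∘ₗ z' with hw
    let z1 : V.P1 →ₗ[A] W.P1 := LinearMap.pi fun j => α.repr w j • LinearMap.id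
    let z0 : V.P0 →ₗ[A] W.P0 := LinearMap.pi fun j => α.repr w j • LinearMap.id
    have h1 : ∀ x, a (z1 x) = w x := fun x => by
      conv_rhs => rw [← α.sum_repr w, LinearMap.sum_apply]
      refine (LinearMap.sum_apply _ _ _).trans (Finset.sum_congr rfl fun j _ => ?_)
      exact (α j).map_smul_of_tower (α.repr w j) x
    have h2 : ∀ x, z0 (V.d x) = W.d (z1 x) := fun x => by
      ext j
      simp [z0, z1, W]
    refine ⟨(v - z0).prod 0, z' + z1, LinearMap.ext fun x => Prod.ext ?_ ?_⟩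
    · change (u x).1 = v (V.d x) - z0 (V.d x) + W.d (z' x + z1 x)
      have : (u x).1 = v (V.d x) + W.d (z' x) := LinearMap.congr_fun hvz x
      rw [this, h2, map_add]
      abel
    · change (u x).2 = 0 + a (z' x + z1 x)
      rw [map_add, h1, hw]
      simp

/-- `∏ T i ^ a i`. -/
abbrev mult {ι : Type} [Fintype ι] (T : ι → Pres K A) (a : ι → ℕ) : Pres K A :=
  pi fun x : Σ i, Fin (a i) => T x.1

lemma θ_mult {ι : Type} [Fintype ι] (T : ι → Pres K A) (a : ι → ℕ) (M : FM K A) :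
    (mult T a).θ M = ∑ i, a i * (T i).θ M := by
  rw [θ_pi, Fintype.sum_sigma]
  simp

lemma rigid_pi {ι : Type} [Finite ι] (T : ι → Pres K A) (hc : ∀ i j, (T i).E0 (T j).C) :
    (pi T).Rigid :=
  (E0_pi_iff _ _).2 fun i => tc_pi_C (T i).tc_E0 _ fun j => hc i j

theorem indep {ι : Type} [Fintype ι] (T : ι → Pres K A) (hL : ∀ i, Loc (T i))
    (h0 : ∀ i, (T i).θ ≠ 0) (hinj : ∀ i j, (T i).θ = (T j).θ → i = j)
    (hc : ∀ i j, (T i).E0 (T j).C) (a b : ι → ℕ)
    (h : ∀ M, ∑ i, a i * (T i).θ M = ∑ i, b i * (T i).θ M) : a = b := by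
  have key : ∀ a b : ι → ℕ, (∀ M, ∑ i, a i * (T i).θ M = ∑ i, b i * (T i).θ M) →
      ∀ i, a i ≤ b i := by
    intro a b h i
    by_contra hi
    have hθ : (mult T (fun j => a j - b j)).θ = (mult T (fun j => b j - a j)).θ := by
      ext M
      rw [θ_mult, θ_mult, ← sub_eq_zero, ← Finset.sum_sub_distrib, ← sub_eq_zero.2 (h M),
        ← Finset.sum_sub_distrib]
      refine Finset.sum_congr rfl fun j _ => ?_
      rw [← sub_mul, ← sub_mul]
      congr 1
      omega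
    have r0 : (mult T (fun j => a j - b j)).Rigid := rigid_pi _ fun x y => hc _ _
    have r1 : (mult T (fun j => b j - a j)).Rigid := rigid_pi _ fun x y => hc _ _
    refine indep_core (fun x : Σ j, Fin (b j - a j) => T x.1) (T i) (hL i) (h0 i)
      (fun x => hL _) (fun x hx => ?_) (fun x y => hc _ _) (fun M hM => ?_) (fun M hM => ?_)
    · obtain ⟨j, k⟩ := x
      obtain rfl := hinj _ _ hx
      have := k.2
      dsimp only at hi
      omega
    · have := (r1.E0_iff M).1 ((E0_pi_iff _ _).2 hM)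
      rw [← hθ, ← r0.E0_iff, E0_pi_iff] at this
      exact this ⟨i, ⟨0, Nat.sub_pos_of_lt (not_le.1 hi)⟩⟩
    · have := (r1.H0_iff_fbar M).1 ((H0_pi_iff _ _).2 hM)
      rw [← hθ, ← r0.H0_iff_fbar, H0_pi_iff] at this
      exact this ⟨i, ⟨0, Nat.sub_pos_of_lt (not_le.1 hi)⟩⟩
  exact funext fun i => le_antisymm (key a b h i) (key b a (fun M => (h M).symm) i)

lemma exists_reps {ι : Type} [Finite ι] (T : ι → Pres K A) :
    ∃ (κ : Type) (_ : Fintype κ) (r : κ → ι), (∀ q, (T (r q)).θ ≠ 0) ∧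
      (∀ q q', (T (r q)).θ = (T (r q')).θ → q = q') ∧
      ∀ i, ∃ c : κ → ℕ, ∀ M, (T i).θ M = ∑ q, c q * (T (r q)).θ M := by
  classical
  let s : Setoid ι := Setoid.ker fun i => (T i).θ
  let κ := {q : Quotient s // (T q.out).θ ≠ 0}
  have := Fintype.ofFinite κ
  refine ⟨κ, this, fun q => q.1.out, fun q => q.2, fun q q' h =>
    Subtype.ext (Quotient.out_equiv_out.1 h), fun i => ?_⟩
  have hi : (T (Quotient.mk s i).out).θ = (T i).θ := Quotient.mk_out (s := s) i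
  by_cases h : (T i).θ = 0
  · exact ⟨0, fun M => by simp [h]⟩
  · refine ⟨Pi.single ⟨Quotient.mk s i, by rwa [hi]⟩ 1, fun M => ?_⟩
    rw [Finset.sum_eq_single (⟨Quotient.mk s i, by rwa [hi]⟩ : κ)
      (fun b _ hb => by simp [hb]) (by simp)]
    simp [hi]

theorem descent (U V : Pres K A) (l : ℕ) (hl : 0 < l) (hθ : ∀ X, V.θ X = l * U.θ X)
    (hV : V.Rigid) : ∃ D : Pres K A, D.θ = U.θ ∧ D.Rigid := by
  obtain ⟨B0, N0, e0, a0, c0⟩ := bongartz hV U.P0
  obtain ⟨B1, N1, e1, a1, c1⟩ := bongartz hV U.P1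
  obtain ⟨ι, _, T, hT, hs⟩ := decompose V
  obtain ⟨ι0, _, T0, hT0, hs0⟩ := decompose B0
  obtain ⟨ι1, _, T1, hT1, hs1⟩ := decompose B1
  let S : ι ⊕ ι0 ⊕ ι1 → Pres K A := Sum.elim T (Sum.elim T0 T1)
  have hS : ∀ i, Loc (S i) ∧ (∀ M, V.E0 M → (S i).E0 M) ∧ V.E0 (S i).C := by
    rintro (i | i | i)
    · obtain ⟨p, hp⟩ := (hT i).2.2
      exact ⟨(hT i).1, (hT i).2.1, V.tc_E0.quo _ _ p hp hV⟩
    · obtain ⟨p, hp⟩ := (hT0 i).2.2
      exact ⟨(hT0 i).1, fun M h => (hT0 i).2.1 M (a0 M h), V.tc_E0.quo _ _ p hp c0⟩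
    · obtain ⟨p, hp⟩ := (hT1 i).2.2
      exact ⟨(hT1 i).1, fun M h => (hT1 i).2.1 M (a1 M h), V.tc_E0.quo _ _ p hp c1⟩
  obtain ⟨κ, _, r, hr0, hrinj, hc⟩ := exists_reps S
  choose c hc using hc
  have hcomp : ∀ q q', (S (r q)).E0 (S (r q')).C := fun q q' => (hS _).2.1 _ (hS _).2.2
  have cone : ∀ (ι' : Type) [Fintype ι'] (f : ι' → ι ⊕ ι0 ⊕ ι1), ∃ n : κ → ℕ, ∀ M,
      ∑ i, (S (f i)).θ M = ∑ q, n q * (S (r q)).θ M := by
    intro ι' _ f
    refine ⟨fun q => ∑ i, c (f i) q, fun M => ?_⟩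
    simp only [hc (f _), Nat.cast_sum, Finset.sum_mul]
    exact Finset.sum_comm
  obtain ⟨n, hn⟩ := cone ι Sum.inl
  obtain ⟨n0, hn0⟩ := cone ι0 (fun i => Sum.inr (Sum.inl i))
  obtain ⟨n1, hn1⟩ := cone ι1 (fun i => Sum.inr (Sum.inr i))
  have f : ∀ M, V.θ M = ∑ q, n q * (S (r q)).θ M := fun M => (hs M).trans (hn M)
  have f0 : ∀ M, B0.θ M = ∑ q, n0 q * (S (r q)).θ M := fun M => (hs0 M).trans (hn0 M)
  have f1 : ∀ M, B1.θ M = ∑ q, n1 q * (S (r q)).θ M := fun M => (hs1 M).trans (hn1 M)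
  have hU : ∀ M, U.θ M = ∑ q, ((n0 q + N1 * n q : ℕ) - (n1 q + N0 * n q : ℕ) : ℤ) *
      (S (r q)).θ M := fun M => by
    have : U.θ M = B0.θ M + N1 * V.θ M - (B1.θ M + N0 * V.θ M) := by
      rw [e0, e1]
      unfold θ
      ring
    rw [this, f, f0, f1, Finset.mul_sum, Finset.mul_sum, ← Finset.sum_add_distrib,
      ← Finset.sum_add_distrib, ← Finset.sum_sub_distrib]
    refine Finset.sum_congr rfl fun q _ => ?_
    push_cast
    ring
  have hind := indep (fun q => S (r q)) (fun q => (hS _).1) hr0 hrinj hcomp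
    (fun q => n q + l * (n1 q + N0 * n q)) (fun q => l * (n0 q + N1 * n q)) (fun M => by
      have h1 := hθ M
      rw [f, hU, Finset.mul_sum, ← sub_eq_zero, ← Finset.sum_sub_distrib] at h1
      rw [← sub_eq_zero, ← Finset.sum_sub_distrib, ← h1]
      refine Finset.sum_congr rfl fun q _ => ?_
      push_cast
      ring)
  have hle : ∀ q, n1 q + N0 * n q ≤ n0 q + N1 * n q := fun q => by
    have := congrFun hind q
    exact Nat.le_of_mul_le_mul_left (by omega) hl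
  refine ⟨mult (fun q => S (r q)) (fun q => n0 q + N1 * n q - (n1 q + N0 * n q)), ?_,
    rigid_pi _ fun x y => hcomp _ _⟩
  ext M
  rw [θ_mult, hU]
  refine Finset.sum_congr rfl fun q _ => ?_
  rw [Nat.cast_sub (hle q)]

end Pres

/-- Without infinite semibricks, every class is rigid. -/
theorem NS.exists_rigid [FiniteDimensional K A] (hNS : NS K A) (U : Pres K A) :
    ∃ D : Pres K A, D.θ = U.θ ∧ D.Rigid := by
  obtain ⟨V, l, hl, hθ, hV⟩ := hNS.exists_rigid_mul U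
  exact Pres.descent U V l hl hθ hV

end Pool.Agent.P.MP_a7c6c4_al.H37
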