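import Pool.Agent.P.MP_a7c6c4_al.H37.Local

/-! Independence of the classes of compatible local presentations. -/

set_option autoImplicit false
open Module Function

namespace Pool.Agent.P.MP_a7c6c4_al.H37

variable {K A : Type} [Field K] [Ring A] [Algebra K A]

namespace Pres

/-- The space of chain maps. -/
def chHom (X Y : Pres K A) : Submodule K ((X.P1 →ₗ[A] Y.P1) × (X.P0 →ₗ[A] Y.P0)) where
  carrier := {e | e.2 ∘ₗ X.d = Y.d ∘ₗ e.1}
  add_mem' {a b} ha hb := by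
    change (a.2 + b.2) ∘ₗ X.d = Y.d ∘ₗ (a.1 + b.1)
    rw [LinearMap.add_comp, LinearMap.comp_add, ha, hb]
  zero_mem' := by
    change (0 : X.P0 →ₗ[A] Y.P0) ∘ₗ X.d = Y.d ∘ₗ (0 : X.P1 →ₗ[A] Y.P1)
    simp
  smul_mem' c a ha := by
    change (c • a.2) ∘ₗ X.d = Y.d ∘ₗ (c • a.1)
    ext x
    have := LinearMap.congr_fun ha x
    simp only [LinearMap.comp_apply] at this
    simp [this]

/-- A right approximation by sums of the `Y k`. -/
lemma exists_approx {κ : Type} [Finite κ] (Y : κ → Pres K A) (T : Pres K A) :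
    ∃ (ι : Type) (_ : Fintype ι) (_ : DecidableEq ι) (c : ι → κ)
      (p1 : (pi fun x => Y (c x)).P1 →ₗ[A] T.P1) (p0 : (pi fun x => Y (c x)).P0 →ₗ[A] T.P0),
      p0 ∘ₗ (pi fun x => Y (c x)).d = T.d ∘ₗ p1 ∧
      ∀ (k : κ) (g1 : (Y k).P1 →ₗ[A] T.P1) (g0 : (Y k).P0 →ₗ[A] T.P0),
        g0 ∘ₗ (Y k).d = T.d ∘ₗ g1 →
        ∃ (s1 : (Y k).P1 →ₗ[A] (pi fun x => Y (c x)).P1)
          (s0 : (Y k).P0 →ₗ[A] (pi fun x => Y (c x)).P0),
          s0 ∘ₗ (Y k).d = (pi fun x => Y (c x)).d ∘ₗ s1 ∧ p1 ∘ₗ s1 = g1 ∧ p0 ∘ₗ s0 = g0 := by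
  classical
  have := Fintype.ofFinite κ
  let b := fun k => Module.finBasis K (chHom (Y k) T)
  let ι := Σ k, Fin (finrank K (chHom (Y k) T))
  refine ⟨ι, inferInstance, inferInstance, Sigma.fst,
    LinearMap.lsum A (fun x : ι => (Y x.1).P1) K (fun x => (b x.1 x.2).1.1),
    LinearMap.lsum A (fun x : ι => (Y x.1).P0) K (fun x => (b x.1 x.2).1.2), ?_, ?_⟩
  · refine LinearMap.pi_ext' fun x => ?_
    rw [LinearMap.comp_assoc, pi_d_single (fun x : ι => Y x.1)]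
    ext y
    simp only [LinearMap.comp_apply, LinearMap.coe_single, LinearMap.lsum_piSingle]
    exact LinearMap.congr_fun (b x.1 x.2).2 y
  · intro k g1 g0 hg
    let g : chHom (Y k) T := ⟨(g1, g0), hg⟩
    let s1 : (Y k).P1 →ₗ[A] (∀ x : ι, (Y x.1).P1) :=
      ∑ j, (b k).repr g j • LinearMap.single A (fun x : ι => (Y x.1).P1) ⟨k, j⟩
    let s0 : (Y k).P0 →ₗ[A] (∀ x : ι, (Y x.1).P0) :=
      ∑ j, (b k).repr g j • LinearMap.single A (fun x : ι => (Y x.1).P0) ⟨k, j⟩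
    have hs1 : ∀ y, s1 y = ∑ j, (b k).repr g j •
        LinearMap.single A (fun x : ι => (Y x.1).P1) ⟨k, j⟩ y := fun y =>
      LinearMap.sum_apply _ _ y
    have hs0 : ∀ y, s0 y = ∑ j, (b k).repr g j •
        LinearMap.single A (fun x : ι => (Y x.1).P0) ⟨k, j⟩ y := fun y =>
      LinearMap.sum_apply _ _ y
    have hg1 : ∀ y, ∑ j, (b k).repr g j • (b k j).1.1 y = g1 y := fun y => by
      have := congrArg (fun e : chHom (Y k) T => e.1.1 y) ((b k).sum_repr g)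
      simp only [AddSubmonoidClass.coe_finsetSum, Prod.fst_sum, LinearMap.sum_apply] at this
      exact this
    have hg0 : ∀ y, ∑ j, (b k).repr g j • (b k j).1.2 y = g0 y := fun y => by
      have := congrArg (fun e : chHom (Y k) T => e.1.2 y) ((b k).sum_repr g)
      simp only [AddSubmonoidClass.coe_finsetSum, Prod.snd_sum, LinearMap.sum_apply] at this
      exact this
    refine ⟨s1, s0, ?_, ?_, ?_⟩
    · refine LinearMap.ext fun y => ?_
      rw [LinearMap.comp_apply, LinearMap.comp_apply, hs1, hs0, map_sum]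
      refine Finset.sum_congr rfl fun j _ => ?_
      rw [LinearMap.map_smul_of_tower]
      congr 1
      exact (LinearMap.congr_fun (pi_d_single (fun x : ι => Y x.1) ⟨k, j⟩) y).symm
    · refine LinearMap.ext fun y => ?_
      rw [LinearMap.comp_apply, hs1, map_sum, ← hg1]
      refine Finset.sum_congr rfl fun j _ => ?_
      rw [LinearMap.map_smul_of_tower, LinearMap.coe_single, LinearMap.lsum_piSingle]
    · refine LinearMap.ext fun y => ?_
      rw [LinearMap.comp_apply, hs0, map_sum, ← hg0]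
      refine Finset.sum_congr rfl fun j _ => ?_
      rw [LinearMap.map_smul_of_tower, LinearMap.coe_single, LinearMap.lsum_piSingle]

/-- An approximation `Q → T` splits up to homotopy. -/
lemma approx_split {κ : Type} (Y : κ → Pres K A) (T Q : Pres K A)
    (p1 : Q.P1 →ₗ[A] T.P1) (p0 : Q.P0 →ₗ[A] T.P0) (hp : p0 ∘ₗ Q.d = T.d ∘ₗ p1)
    (happ : ∀ (k : κ) (g1 : (Y k).P1 →ₗ[A] T.P1) (g0 : (Y k).P0 →ₗ[A] T.P0),
        g0 ∘ₗ (Y k).d = T.d ∘ₗ g1 → ∃ (s1 : (Y k).P1 →ₗ[A] Q.P1) (s0 : (Y k).P0 →ₗ[A] Q.P0),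
          s0 ∘ₗ (Y k).d = Q.d ∘ₗ s1 ∧ p1 ∘ₗ s1 = g1 ∧ p0 ∘ₗ s0 = g0)
    (hQ : ∀ k, (Y k).E0 Q.C) (ha : ∀ M, (∀ k, (Y k).E0 M) → T.E0 M)
    (hb : ∀ M, (∀ k, (Y k).H0 M) → T.H0 M) :
    ∃ (σ1 : T.P1 →ₗ[A] Q.P1) (σ0 : T.P0 →ₗ[A] Q.P0) (h : T.P0 →ₗ[A] T.P1),
      σ0 ∘ₗ T.d = Q.d ∘ₗ σ1 ∧ p1 ∘ₗ σ1 + h ∘ₗ T.d = LinearMap.id ∧
        p0 ∘ₗ σ0 + T.d ∘ₗ h = LinearMap.id := by
  have hp' : ∀ x, p0 (Q.d x) = T.d (p1 x) := fun x => LinearMap.congr_fun hp x
  let π : (Q.P0 × T.P1) →ₗ[A] T.P0 := p0.coprod T.d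
  have hπ : ∀ x, π x = p0 x.1 + T.d x.2 := fun _ => rfl
  have hA : Surjective π := by
    have h1 : T.H0 (T.P0.quo (LinearMap.range π)) := by
      refine hb _ fun k g hg => ?_
      obtain ⟨g', rfl⟩ := Module.projective_lifting_property (LinearMap.range π).mkQ g
        (Submodule.mkQ_surjective _)
      have hm : ∀ x, (g' ∘ₗ (Y k).d) x ∈ LinearMap.range π := fun x =>
        (Submodule.Quotient.mk_eq_zero _).1 (LinearMap.congr_fun hg x)
      obtain ⟨uw, huw⟩ := Module.projective_lifting_property π.rangeRestrict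
        (LinearMap.codRestrict _ _ hm) π.surjective_rangeRestrict
      have h2 : ∀ x, p0 (uw x).1 + T.d (uw x).2 = g' ((Y k).d x) := fun x =>
        congrArg Subtype.val (LinearMap.congr_fun huw x)
      obtain ⟨v, z, hvz⟩ := ez (hQ k) (LinearMap.fst A _ _ ∘ₗ uw)
      have h3 : ∀ x, (uw x).1 = v ((Y k).d x) + Q.d (z x) := fun x => LinearMap.congr_fun hvz x
      obtain ⟨s1, s0, -, -, hs⟩ := happ k (p1 ∘ₗ z + LinearMap.snd A _ _ ∘ₗ uw) (g' - p0 ∘ₗ v) (by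
        ext x
        simp only [LinearMap.comp_apply, LinearMap.sub_apply, LinearMap.add_apply, map_add,
          LinearMap.snd_apply, ← h2, h3, hp']
        abel)
      ext x
      refine (Submodule.Quotient.mk_eq_zero _).2 ⟨(s0 x + v x, 0), ?_⟩
      have h4 : p0 (s0 x) = g' x - p0 (v x) := LinearMap.congr_fun hs x
      simp [hπ, h4]
    have h2 := h1 (LinearMap.range π).mkQ (by
      ext x
      exact (Submodule.Quotient.mk_eq_zero _).2 ⟨(0, x), by simp [hπ]⟩)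
    intro y
    exact (Submodule.Quotient.mk_eq_zero _).1 (LinearMap.congr_fun h2 y)
  let X0 : FM K A := (Q.P0.prod T.P1).sub (LinearMap.ker (p0.coprod (-T.d)))
  have hX : ∀ x : Q.P0 × T.P1, x ∈ LinearMap.ker (p0.coprod (-T.d)) ↔ p0 x.1 = T.d x.2 :=
    fun x => by simp [add_neg_eq_zero]
  let j : Q.P1 →ₗ[A] X0 := LinearMap.codRestrict _ (Q.d.prod p1) fun x => (hX _).2 (hp' x)
  have hB : T.E0 (X0.quo (LinearMap.range j)) := by
    refine ha _ fun k h => ?_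
    obtain ⟨h', rfl⟩ := Module.projective_lifting_property (LinearMap.range j).mkQ h
      (Submodule.mkQ_surjective _)
    have h1 : ∀ x, p0 (h' x).1.1 = T.d (h' x).1.2 := fun x => (hX _).1 (h' x).2
    obtain ⟨v, z, hvz⟩ := ez (hQ k) (LinearMap.fst A _ _ ∘ₗ Submodule.subtype _ ∘ₗ h')
    have h3 : ∀ x, (h' x).1.1 = v ((Y k).d x) + Q.d (z x) := fun x => LinearMap.congr_fun hvz x
    obtain ⟨s1, s0, hs, hs1, hs0⟩ := happ k
      (LinearMap.snd A _ _ ∘ₗ Submodule.subtype _ ∘ₗ h' - p1 ∘ₗ z) (p0 ∘ₗ v) (by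
        ext x
        change p0 (v ((Y k).d x)) = T.d ((h' x).1.2 - p1 (z x))
        rw [map_sub, ← h1, h3, map_add, hp', add_sub_cancel_right])
    have h4 : ∀ x, p0 (s0 x) = p0 (v x) := fun x => LinearMap.congr_fun hs0 x
    have h5 : ∀ x, p1 (s1 x) = (h' x).1.2 - p1 (z x) := fun x => LinearMap.congr_fun hs1 x
    have h6 : ∀ x, s0 ((Y k).d x) = Q.d (s1 x) := fun x => LinearMap.congr_fun hs x
    refine ⟨(LinearMap.range j).mkQ ∘ₗ LinearMap.codRestrict _ ((v - s0).prod 0)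
      (fun x => (hX _).2 (by simp [h4])), ?_⟩
    refine LinearMap.ext fun x => ?_
    refine ((Submodule.Quotient.eq (LinearMap.range j)).2
      ⟨z x + s1 x, Subtype.ext (Prod.ext ?_ ?_)⟩).symm
    · change Q.d (z x + s1 x) = (h' x).1.1 - (v ((Y k).d x) - s0 ((Y k).d x))
      rw [h3, h6, map_add]
      abel
    · change p1 (z x + s1 x) = (h' x).1.2 - 0
      rw [map_add, h5]
      abel
  obtain ⟨sec, hsec⟩ := Module.projective_lifting_property π LinearMap.id hA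
  have h7 : ∀ y, p0 (sec y).1 + T.d (sec y).2 = y := fun y => LinearMap.congr_fun hsec y
  let k : T.P1 →ₗ[A] X0 := LinearMap.codRestrict _
    ((LinearMap.fst A _ _ ∘ₗ sec ∘ₗ T.d).prod (LinearMap.id - LinearMap.snd A _ _ ∘ₗ sec ∘ₗ T.d))
    fun y => (hX _).2 (by
      change p0 (sec (T.d y)).1 = T.d (y - (sec (T.d y)).2)
      rw [map_sub, eq_sub_iff_add_eq, h7])
  obtain ⟨g, hg⟩ := hB ((LinearMap.range j).mkQ ∘ₗ k)
  obtain ⟨g', rfl⟩ := Module.projective_lifting_property (LinearMap.range j).mkQ g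
    (Submodule.mkQ_surjective _)
  have hm : ∀ y, (k - g' ∘ₗ T.d) y ∈ LinearMap.range j := fun y =>
    (Submodule.Quotient.eq _).1 (LinearMap.congr_fun hg y).symm
  obtain ⟨σ1, hσ⟩ := Module.projective_lifting_property j.rangeRestrict
    (LinearMap.codRestrict _ _ hm) j.surjective_rangeRestrict
  have h8 : ∀ y, j (σ1 y) = k y - g' (T.d y) := fun y =>
    congrArg Subtype.val (LinearMap.congr_fun hσ y)
  have h9 : ∀ y, p0 (g' y).1.1 = T.d (g' y).1.2 := fun y => (hX _).1 (g' y).2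
  refine ⟨σ1, LinearMap.fst A _ _ ∘ₗ sec - LinearMap.fst A _ _ ∘ₗ Submodule.subtype _ ∘ₗ g',
    LinearMap.snd A _ _ ∘ₗ sec + LinearMap.snd A _ _ ∘ₗ Submodule.subtype _ ∘ₗ g', ?_, ?_, ?_⟩
  · refine LinearMap.ext fun y => ?_
    exact (congrArg (fun x : X0 => x.1.1) (h8 y)).symm
  · refine LinearMap.ext fun y => ?_
    have : p1 (σ1 y) = y - (sec (T.d y)).2 - (g' (T.d y)).1.2 :=
      congrArg (fun x : X0 => x.1.2) (h8 y)
    change p1 (σ1 y) + ((sec (T.d y)).2 + (g' (T.d y)).1.2) = y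
    rw [this]
    abel
  · refine LinearMap.ext fun y => ?_
    change p0 ((sec y).1 - (g' y).1.1) + T.d ((sec y).2 + (g' y).1.2) = y
    rw [map_sub, map_add, h9]
    conv_rhs => rw [← h7 y]
    abel

theorem indep_core {κ : Type} [Finite κ] (Y : κ → Pres K A) (T : Pres K A) (hT : Loc T)
    (hT0 : T.θ ≠ 0) (hY : ∀ k, Loc (Y k)) (hne : ∀ k, (Y k).θ ≠ T.θ)
    (hc : ∀ k k', (Y k).E0 (Y k').C) (ha : ∀ M, (∀ k, (Y k).E0 M) → T.E0 M)
    (hb : ∀ M, (∀ k, (Y k).H0 M) → T.H0 M) : False := by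
  obtain ⟨ι, _, _, c, p1, p0, hp, happ⟩ := exists_approx Y T
  obtain ⟨σ1, σ0, h, hσ, e1, e0⟩ := approx_split Y T _ p1 p0 hp happ
    (fun k => tc_pi_C (Y k).tc_E0 _ fun x => hc k (c x)) ha hb
  have := hT.isLocalRing hT0
  let a1 := fun x : ι => p1 ∘ₗ LinearMap.single A (fun x => (Y (c x)).P1) x
  let a0 := fun x : ι => p0 ∘ₗ LinearMap.single A (fun x => (Y (c x)).P0) x
  let b1 : ∀ x : ι, T.P1 →ₗ[A] (Y (c x)).P1 := fun x => LinearMap.proj x ∘ₗ σ1
  let b0 : ∀ x : ι, T.P0 →ₗ[A] (Y (c x)).P0 := fun x => LinearMap.proj x ∘ₗ σ0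
  have ha' : ∀ x, a0 x ∘ₗ (Y (c x)).d = T.d ∘ₗ a1 x := fun x => by
    rw [LinearMap.comp_assoc, ← pi_d_single (fun x => Y (c x)), ← LinearMap.comp_assoc, hp]
    rfl
  have hb' : ∀ x, b0 x ∘ₗ T.d = (Y (c x)).d ∘ₗ b1 x := fun x =>
    LinearMap.ext fun y => congrFun (LinearMap.congr_fun hσ y) x
  let e : ι → T.chEnd := fun x => ⟨(a1 x ∘ₗ b1 x, a0 x ∘ₗ b0 x), by
    change (a0 x ∘ₗ b0 x) ∘ₗ T.d = T.d ∘ₗ (a1 x ∘ₗ b1 x)
    rw [LinearMap.comp_assoc, hb', ← LinearMap.comp_assoc, ha', LinearMap.comp_assoc]⟩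
  let η : T.chEnd := ⟨(h ∘ₗ T.d, T.d ∘ₗ h), rfl⟩
  have hsum : ∑ x, e x + η = 1 := by
    refine Subtype.ext (Prod.ext ?_ ?_)
    · refine LinearMap.ext fun y => ?_
      have := LinearMap.congr_fun e1 y
      rw [LinearMap.add_apply, LinearMap.comp_apply, ← Finset.univ_sum_single (σ1 y),
        map_sum] at this
      simpa [e, η, Prod.fst_sum, a1, b1] using this
    · refine LinearMap.ext fun y => ?_
      have := LinearMap.congr_fun e0 y
      rw [LinearMap.add_apply, LinearMap.comp_apply, ← Finset.univ_sum_single (σ0 y),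
        map_sum] at this
      simpa [e, η, Prod.snd_sum, a0, b0] using this
  rcases IsLocalRing.isUnit_or_isUnit_of_isUnit_add (hsum ▸ isUnit_one) with hu | hu
  · obtain ⟨x, -, hx⟩ := IsLocalRing.exists_of_isUnit_sum hu
    obtain ⟨u1, u0⟩ := (chEnd_unit_iff T _).1 hx
    change Bijective (a1 x ∘ₗ b1 x) at u1
    change Bijective (a0 x ∘ₗ b0 x) at u0
    have aux : ∀ (P Q : FM K A) (a : Q →ₗ[A] P) (b : P →ₗ[A] Q), Bijective (a ∘ₗ b) →
        IsNilpotent (b ∘ₗ a : Module.End A Q) → Subsingleton P := by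
      rintro P Q a b hab ⟨n, hn⟩
      have h1 : ∀ (m : ℕ) y, b (((a ∘ₗ b : Module.End A P) ^ m) y) =
          ((b ∘ₗ a : Module.End A Q) ^ m) (b y) := by
        intro m
        induction m with
        | zero => intro y; rfl
        | succ m ih =>
          intro y
          rw [pow_succ', pow_succ', Module.End.mul_apply, Module.End.mul_apply, ← ih]
          rfl
      have hbi : Injective b := Injective.of_comp (f := a) hab.1
      have h2 : Injective ((a ∘ₗ b : Module.End A P) ^ n) :=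
        Module.End.iterate_injective hab.1 n
      refine ⟨fun y y' => h2 (hbi ?_)⟩
      rw [h1, h1, hn]
      rfl
    rcases hY (c x) (b1 x ∘ₗ a1 x) (b0 x ∘ₗ a0 x) (by
      rw [LinearMap.comp_assoc, ha', ← LinearMap.comp_assoc, hb', LinearMap.comp_assoc])
      with ⟨n1, n0⟩ | ⟨v1, v0⟩
    · have := aux _ _ _ _ u1 n1
      have := aux _ _ _ _ u0 n0
      exact hT0 θ_eq_zero_of_subsingleton
    · exact hne (c x) (θ_eq_of_bij (a1 x) (a0 x)
        ⟨Injective.of_comp (f := b1 x) v1.1, Surjective.of_comp (g := b1 x) u1.2⟩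
        ⟨Injective.of_comp (f := b0 x) v0.1, Surjective.of_comp (g := b0 x) u0.2⟩)
  · obtain ⟨u1, u0⟩ := (chEnd_unit_iff T _).1 hu
    exact hT0 (θ_eq_zero_of_bij
      ⟨Injective.of_comp (f := h) u1.1, Surjective.of_comp (g := h) u0.2⟩)

end Pres

end Pool.Agent.P.MP_a7c6c4_al.H37
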