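import Pool.Agent.P.MP_a7c6c4_al.H37.Basic

/-! Bricks, labels of the torsion class `Tbar θ`, stable modules. -/

set_option autoImplicit false
open Module Function

namespace Pool.Agent.P.MP_a7c6c4_al.H37

variable {K A : Type} [Field K] [Ring A] [Algebra K A]

def Brick (M : FM K A) : Prop := Nontrivial M ∧ ∀ f : M →ₗ[A] M, f ≠ 0 → Bijective f

variable (K A) in
/-- There is no infinite semibrick. -/
def NS : Prop := ¬∃ M : ℕ → FM K A, (∀ i, Brick (M i)) ∧ ∀ i j, i ≠ j → ∀ f : M i →ₗ[A] M j, f = 0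

/-- Finitely many isomorphism classes. -/
def IsoFin (S : FM K A → Prop) : Prop :=
  ∃ (ι : Type) (_ : Finite ι) (R : ι → FM K A), ∀ M, S M → ∃ i, Nonempty (M ≃ₗ[A] R i)

lemma IsoFin.mono {S S' : FM K A → Prop} (h : IsoFin S') (hs : ∀ M, S M → S' M) : IsoFin S := by
  obtain ⟨ι, hι, R, hR⟩ := h
  exact ⟨ι, hι, R, fun M hM => hR M (hs M hM)⟩

lemma IsoFin.union {S S' : FM K A → Prop} (h : IsoFin S) (h' : IsoFin S') :
    IsoFin (fun M => S M ∨ S' M) := by
  obtain ⟨ι, hι, R, hR⟩ := h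
  obtain ⟨ι', hι', R', hR'⟩ := h'
  refine ⟨ι ⊕ ι', inferInstance, Sum.elim R R', ?_⟩
  rintro M (hM | hM)
  · obtain ⟨i, hi⟩ := hR M hM
    exact ⟨Sum.inl i, hi⟩
  · obtain ⟨i, hi⟩ := hR' M hM
    exact ⟨Sum.inr i, hi⟩

lemma IsoFin.of_subsingleton {S : FM K A → Prop}
    (h : ∀ M N, S M → S N → Nonempty (M ≃ₗ[A] N)) : IsoFin S := by
  by_cases h0 : ∃ M, S M
  · obtain ⟨M, hM⟩ := h0
    exact ⟨Unit, inferInstance, fun _ => M, fun N hN => ⟨(), h N M hN hM⟩⟩
  · exact ⟨Empty, inferInstance, Empty.elim, fun N hN => (h0 ⟨N, hN⟩).elim⟩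

lemma IsoFin.not_seq {S : FM K A → Prop} (h : IsoFin S) (M : ℕ → FM K A) (hM : ∀ i, S (M i)) :
    ∃ i j, i ≠ j ∧ Nonempty (M i ≃ₗ[A] M j) := by
  obtain ⟨ι, hι, R, hR⟩ := h
  choose f hf using fun i => hR (M i) (hM i)
  obtain ⟨i, j, hij, he⟩ := Finite.exists_ne_map_eq_of_infinite f
  obtain ⟨a⟩ := hf i
  obtain ⟨b⟩ := hf j
  rw [he] at a
  exact ⟨i, j, hij, ⟨a.trans b.symm⟩⟩

lemma NS.exists_reps (hNS : NS K A) (S : FM K A → Prop) (hnt : ∀ M, S M → Nontrivial M)
    (horth : ∀ M N, S M → S N → ∀ f : M →ₗ[A] N, f ≠ 0 → Bijective f) :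
    ∃ (n : ℕ) (R : Fin n → FM K A), (∀ i, S (R i)) ∧ ∀ M, S M → ∃ i, Nonempty (M ≃ₗ[A] R i) := by
  classical
  by_contra hcon
  apply hNS
  obtain ⟨f, hf, hf'⟩ := exists_seq_of_forall_finset_exists S
    (fun X Y => IsEmpty (Y ≃ₗ[A] X)) (by
      intro s hs
      by_contra h
      apply hcon
      refine ⟨s.card, fun i => (s.equivFin.symm i).1, fun i => hs _ (s.equivFin.symm i).2,
        fun M hM => ?_⟩
      by_contra h2
      apply h
      refine ⟨M, hM, fun x hx => ⟨fun e => h2 ⟨s.equivFin ⟨x, hx⟩, ?_⟩⟩⟩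
      beta_reduce
      rw [Equiv.symm_apply_apply]
      exact ⟨e⟩)
  refine ⟨f, fun i => ⟨hnt _ (hf i), horth _ _ (hf i) (hf i)⟩, fun i j hij g => ?_⟩
  by_contra hg
  have e := LinearEquiv.ofBijective g (horth _ _ (hf i) (hf j) g hg)
  rcases lt_or_gt_of_ne hij with h | h
  · exact (hf' i j h).false e.symm
  · exact (hf' j i h).false e

lemma NS.isoFin (hNS : NS K A) (S : FM K A → Prop) (hnt : ∀ M, S M → Nontrivial M)
    (horth : ∀ M N, S M → S N → ∀ f : M →ₗ[A] N, f ≠ 0 → Bijective f) : IsoFin S := by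
  obtain ⟨n, R, -, h⟩ := hNS.exists_reps S hnt horth
  exact ⟨Fin n, inferInstance, R, h⟩

def Label (T : FM K A → Prop) (S : FM K A) : Prop :=
  Nontrivial S ∧ T S ∧ ∀ X : FM K A, T X → ∀ g : X →ₗ[A] S, g ≠ 0 →
    Surjective g ∧ T (X.sub (LinearMap.ker g))

lemma Label.orth {T : FM K A → Prop} {M N : FM K A} (hM : Label T M) (hN : Label T N)
    (f : M →ₗ[A] N) (hf : f ≠ 0) : Bijective f := by
  obtain ⟨h1, h2⟩ := hN.2.2 M hM.2.1 f hf
  refine ⟨?_, h1⟩
  rw [← LinearMap.ker_eq_bot]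
  by_contra h
  have h3 := (hM.2.2 _ h2 (LinearMap.ker f).subtype (by
    intro h0
    apply h
    rw [← Submodule.range_subtype (LinearMap.ker f), h0, LinearMap.range_zero])).1
  apply hf
  ext x
  obtain ⟨y, rfl⟩ := h3 x
  exact y.2

lemma finrank_le_of_inj {L M : FM K A} (i : L →ₗ[A] M) (hi : Injective i) :
    finrank K L ≤ finrank K M :=
  LinearMap.finrank_le_finrank_of_injective (f := i.restrictScalars K) hi

lemma surj_of_inj_of_finrank_le {L M : FM K A} (i : L →ₗ[A] M) (hi : Injective i)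
    (h : finrank K M ≤ finrank K L) : Surjective i :=
  (LinearMap.injective_iff_surjective_of_finrank_eq_finrank (f := i.restrictScalars K)
    (le_antisymm (finrank_le_of_inj i hi) h)).1 hi

/-- The labels generate `Tbar θ`. -/
theorem label_gen {θ : FM K A → ℤ} (hθ : Additive θ) {U : FM K A → Prop} (hU : TC U)
    (hl : ∀ S, Label (Tbar θ) S → U S) (X : FM K A) (hX : Tbar θ X) : U X := by
  classical
  by_contra hXU
  have hT := tc_Tbar hθ
  have hV := hU.inter hT
  let Q : FM K A → Prop := fun Y => Nontrivial Y ∧ Tbar θ Y ∧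
    ∀ Z : FM K A, (U Z ∧ Tbar θ Z) → ∀ g : Z →ₗ[A] Y, g = 0
  have hQ : ∀ X : FM K A, Tbar θ X → ¬U X → ∃ Y, Q Y ∧ θ Y ≤ θ X := by
    intro X hX hXU
    obtain ⟨L, hL, hq⟩ := hV.exists_max X
    refine ⟨X.quo L, ⟨?_, hT.quo X _ L.mkQ L.mkQ_surjective hX, hq⟩, ?_⟩
    · by_contra h
      exact hXU (hU.ext X L hL.1 (hU.triv _ (not_nontrivial_iff_subsingleton.1 h)))
    · have := hθ.sub_quo X L
      have h2 := hL.2 _ LinearMap.id surjective_id
      omega
  have hex : ∃ t : ℕ, ∃ Y, Q Y ∧ θ Y = t := by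
    obtain ⟨Y, hY, -⟩ := hQ X hX hXU
    exact ⟨(θ Y).toNat, Y, hY, (Int.toNat_of_nonneg (hY.2.1 _ LinearMap.id surjective_id)).symm⟩
  have hmin : ∀ Y, Q Y → (Nat.find hex : ℤ) ≤ θ Y := by
    intro Y hY
    have h0 := hY.2.1 _ LinearMap.id surjective_id
    have := Nat.find_min' hex ⟨Y, hY, (Int.toNat_of_nonneg h0).symm⟩
    omega
  have hex2 : ∃ n : ℕ, ∃ Y, (Q Y ∧ θ Y = Nat.find hex) ∧ finrank K Y = n := by
    obtain ⟨Y, hY⟩ := Nat.find_spec hex
    exact ⟨_, Y, hY, rfl⟩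
  obtain ⟨Y, ⟨hY, hYt⟩, hYn⟩ := Nat.find_spec hex2
  have hlab : Label (Tbar θ) Y := by
    refine ⟨hY.1, hY.2.1, fun Z hZ g hg => ?_⟩
    have hsurj : Surjective g := by
      have hI : Q (Y.sub (LinearMap.range g)) := by
        refine ⟨Submodule.nontrivial_iff_ne_bot.2 (fun h0 => hg (LinearMap.range_eq_bot.1 h0)),
          hT.range g hZ, fun W hW k => ?_⟩
        have := hY.2.2 W hW ((LinearMap.range g).subtype ∘ₗ k)
        ext x
        exact LinearMap.congr_fun this x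
      have h1 := hθ.sub_quo Y (LinearMap.range g)
      have h2 := hY.2.1 (Y.quo (LinearMap.range g)) _ (LinearMap.range g).mkQ_surjective
      have h3 := hmin _ hI
      have h4 := Nat.find_min' hex2 ⟨_, ⟨hI, by omega⟩, rfl⟩
      have h5 := surj_of_inj_of_finrank_le (L := Y.sub (LinearMap.range g)) (M := Y)
        (LinearMap.range g).subtype (Submodule.injective_subtype _) (by omega)
      intro y
      obtain ⟨⟨_, x, rfl⟩, rfl⟩ := h5 y
      exact ⟨x, rfl⟩
    refine ⟨hsurj, fun N p hp => ?_⟩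
    by_contra hneg
    set L : Submodule A Z := (LinearMap.ker p).map (LinearMap.ker g).subtype with hL
    have hLg : L ≤ LinearMap.ker g := Submodule.map_subtype_le _ _
    have e1 := hθ.ker g hsurj
    have e2 := hθ.ker p hp
    have e3 := hθ.sub_quo Z L
    have e4 : θ (Z.sub L) = θ ((Z.sub (LinearMap.ker g)).sub (LinearMap.ker p)) :=
      (hθ.iso (M := (Z.sub (LinearMap.ker g)).sub (LinearMap.ker p)) (N := Z.sub L)
        (Submodule.equivSubtypeMap _ _)).symm
    have hZ' : Tbar θ (Z.quo L) := hT.quo Z _ L.mkQ L.mkQ_surjective hZ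
    have hnU : ¬U (Z.quo L) := by
      intro hu
      have hs : Surjective (L.liftQ g hLg) := by
        intro y
        obtain ⟨x, rfl⟩ := hsurj y
        exact ⟨L.mkQ x, rfl⟩
      have h0 := hY.2.2 _ ⟨hu, hZ'⟩ (L.liftQ g hLg)
      obtain ⟨y, hy⟩ := @exists_ne _ hY.1 (0 : Y)
      obtain ⟨x, rfl⟩ := hs y
      exact hy (by rw [h0]; rfl)
    obtain ⟨Y', hY', hle⟩ := hQ _ hZ' hnU
    have := hmin _ hY'
    omega
  have h0 := hY.2.2 Y ⟨hl Y hlab, hY.2.1⟩ LinearMap.id
  obtain ⟨y, hy⟩ := @exists_ne _ hY.1 (0 : Y)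
  exact hy (LinearMap.congr_fun h0 y)

/-- King stability. -/
def Stable (θ : FM K A → ℤ) (N : FM K A) : Prop :=
  Nontrivial N ∧ θ N = 0 ∧ ∀ L : Submodule A N, L ≠ ⊥ → L ≠ ⊤ → θ (N.sub L) < 0

namespace Stable
variable {θ : FM K A → ℤ} {N : FM K A}

lemma sub_le (hθ : Additive θ) (h : Stable θ N) (L : Submodule A N) : θ (N.sub L) ≤ 0 := by
  by_cases h1 : L = ⊥
  · subst h1
    rw [hθ.triv]
  by_cases h2 : L = ⊤
  · subst h2
    rw [hθ.iso (M := N.sub ⊤) (N := N) Submodule.topEquiv, h.2.1]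
  exact (h.2.2 L h1 h2).le

lemma fbar (hθ : Additive θ) (h : Stable θ N) : Fbar θ N := by
  intro L i hi
  rw [hθ.iso (M := L) (N := N.sub (LinearMap.range i)) (LinearEquiv.ofInjective i hi)]
  exact h.sub_le hθ _

lemma tbar (hθ : Additive θ) (h : Stable θ N) : Tbar θ N := by
  intro Q p hp
  have := hθ.ker p hp
  have h1 := h.sub_le hθ (LinearMap.ker p)
  have h2 := h.2.1
  omega

/-- A stable module is a label. -/
lemma label (hθ : Additive θ) (h : Stable θ N) : Label (Tbar θ) N := by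
  refine ⟨h.1, h.tbar hθ, fun X hX g hg => ?_⟩
  have hs : Surjective g := by
    rw [← LinearMap.range_eq_top]
    by_contra h2
    have h3 := h.2.2 _ (fun h0 => hg (LinearMap.range_eq_bot.1 h0)) h2
    have h4 := hX (N.sub (LinearMap.range g)) g.rangeRestrict g.surjective_rangeRestrict
    omega
  refine ⟨hs, fun Q p hp => ?_⟩
  set L : Submodule A X := (LinearMap.ker p).map (LinearMap.ker g).subtype with hL
  have e1 := hθ.ker g hs
  have e2 := hθ.ker p hp
  have e3 := hθ.sub_quo X L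
  have e4 : θ (X.sub L) = θ ((X.sub (LinearMap.ker g)).sub (LinearMap.ker p)) :=
    (hθ.iso (M := (X.sub (LinearMap.ker g)).sub (LinearMap.ker p)) (N := X.sub L)
      (Submodule.equivSubtypeMap _ _)).symm
  have e5 := hX (X.quo L) L.mkQ L.mkQ_surjective
  have e6 := h.2.1
  omega

end Stable

lemma NS.isoFin_stable (hNS : NS K A) {θ : FM K A → ℤ} (hθ : Additive θ) : IsoFin (Stable θ) :=
  hNS.isoFin _ (fun _ h => h.1) (fun _ _ h h' f hf => (h.label hθ).orth (h'.label hθ) f hf)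

/-- A module receiving no nonzero map from `Tbar θ` lies in `Fbar θ`. -/
lemma fbar_of_orth {θ : FM K A → ℤ} (hθ : Additive θ) (N : FM K A)
    (h : ∀ X, Tbar θ X → ∀ g : X →ₗ[A] N, g = 0) : Fbar θ N := by
  classical
  suffices H : ∀ n (L : FM K A) (i : L →ₗ[A] N), finrank K L = n → Injective i → θ L ≤ 0 from
    fun L i hi => H _ L i rfl hi
  intro n
  induction n using Nat.strong_induction_on with
  | _ n ih =>
    intro L i hn hi
    by_contra hpos
    have hT : Tbar θ L := by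
      intro Q p hp
      have e := hθ.ker p hp
      by_cases hQ : Subsingleton Q
      · rw [hθ.triv Q]
      have hlt : finrank K (L.sub (LinearMap.ker p)) < n := by
        have := finrank_exact ((LinearMap.ker p).subtype.restrictScalars K) (p.restrictScalars K)
          (Submodule.injective_subtype _) hp (LinearMap.exact_subtype_ker_map p)
        have : Nontrivial Q := not_subsingleton_iff_nontrivial.1 hQ
        have h3 : 0 < finrank K Q := Module.finrank_pos
        change finrank K (LinearMap.ker p) < n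
        omega
      have := ih _ hlt (L.sub (LinearMap.ker p)) (i ∘ₗ (LinearMap.ker p).subtype) rfl
        (hi.comp (Submodule.injective_subtype _))
      omega
    have h0 := h L hT i
    have : Subsingleton L := ⟨fun a b => hi (by rw [h0]; rfl)⟩
    rw [hθ.triv L] at hpos
    exact hpos le_rfl

end Pool.Agent.P.MP_a7c6c4_al.H37
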