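import Pool.Agent.P.MP_a7c6c4_al.H37.Basic

/-! A module representing the dual of `E(U, -)`. -/

set_option autoImplicit false
open Module Function

namespace Pool.Agent.P.MP_a7c6c4_al.H37

variable {K A : Type} [Field K] [Ring A] [Algebra K A]

abbrev tss {M : Type} [AddCommGroup M] [Module A M] (m : M) : A →ₗ[A] M :=
  LinearMap.toSpanSingleton A M m

/-- The `K`-dual of `Hom(P, A)`. -/
def Nu (P : FM K A) : Type := (P →ₗ[A] A) →ₗ[K] K

instance (P : FM K A) : AddCommGroup (Nu P) := inferInstanceAs (AddCommGroup ((P →ₗ[A] A) →ₗ[K] K))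
instance (P : FM K A) : Module K (Nu P) := inferInstanceAs (Module K ((P →ₗ[A] A) →ₗ[K] K))
instance [FiniteDimensional K A] (P : FM K A) : FiniteDimensional K (Nu P) :=
  inferInstanceAs (FiniteDimensional K ((P →ₗ[A] A) →ₗ[K] K))

def Nu.val {P : FM K A} (l : Nu P) : (P →ₗ[A] A) →ₗ[K] K := l

@[ext] lemma Nu.ext {P : FM K A} {l l' : Nu P} (h : ∀ α, l.val α = l'.val α) : l = l' :=
  LinearMap.ext h

/-- `α ↦ α(-) m` as a `K`-linear map. -/
def rsm (P : FM K A) {M : Type} [AddCommGroup M] [Module A M] [Module K M] [IsScalarTower K A M]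
    (m : M) : (P →ₗ[A] A) →ₗ[K] (P →ₗ[A] M) where
  toFun α := tss m ∘ₗ α
  map_add' a b := by ext; simp [add_smul]
  map_smul' a b := by ext; simp

instance (P : FM K A) : SMul A (Nu P) := ⟨fun a l => l.val ∘ₗ rsm P a⟩

lemma Nu.smul_val {P : FM K A} (a : A) (l : Nu P) (α : P →ₗ[A] A) :
    (a • l).val α = l.val (tss a ∘ₗ α) := rfl

@[simp] lemma Nu.add_val {P : FM K A} (l l' : Nu P) (α : P →ₗ[A] A) :
    (l + l').val α = l.val α + l'.val α := rfl

@[simp] lemma Nu.zero_val {P : FM K A} (α : P →ₗ[A] A) : (0 : Nu P).val α = 0 := rfl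

@[simp] lemma Nu.ksmul_val {P : FM K A} (k : K) (l : Nu P) (α : P →ₗ[A] A) :
    (k • l).val α = k * l.val α := rfl

instance (P : FM K A) : Module A (Nu P) where
  one_smul l := by
    ext α
    rw [Nu.smul_val]
    congr 1
    ext; simp
  mul_smul a b l := by
    ext α
    simp only [Nu.smul_val]
    congr 1
    ext; simp [mul_assoc]
  smul_zero a := by ext α; simp [Nu.smul_val]
  smul_add a l l' := by ext α; simp [Nu.smul_val]
  add_smul a b l := by
    ext α
    simp only [Nu.smul_val, Nu.add_val, ← map_add]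
    congr 1
    ext; simp [mul_add]
  zero_smul l := by
    ext α
    rw [Nu.smul_val, Nu.zero_val, ← map_zero l.val]
    congr 1
    ext; simp

instance (P : FM K A) : IsScalarTower K A (Nu P) where
  smul_assoc k a l := by
    ext α
    rw [Nu.ksmul_val, Nu.smul_val, Nu.smul_val, ← smul_eq_mul, ← map_smul]
    congr 1
    ext; simp

def tauSub (U : Pres K A) : Submodule A (Nu U.P1) where
  carrier := {l | ∀ β : U.P0 →ₗ[A] A, l.val (β ∘ₗ U.d) = 0}
  add_mem' {a b} ha hb β := by simp [ha β, hb β]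
  zero_mem' β := rfl
  smul_mem' a l hl β := hl (tss a ∘ₗ β)

/-- Dual basis of a finitely generated projective module. -/
lemma dual_basis (P : FM K A) [Module.Projective A P] :
    ∃ (n : ℕ) (p : Fin n → P) (α : Fin n → (P →ₗ[A] A)), ∀ x, ∑ i, α i x • p i = x := by
  classical
  obtain ⟨n, f, g, -, -, h⟩ := Module.Finite.exists_comp_eq_id_of_projective A P
  refine ⟨n, fun i => f (Pi.single i 1), fun i => LinearMap.proj i ∘ₗ g, fun x => ?_⟩
  have h1 : f (g x) = x := LinearMap.congr_fun h x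
  conv_rhs => rw [← h1, pi_eq_sum_univ' (g x), map_sum]
  simp

lemma hom_eq_sum {P : FM K A} {n : ℕ} {p : Fin n → P} {α : Fin n → (P →ₗ[A] A)}
    (h : ∀ x, ∑ i, α i x • p i = x) {M : Type} [AddCommGroup M] [Module A M] (g : P →ₗ[A] M) :
    g = ∑ i, tss (g (p i)) ∘ₗ α i := by
  ext x
  conv_lhs => rw [← h x, map_sum]
  simp

theorem exists_tau [FiniteDimensional K A] (U : Pres K A) :
    ∃ N : FM K A, ∀ M : FM K A, hom M N = U.E M := by
  refine ⟨FM.of (tauSub U), fun M => ?_⟩
  set R := LinearMap.range (pre U.d M) with hR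
  let Ψ : Module.Dual K ((U.P1 →ₗ[A] M) ⧸ R) →ₗ[K] (M →ₗ[A] tauSub U) :=
    { toFun := fun l =>
        { toFun := fun m => ⟨(l ∘ₗ R.mkQ ∘ₗ rsm U.P1 m : (U.P1 →ₗ[A] A) →ₗ[K] K), fun β => by
            change l (R.mkQ (tss m ∘ₗ β ∘ₗ U.d)) = 0
            rw [show R.mkQ (tss m ∘ₗ β ∘ₗ U.d) = 0 from
              (Submodule.Quotient.mk_eq_zero _).2 ⟨tss m ∘ₗ β, rfl⟩, map_zero]⟩
          map_add' := fun m m' => by
            refine Subtype.ext (Nu.ext fun α => ?_)
            change l (R.mkQ (tss (m + m') ∘ₗ α)) =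
              l (R.mkQ (tss m ∘ₗ α)) + l (R.mkQ (tss m' ∘ₗ α))
            rw [← map_add, ← map_add]
            congr 2
            ext; simp
          map_smul' := fun a m => by
            refine Subtype.ext (Nu.ext fun α => ?_)
            change l (R.mkQ (tss (a • m) ∘ₗ α)) = l (R.mkQ (tss m ∘ₗ tss a ∘ₗ α))
            congr 2
            ext; simp [mul_smul] }
      map_add' := fun l l' => by ext m α; rfl
      map_smul' := fun k l => by ext m α; rfl }
  have hΨ : ∀ l m α, (Ψ l m).1.val α = l (R.mkQ (tss m ∘ₗ α)) := fun _ _ _ => rfl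
  obtain ⟨n, p, α, hp⟩ := dual_basis U.P1
  obtain ⟨n', q, β, hq⟩ := dual_basis U.P0
  have hinj : Injective Ψ := by
    rw [← LinearMap.ker_eq_bot, LinearMap.ker_eq_bot']
    intro l hl
    ext h
    change l (R.mkQ h) = 0
    rw [hom_eq_sum hp h, map_sum, map_sum]
    refine Finset.sum_eq_zero fun i _ => ?_
    rw [← hΨ, hl]
    rfl
  have hsurj : Surjective Ψ := by
    intro g
    let l0 : (U.P1 →ₗ[A] M) →ₗ[K] K :=
      { toFun := fun h => ∑ i, (g (h (p i))).1.val (α i)
        map_add' := fun a b => by simp [Finset.sum_add_distrib]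
        map_smul' := fun k a => by
          simp only [LinearMap.smul_apply, LinearMap.map_smul_of_tower, RingHom.id_apply,
            smul_eq_mul, Finset.mul_sum]
          rfl }
    have key : ∀ (m : M) (γ : U.P1 →ₗ[A] A), l0 (tss m ∘ₗ γ) = (g m).1.val γ := by
      intro m γ
      conv_rhs => rw [hom_eq_sum hp γ, map_sum]
      change ∑ i, (g (γ (p i) • m)).1.val (α i) = _
      refine Finset.sum_congr rfl fun i _ => ?_
      rw [map_smul]
      rfl
    have hv : R ≤ LinearMap.ker l0 := by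
      rintro _ ⟨k, rfl⟩
      rw [LinearMap.mem_ker, hom_eq_sum hq k, map_sum, map_sum]
      refine Finset.sum_eq_zero fun j _ => ?_
      rw [pre_apply, LinearMap.comp_assoc, key]
      exact (g _).2 _
    refine ⟨R.liftQ l0 hv, ?_⟩
    ext m γ
    rw [hΨ]
    exact key m γ
  have := (LinearEquiv.ofBijective Ψ ⟨hinj, hsurj⟩).finrank_eq
  rw [Subspace.dual_finrank_eq] at this
  exact this.symm

end Pool.Agent.P.MP_a7c6c4_al.H37
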