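import Pool.Agent.P.MP_a7c6c4_al.H37.NC
import Pool.Agent.P.MP_a7c6c4_al.H37.Labels
import Pool.Agent.P.MP_a7c6c4_al.H37.Tau

/-! Presentations detecting semistability; a multiple of every class is rigid. -/

set_option autoImplicit false
open Module Function

namespace Pool.Agent.P.MP_a7c6c4_al.H37

variable {K A : Type} [Field K] [Ring A] [Algebra K A]

lemma TC.of_cover {T : FM K A → Prop} (h : TC T) {ι : Type} (M : FM K A) (X : ι → FM K A)
    (hX : ∀ i, T (X i)) (g : ∀ i, X i →ₗ[A] M)
    (hg : ∀ L : Submodule A M, (∀ i x, g i x ∈ L) → L = ⊤) : T M := by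
  obtain ⟨L, hL, hq⟩ := h.exists_max M
  have : L = ⊤ := hg L fun i x =>
    (Submodule.Quotient.mk_eq_zero L).1 (LinearMap.congr_fun (hq _ (hX i) (L.mkQ ∘ₗ g i)) x)
  subst this
  exact h.quo (M.sub ⊤) M (Submodule.subtype _) (fun x => ⟨⟨x, trivial⟩, rfl⟩) hL

lemma TC.pi {T : FM K A → Prop} (h : TC T) {ι : Type} [Finite ι] (X : ι → FM K A)
    (hX : ∀ i, T (X i)) : T (FM.pi X) := by
  classical
  have := Fintype.ofFinite ι
  refine h.of_cover _ X hX (fun i => LinearMap.single A (fun i => X i) i) fun L hL => ?_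
  rw [eq_top_iff]
  intro x _
  rw [← Finset.univ_sum_single x]
  exact L.sum_mem fun i _ => hL i _

instance projPi {ι : Type} [Finite ι] (P : ι → Type) [∀ i, AddCommGroup (P i)]
    [∀ i, Module A (P i)] [∀ i, Module.Projective A (P i)] : Module.Projective A (∀ i, P i) := by
  have := Fintype.ofFinite ι
  exact Module.Projective.of_equiv' (DFinsupp.linearEquivFunOnFintype (R := A) (M := P))

lemma hom_pi {ι : Type} [Fintype ι] (P : ι → FM K A) (M : FM K A) :
    hom (FM.pi P) M = ∑ i, hom (P i) M := by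
  classical
  unfold hom
  rw [← (LinearMap.lsum A (fun i => P i) K (M := M)).finrank_eq, Module.finrank_pi_fintype]

lemma hom_prod (P Q M : FM K A) : hom (P.prod Q) M = hom P M + hom Q M := by
  unfold hom
  rw [← (LinearMap.coprodEquiv (R := A) (M := P) (M₂ := Q) (M₃ := M) K).finrank_eq,
    Module.finrank_prod]

lemma hom_prod' (P M N : FM K A) : hom P (M.prod N) = hom P M + hom P N := by
  unfold hom
  rw [← (LinearMap.prodEquiv (R := A) (M := P) (M₂ := M) (M₃ := N) K).finrank_eq,
    Module.finrank_prod]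

/-- Pre-composition as a bilinear map. -/
def preB (P Q M : FM K A) : (P →ₗ[A] Q) →ₗ[K] (Q →ₗ[A] M) →ₗ[K] (P →ₗ[A] M) where
  toFun f := pre f M
  map_add' a b := by ext; simp
  map_smul' a b := by ext; simp

/-- A matrix of maps as a presentation. -/
abbrev Pres.pow (U : Pres K A) {D : Type} [Fintype D] (F : D → D → (U.P1 →ₗ[A] U.P0)) :
    Pres K A where
  P1 := FM.pi fun _ : D => U.P1
  P0 := FM.pi fun _ : D => U.P0
  d := LinearMap.pi fun j => ∑ i, F i j ∘ₗ LinearMap.proj i

lemma Pres.θ_pow (U : Pres K A) {D : Type} [Fintype D] (F : D → D → (U.P1 →ₗ[A] U.P0))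
    (M : FM K A) : (U.pow F).θ M = Fintype.card D * U.θ M := by
  simp only [Pres.θ, Pres.pow, hom_pi, Finset.sum_const, Finset.card_univ, smul_eq_mul]
  push_cast
  ring

lemma Pres.H_pow (U : Pres K A) {D : Type} [Fintype D] (F : D → D → (U.P1 →ₗ[A] U.P0))
    (M : FM K A) : (U.pow F).H M = nul (preB U.P1 U.P0 M) F := by
  classical
  let e0 := LinearMap.lsum A (fun _ : D => U.P0) K (M := M)
  let e1 := LinearMap.lsum A (fun _ : D => U.P1) K (M := M)
  have h : pre (U.pow F).d M ∘ₗ e0.toLinearMap = e1.toLinearMap ∘ₗ blow (preB U.P1 U.P0 M) F := by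
    refine LinearMap.ext fun v => LinearMap.ext fun p => ?_
    change e0 v ((U.pow F).d p) = e1 (blow (preB U.P1 U.P0 M) F v) p
    simp only [e0, e1, LinearMap.lsum_apply, LinearMap.coe_sum, Finset.sum_apply,
      LinearMap.comp_apply, LinearMap.proj_apply, blow_apply, preB, LinearMap.coe_mk,
      AddHom.coe_mk, pre_apply, Pres.pow, LinearMap.pi_apply, map_sum]
    exact Finset.sum_comm
  have h2 := congrArg LinearMap.ker h
  rw [LinearEquiv.ker_comp, LinearMap.ker_comp, Submodule.comap_equiv_eq_map_symm] at h2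
  unfold nul Pres.H
  rw [← h2, LinearEquiv.finrank_map_eq]

theorem king (U : Pres K A) (M N : FM K A) (hM : Tbar U.θ M) (hN : Fbar U.θ N) :
    ∃ (V : Pres K A) (l : ℕ), 0 < l ∧ (∀ X, V.θ X = l * U.θ X) ∧ V.E0 M ∧ V.H0 N := by
  classical
  have hθ := U.additive
  have hM0 : 0 ≤ U.θ M := hM M LinearMap.id surjective_id
  set X := M.prod N with hX
  have hbound : ∀ L : Submodule A X, U.θ (X.sub L) ≤ U.θ M := by
    intro L
    let g : X.sub L →ₗ[A] N := LinearMap.snd A M N ∘ₗ L.subtype
    have h1 := hθ.range g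
    have h2 := hN (N.sub (LinearMap.range g)) (Submodule.subtype _) (Submodule.injective_subtype _)
    let k : (X.sub L).sub (LinearMap.ker g) →ₗ[A] M :=
      LinearMap.fst A M N ∘ₗ L.subtype ∘ₗ (LinearMap.ker g).subtype
    have hk : Injective k := by
      intro a b hab
      have ha : a.1.1.2 = 0 := a.2
      have hb : b.1.1.2 = 0 := b.2
      exact Subtype.ext (Subtype.ext (Prod.ext hab (ha.trans hb.symm)))
    have h3 := hθ _ M (M.quo (LinearMap.range k)) k (LinearMap.range k).mkQ hk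
      (Submodule.mkQ_surjective _) (LinearMap.exact_map_mkQ_range k)
    have h4 := hM (M.quo (LinearMap.range k)) _ (LinearMap.range k).mkQ_surjective
    omega
  obtain ⟨D, hD, hD', F, hF⟩ := nc_main (preB U.P1 U.P0 X) (U.θ M).toNat (by
    intro V' R hR
    let b := Module.finBasis K V'
    let π : (Fin (finrank K V') → U.P0) →ₗ[A] X :=
      LinearMap.lsum A (fun _ => U.P0) K (fun i => (b i).1)
    set L := LinearMap.range π with hL
    have hV : V' ≤ LinearMap.range (post U.P0 (M := X.sub L) (N := X) L.subtype) := by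
      intro v hv
      refine ⟨LinearMap.codRestrict L v fun x => ?_, rfl⟩
      refine ⟨fun i => b.repr ⟨v, hv⟩ i • x, ?_⟩
      have := congrArg (fun w : V' => (w.1 : U.P0 →ₗ[A] X) x) (b.sum_repr ⟨v, hv⟩)
      simp only [AddSubmonoidClass.coe_finsetSum, SetLike.val_smul, LinearMap.coe_sum,
        Finset.sum_apply, LinearMap.smul_apply] at this
      rw [← this]
      simp [π, LinearMap.lsum_apply]
    have hW : LinearMap.range (post U.P1 (M := X.sub L) (N := X) L.subtype) ≤ R := by
      rintro _ ⟨h, rfl⟩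
      obtain ⟨k, rfl⟩ := Module.projective_lifting_property π.rangeRestrict h
        π.surjective_rangeRestrict
      have : post U.P1 (M := X.sub L) (N := X) L.subtype (π.rangeRestrict ∘ₗ k) =
          ∑ i, preB U.P1 U.P0 X (LinearMap.proj i ∘ₗ k) (b i).1 := by
        refine LinearMap.ext fun p => ?_
        change π (k p) = _
        simp [π, LinearMap.lsum_apply, preB]
      rw [this]
      exact R.sum_mem fun i _ => hR _ _ (b i).2
    have inj : ∀ P : FM K A, Injective (post P (M := X.sub L) (N := X) L.subtype) := by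
      intro P a b hab
      exact LinearMap.ext fun x => L.injective_subtype (LinearMap.congr_fun hab x)
    have h1 := Submodule.finrank_mono hV
    have h2 := Submodule.finrank_mono hW
    rw [LinearMap.finrank_range_of_inj (inj _)] at h1 h2
    have h3 := hbound L
    unfold Pres.θ hom at h3
    unfold Pres.θ hom
    omega)
  refine ⟨U.pow F, Fintype.card D, Fintype.card_pos, U.θ_pow F, ?_⟩
  rw [← Pres.H_pow, Pres.H_eq_hom, hX, hom_prod', ← Pres.H_eq_hom, ← Pres.H_eq_hom] at hF
  have h1 := (U.pow F).θ_eq M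
  rw [Pres.θ_pow] at h1
  have h2 : (((U.θ M).toNat * Fintype.card D : ℕ) : ℤ) = Fintype.card D * U.θ M := by
    push_cast
    rw [Int.toNat_of_nonneg hM0, mul_comm]
  rw [← Pres.E_eq_zero, ← Pres.H_eq_zero]
  omega

lemma Tbar_scale {θ θ' : FM K A → ℤ} {l : ℕ} (hl : 0 < l) (h : ∀ X, θ' X = l * θ X) (M : FM K A) :
    Tbar θ' M ↔ Tbar θ M := by
  refine forall₃_congr fun N p hp => ?_
  rw [h]
  exact mul_nonneg_iff_of_pos_left (by exact_mod_cast hl)

/-- Without infinite semibricks, some multiple of every class is rigid. -/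
theorem NS.exists_rigid_mul [FiniteDimensional K A] (hNS : NS K A) (U : Pres K A) :
    ∃ (V : Pres K A) (l : ℕ), 0 < l ∧ (∀ X, V.θ X = l * U.θ X) ∧ V.Rigid := by
  have hθ := U.additive
  obtain ⟨n, R, hR, hR'⟩ := hNS.exists_reps (Label (Tbar U.θ)) (fun _ h => h.1)
    (fun _ _ h h' => h.orth h')
  have hM : Tbar U.θ (FM.pi R) := (tc_Tbar hθ).pi R fun i => (hR i).2.1
  have gen : ∀ V : Pres K A, V.E0 (FM.pi R) → ∀ X, Tbar U.θ X → V.E0 X := by
    intro V hV
    refine label_gen hθ V.tc_E0 fun S hS => ?_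
    obtain ⟨i, ⟨e⟩⟩ := hR' S hS
    exact V.tc_E0.quo _ S (e.symm.toLinearMap ∘ₗ LinearMap.proj i)
      (e.symm.surjective.comp (LinearMap.proj_surjective i)) hV
  obtain ⟨V, l, hl, hV, hE, -⟩ := king U (FM.pi R) FM.zero hM (fun L i hi => by
    have : Subsingleton L := hi.subsingleton
    rw [hθ.triv L])
  obtain ⟨N, hN⟩ := exists_tau V
  have hF : Fbar U.θ N := fbar_of_orth hθ N fun X hX g => by
    have := (V.E_eq_zero X).2 (gen V hE X hX)
    rw [← hN, hom, Module.finrank_zero_iff] at this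
    exact Subsingleton.elim _ _
  obtain ⟨V', l', hl', hV', hE', hH'⟩ := king U (FM.pi R) N hM hF
  refine ⟨V', l', hl', hV', gen V' hE' _ ?_⟩
  rw [← Pres.H_eq_zero, Pres.H_eq_hom, hN, Pres.E_eq_zero] at hH'
  exact (Tbar_scale hl hV _).1 (V.E0_tbar hH')

end Pool.Agent.P.MP_a7c6c4_al.H37
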