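import Pool.Agent.P.MP_a7c6c4_al.H37.King

/-! Direct sums of presentations and decomposition into local pieces. -/

set_option autoImplicit false
open Module Function

namespace Pool.Agent.P.MP_a7c6c4_al.H37

variable {K A : Type} [Field K] [Ring A] [Algebra K A]

instance artFM (M : FM K A) : IsArtinian A M := isArtinian_of_tower K inferInstance
instance noethFM (M : FM K A) : IsNoetherian A M := isNoetherian_of_tower K inferInstance

lemma hom_iso {P Q : FM K A} (e : P ≃ₗ[A] Q) (M : FM K A) : hom P M = hom Q M := by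
  refine (LinearEquiv.ofBijective (pre e.toLinearMap M) ⟨?_, ?_⟩).finrank_eq.symm
  · intro a b hab
    ext x
    obtain ⟨y, rfl⟩ := e.surjective x
    exact LinearMap.congr_fun hab y
  · intro g
    exact ⟨g ∘ₗ e.symm.toLinearMap, by ext; simp⟩

lemma hom_compl (P : FM K A) {p q : Submodule A P} (h : IsCompl p q) (M : FM K A) :
    hom P M = hom (P.sub p) M + hom (P.sub q) M := by
  rw [← hom_prod]
  exact (hom_iso (P := (P.sub p).prod (P.sub q)) (Q := P) (Submodule.prodEquivOfIsCompl p q h) M).symm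

namespace Pres

abbrev pi {ι : Type} [Finite ι] (U : ι → Pres K A) : Pres K A where
  P1 := FM.pi fun i => (U i).P1
  P0 := FM.pi fun i => (U i).P0
  d := LinearMap.piMap fun i => (U i).d

lemma θ_pi {ι : Type} [Fintype ι] (U : ι → Pres K A) (M : FM K A) :
    (pi U).θ M = ∑ i, (U i).θ M := by
  simp only [Pres.θ, hom_pi, Finset.sum_sub_distrib]
  push_cast
  rfl

lemma pi_d_single {ι : Type} [Finite ι] [DecidableEq ι] (U : ι → Pres K A) (i : ι) :
    (pi U).d ∘ₗ LinearMap.single A (fun i => (U i).P1) i =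
      LinearMap.single A (fun i => (U i).P0) i ∘ₗ (U i).d := by
  refine LinearMap.ext fun x => funext fun j => ?_
  by_cases h : j = i
  · subst h; simp
  · simp [h]

lemma E0_pi_iff {ι : Type} [Finite ι] (U : ι → Pres K A) (M : FM K A) :
    (pi U).E0 M ↔ ∀ i, (U i).E0 M := by
  classical
  have := Fintype.ofFinite ι
  constructor
  · intro h i k
    obtain ⟨g, hg⟩ := h (k ∘ₗ LinearMap.proj i)
    refine ⟨g ∘ₗ LinearMap.single A (fun i => (U i).P0) i, ?_⟩
    rw [LinearMap.comp_assoc, ← pi_d_single, ← LinearMap.comp_assoc, hg]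
    ext x
    simp
  · intro h k
    choose g hg using fun i => h i (k ∘ₗ LinearMap.single A (fun i => (U i).P1) i)
    refine ⟨LinearMap.lsum A (fun i => (U i).P0) K g, ?_⟩
    refine LinearMap.pi_ext' fun i => ?_
    rw [LinearMap.comp_assoc, pi_d_single, ← LinearMap.comp_assoc, ← hg]
    congr 1
    ext x
    simp [-LinearMap.lsum_apply, LinearMap.lsum_piSingle]

lemma H0_pi_iff {ι : Type} [Finite ι] (U : ι → Pres K A) (M : FM K A) :
    (pi U).H0 M ↔ ∀ i, (U i).H0 M := by
  classical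
  have := Fintype.ofFinite ι
  constructor
  · intro h i k hk
    have h1 := h (k ∘ₗ LinearMap.proj i) (LinearMap.ext fun x => LinearMap.congr_fun hk (x i))
    ext x
    simpa using LinearMap.congr_fun h1 (Pi.single i x)
  · intro h k hk
    refine LinearMap.pi_ext' fun i => ?_
    rw [h i (k ∘ₗ LinearMap.single A (fun i => (U i).P0) i) (by
      rw [LinearMap.comp_assoc, ← pi_d_single, ← LinearMap.comp_assoc, hk, LinearMap.zero_comp]),
      LinearMap.zero_comp]

lemma tc_pi_C {T : FM K A → Prop} (hT : TC T) {ι : Type} [Finite ι] (U : ι → Pres K A)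
    (h : ∀ i, T (U i).C) : T (pi U).C := by
  classical
  have := Fintype.ofFinite ι
  refine hT.of_cover _ (fun i => (U i).C) h (fun i => Submodule.mapQ _ _
    (LinearMap.single A (fun i => (U i).P0) i) ?_) fun L hL => ?_
  · rintro _ ⟨x, rfl⟩
    exact ⟨_, LinearMap.congr_fun (pi_d_single U i) x⟩
  · rw [eq_top_iff]
    intro x _
    obtain ⟨x, rfl⟩ := Submodule.mkQ_surjective _ x
    rw [← Finset.univ_sum_single x, map_sum]
    exact L.sum_mem fun i _ => hL i (Submodule.Quotient.mk (x i))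

/-- Chain-level form of the vanishing of `E(U, C V)`. -/
lemma ez {U V : Pres K A} (h : U.E0 V.C) (u : U.P1 →ₗ[A] V.P0) :
    ∃ (w : U.P0 →ₗ[A] V.P0) (z : U.P1 →ₗ[A] V.P1), u = w ∘ₗ U.d + V.d ∘ₗ z := by
  obtain ⟨g, hg⟩ := h ((LinearMap.range V.d).mkQ ∘ₗ u)
  obtain ⟨w, rfl⟩ := Module.projective_lifting_property (LinearMap.range V.d).mkQ g
    (Submodule.mkQ_surjective _)
  have hm : ∀ x, (u - w ∘ₗ U.d) x ∈ LinearMap.range V.d := fun x => by
    rw [← Submodule.Quotient.mk_eq_zero, ← Submodule.mkQ_apply, LinearMap.sub_apply, map_sub,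
      sub_eq_zero]
    exact (LinearMap.congr_fun hg x).symm
  obtain ⟨z, hz⟩ := Module.projective_lifting_property V.d.rangeRestrict
    (LinearMap.codRestrict _ _ hm) V.d.surjective_rangeRestrict
  refine ⟨w, z, ?_⟩
  ext x
  have := congrArg Subtype.val (LinearMap.congr_fun hz x)
  change V.d (z x) = u x - w (U.d x) at this
  simp [this]

lemma of_ez {U V : Pres K A} (h : ∀ u : U.P1 →ₗ[A] V.P0,
    ∃ (w : U.P0 →ₗ[A] V.P0) (z : U.P1 →ₗ[A] V.P1), u = w ∘ₗ U.d + V.d ∘ₗ z) : U.E0 V.C := by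
  intro k
  obtain ⟨u, rfl⟩ := Module.projective_lifting_property (LinearMap.range V.d).mkQ k
    (Submodule.mkQ_surjective _)
  obtain ⟨w, z, rfl⟩ := h u
  refine ⟨(LinearMap.range V.d).mkQ ∘ₗ w, ?_⟩
  ext x
  have : (LinearMap.range V.d).mkQ (V.d (z x)) = 0 :=
    (Submodule.Quotient.mk_eq_zero _).2 ⟨_, rfl⟩
  change _ = (LinearMap.range V.d).mkQ (w (U.d x) + V.d (z x))
  rw [map_add, this, add_zero]
  rfl

/-- What is retained from being a direct summand. -/
def Sub (X Y : Pres K A) : Prop :=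
  (∀ M, Y.E0 M → X.E0 M) ∧ ∃ p : Y.C →ₗ[A] X.C, Surjective p

lemma Sub.refl (X : Pres K A) : Sub X X := ⟨fun _ h => h, LinearMap.id, surjective_id⟩

lemma Sub.trans {X Y Z : Pres K A} (h : Sub X Y) (h' : Sub Y Z) : Sub X Z := by
  obtain ⟨p, hp⟩ := h.2
  obtain ⟨q, hq⟩ := h'.2
  exact ⟨fun M hM => h.1 M (h'.1 M hM), p ∘ₗ q, hp.comp hq⟩

/-- Every chain endomorphism is nilpotent or invertible. -/
def Loc (T : Pres K A) : Prop :=
  ∀ (e1 : Module.End A T.P1) (e0 : Module.End A T.P0), e0 ∘ₗ T.d = T.d ∘ₗ e1 →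
    (IsNilpotent e1 ∧ IsNilpotent e0) ∨ (Bijective e1 ∧ Bijective e0)

abbrev restrict (Y : Pres K A) {p1 q1 : Submodule A Y.P1} {p0 q0 : Submodule A Y.P0}
    (h1 : IsCompl p1 q1) (h0 : IsCompl p0 q0) (hp : ∀ x ∈ p1, Y.d x ∈ p0) : Pres K A where
  P1 := Y.P1.sub p1
  P0 := Y.P0.sub p0
  p1 := Module.Projective.of_split p1.subtype (p1.projectionOnto q1 h1)
    (Submodule.projectionOnto_comp_subtype h1)
  p0 := Module.Projective.of_split p0.subtype (p0.projectionOnto q0 h0)
    (Submodule.projectionOnto_comp_subtype h0)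
  d := Y.d.restrict hp

lemma restrict_sub (Y : Pres K A) {p1 q1 : Submodule A Y.P1} {p0 q0 : Submodule A Y.P0}
    (h1 : IsCompl p1 q1) (h0 : IsCompl p0 q0) (hp : ∀ x ∈ p1, Y.d x ∈ p0)
    (hq : ∀ x ∈ q1, Y.d x ∈ q0) : Sub (Y.restrict h1 h0 hp) Y := by
  constructor
  · intro M hM h
    obtain ⟨g, hg⟩ := hM (h ∘ₗ p1.projectionOnto q1 h1)
    refine ⟨g ∘ₗ p0.subtype, ?_⟩
    ext x
    simpa using LinearMap.congr_fun hg x
  · refine ⟨Submodule.mapQ _ _ (p0.projectionOnto q0 h0) ?_, ?_⟩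
    · rintro _ ⟨x, rfl⟩
      obtain ⟨a, b, rfl, -⟩ := Submodule.existsUnique_add_of_isCompl h1 x
      refine ⟨a, ?_⟩
      rw [map_add, map_add, Submodule.projectionOnto_apply_of_mem_left h0 (hp _ a.2),
        (Submodule.projectionOnto_apply_eq_zero_iff h0).2 (hq _ b.2), add_zero]
      rfl
    · intro y
      obtain ⟨y, rfl⟩ := Submodule.mkQ_surjective _ y
      obtain ⟨x, rfl⟩ := Submodule.projectionOnto_surjective h0 y
      exact ⟨Submodule.Quotient.mk x, rfl⟩

theorem decompose (Y : Pres K A) : ∃ (ι : Type) (_ : Fintype ι) (T : ι → Pres K A),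
    (∀ i, Loc (T i) ∧ Sub (T i) Y) ∧ ∀ M, Y.θ M = ∑ i, (T i).θ M := by
  suffices H : ∀ n (Y : Pres K A), finrank K Y.P1 + finrank K Y.P0 = n →
      ∃ (ι : Type) (_ : Fintype ι) (T : ι → Pres K A),
      (∀ i, Loc (T i) ∧ Sub (T i) Y) ∧ ∀ M, Y.θ M = ∑ i, (T i).θ M from H _ Y rfl
  intro n
  induction n using Nat.strong_induction_on with
  | _ n ih =>
    intro Y hn
    by_cases hL : Loc Y
    · exact ⟨Unit, inferInstance, fun _ => Y, fun _ => ⟨hL, Sub.refl Y⟩, by simp⟩
    simp only [Loc, not_forall, not_or] at hL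
    obtain ⟨e1, e0, he, hnil, hbij⟩ := hL
    obtain ⟨m, ⟨c1, c0⟩, hm⟩ := (((LinearMap.eventually_isCompl_ker_pow_range_pow e1).and
      (LinearMap.eventually_isCompl_ker_pow_range_pow e0)).and
      (Filter.eventually_ge_atTop 1)).exists
    have hpow : ∀ x, (e0 ^ m) (Y.d x) = Y.d ((e1 ^ m) x) := by
      intro x
      generalize m = k
      induction k with
      | zero => rfl
      | succ k ih =>
        rw [pow_succ', pow_succ', Module.End.mul_apply, Module.End.mul_apply, ih]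
        exact LinearMap.congr_fun he _
    have hp : ∀ x ∈ LinearMap.ker (e1 ^ m), Y.d x ∈ LinearMap.ker (e0 ^ m) := fun x hx => by
      rw [LinearMap.mem_ker] at hx ⊢
      rw [hpow, hx, map_zero]
    have hq : ∀ x ∈ LinearMap.range (e1 ^ m), Y.d x ∈ LinearMap.range (e0 ^ m) := by
      rintro _ ⟨x, rfl⟩
      exact ⟨_, hpow x⟩
    have dim : ∀ (P : FM K A) (p q : Submodule A P), IsCompl p q →
        finrank K P = finrank K p + finrank K q := fun P p q h => by
      rw [← Module.finrank_prod]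
      exact ((Submodule.prodEquivOfIsCompl p q h).restrictScalars K).finrank_eq.symm
    have d1 := dim _ _ _ c1
    have d0 := dim _ _ _ c0
    have zero : ∀ (P : FM K A) (p : Submodule A P), finrank K p = 0 → p = ⊥ := fun P p h =>
      Submodule.subsingleton_iff_eq_bot.1 (Module.finrank_zero_iff.1 h)
    have hk : 0 < finrank K (LinearMap.ker (e1 ^ m)) + finrank K (LinearMap.ker (e0 ^ m)) := by
      by_contra h
      have inj : ∀ (P : FM K A) (e : Module.End A P), LinearMap.ker (e ^ m) = ⊥ → Bijective e := by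
        intro P e h
        have := Module.End.injective_of_iterate_injective (by omega) (LinearMap.ker_eq_bot.1 h)
        exact ⟨this, surj_of_inj_of_finrank_le e this le_rfl⟩
      exact hbij ⟨inj _ _ (zero _ _ (by omega)), inj _ _ (zero _ _ (by omega))⟩
    have hr : 0 < finrank K (LinearMap.range (e1 ^ m)) + finrank K (LinearMap.range (e0 ^ m)) := by
      by_contra h
      exact hnil ⟨⟨m, LinearMap.range_eq_bot.1 (zero _ _ (by omega))⟩,
        ⟨m, LinearMap.range_eq_bot.1 (zero _ _ (by omega))⟩⟩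
    obtain ⟨ι, hι, T, hT, hθ⟩ := ih (finrank K (LinearMap.ker (e1 ^ m)) +
      finrank K (LinearMap.ker (e0 ^ m))) (by omega) (Y.restrict c1 c0 hp) rfl
    obtain ⟨ι', hι', T', hT', hθ'⟩ := ih (finrank K (LinearMap.range (e1 ^ m)) +
      finrank K (LinearMap.range (e0 ^ m))) (by omega) (Y.restrict c1.symm c0.symm hq) rfl
    refine ⟨ι ⊕ ι', inferInstance, Sum.elim T T', ?_, fun M => ?_⟩
    · rintro (i | i)
      · exact ⟨(hT i).1, (hT i).2.trans (Y.restrict_sub c1 c0 hp hq)⟩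
      · exact ⟨(hT' i).1, (hT' i).2.trans (Y.restrict_sub c1.symm c0.symm hq hp)⟩
    · rw [Fintype.sum_sum_type]
      simp only [Sum.elim_inl, Sum.elim_inr]
      rw [← hθ, ← hθ']
      unfold θ
      rw [hom_compl _ c1, hom_compl _ c0]
      push_cast
      ring

lemma θ_eq_of_bij {X Y : Pres K A} (f1 : X.P1 →ₗ[A] Y.P1) (f0 : X.P0 →ₗ[A] Y.P0)
    (h1 : Bijective f1) (h0 : Bijective f0) : X.θ = Y.θ := by
  ext M
  unfold θ
  rw [hom_iso (LinearEquiv.ofBijective f1 h1), hom_iso (LinearEquiv.ofBijective f0 h0)]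

lemma θ_eq_zero_of_bij {X : Pres K A} (h : Bijective X.d) : X.θ = 0 := by
  ext M
  unfold θ
  rw [hom_iso (LinearEquiv.ofBijective X.d h)]
  simp

lemma θ_eq_zero_of_subsingleton {X : Pres K A} [Subsingleton X.P1] [Subsingleton X.P0] :
    X.θ = 0 :=
  θ_eq_zero_of_bij ⟨fun _ _ _ => Subsingleton.elim _ _, fun _ => ⟨0, Subsingleton.elim _ _⟩⟩

/-- The ring of chain endomorphisms. -/
def chEnd (T : Pres K A) : Subring (Module.End A T.P1 × Module.End A T.P0) where
  carrier := {e | e.2 ∘ₗ T.d = T.d ∘ₗ e.1}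
  mul_mem' {a b} ha hb := by
    change (a.2 ∘ₗ b.2) ∘ₗ T.d = T.d ∘ₗ (a.1 ∘ₗ b.1)
    rw [LinearMap.comp_assoc, hb, ← LinearMap.comp_assoc, ha, LinearMap.comp_assoc]
  one_mem' := rfl
  add_mem' {a b} ha hb := by
    change (a.2 + b.2) ∘ₗ T.d = T.d ∘ₗ (a.1 + b.1)
    rw [LinearMap.add_comp, LinearMap.comp_add, ha, hb]
  zero_mem' := by
    change (0 : Module.End A T.P0) ∘ₗ T.d = T.d ∘ₗ (0 : Module.End A T.P1)
    simp
  neg_mem' {a} ha := by
    change (-a.2) ∘ₗ T.d = T.d ∘ₗ (-a.1)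
    rw [LinearMap.neg_comp, LinearMap.comp_neg, ha]

lemma chEnd_unit_iff (T : Pres K A) (e : T.chEnd) :
    IsUnit e ↔ Bijective e.1.1 ∧ Bijective e.1.2 := by
  constructor
  · intro h
    have := h.map T.chEnd.subtype
    exact ⟨(Module.End.isUnit_iff _).1 (this.map (RingHom.fst _ _)),
      (Module.End.isUnit_iff _).1 (this.map (RingHom.snd _ _))⟩
  · rintro ⟨h1, h0⟩
    let a := LinearEquiv.ofBijective e.1.1 h1
    let b := LinearEquiv.ofBijective e.1.2 h0
    have hm : (a.symm.toLinearMap, b.symm.toLinearMap) ∈ T.chEnd := by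
      refine LinearMap.ext fun x => ?_
      obtain ⟨y, rfl⟩ := a.surjective x
      change b.symm (T.d (a y)) = T.d (a.symm (a y))
      rw [a.symm_apply_apply, LinearEquiv.symm_apply_eq]
      exact (LinearMap.congr_fun e.2 y).symm
    exact ⟨⟨e, ⟨_, hm⟩,
      Subtype.ext (Prod.ext (LinearMap.ext a.apply_symm_apply) (LinearMap.ext b.apply_symm_apply)),
      Subtype.ext (Prod.ext (LinearMap.ext a.symm_apply_apply) (LinearMap.ext b.symm_apply_apply))⟩,
      rfl⟩

lemma Loc.isLocalRing {T : Pres K A} (h : Loc T) (h0 : T.θ ≠ 0) : IsLocalRing T.chEnd := by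
  have : Nontrivial T.chEnd := by
    refine ⟨1, 0, fun h1 => h0 ?_⟩
    have a : Subsingleton T.P1 := ⟨fun x y =>
      (LinearMap.congr_fun (congrArg (fun e : T.chEnd => e.1.1) h1) x).trans
        (LinearMap.congr_fun (congrArg (fun e : T.chEnd => e.1.1) h1) y).symm⟩
    have b : Subsingleton T.P0 := ⟨fun x y =>
      (LinearMap.congr_fun (congrArg (fun e : T.chEnd => e.1.2) h1) x).trans
        (LinearMap.congr_fun (congrArg (fun e : T.chEnd => e.1.2) h1) y).symm⟩
    exact θ_eq_zero_of_subsingleton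
  refine IsLocalRing.of_isUnit_or_isUnit_one_sub_self fun e => ?_
  rcases h e.1.1 e.1.2 e.2 with ⟨h1, h2⟩ | h1
  · right
    rw [chEnd_unit_iff]
    exact ⟨(Module.End.isUnit_iff _).1 h1.isUnit_one_sub,
      (Module.End.isUnit_iff _).1 h2.isUnit_one_sub⟩
  · exact Or.inl ((chEnd_unit_iff T e).2 h1)

end Pres

end Pool.Agent.P.MP_a7c6c4_al.H37
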