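import Pool.Agent.P.MP_a7c6c4_al.H37.Reg

/-! Shrunk subspaces versus blow-ups, over an arbitrary field. -/

set_option autoImplicit false
open Module Function

namespace Pool.Agent.P.MP_a7c6c4_al.H37

variable {K Φ V W : Type} [Field K] [AddCommGroup Φ] [Module K Φ] [AddCommGroup V] [Module K V]
  [AddCommGroup W] [Module K W] (β : Φ →ₗ[K] V →ₗ[K] W)

def blow {D J : Type} [Fintype J] (F : D → J → Φ) : (J → V) →ₗ[K] (D → W) where
  toFun v i := ∑ j, β (F i j) (v j)
  map_add' a b := by ext i; simp [Finset.sum_add_distrib]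
  map_smul' a b := by ext i; simp [Finset.smul_sum]

lemma blow_apply {D J : Type} [Fintype J] (F : D → J → Φ) (v : J → V) (i : D) :
    blow β F v i = ∑ j, β (F i j) (v j) := rfl

noncomputable def nul {D : Type} [Fintype D] (F : D → D → Φ) : ℕ :=
  finrank K (LinearMap.ker (blow β F))

def block {D J : Type} (F : J → J → Φ) (r : D → J → Φ) (B : D → D → Φ) : J ⊕ D → J ⊕ D → Φ :=
  Sum.elim (fun j => Sum.elim (F j) 0) (fun i => Sum.elim (r i) (B i))

lemma mem_ker_block {D J : Type} [Fintype D] [Fintype J] (F : J → J → Φ) (r : D → J → Φ)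
    (B : D → D → Φ) (x : J ⊕ D → V) : x ∈ LinearMap.ker (blow β (block F r B)) ↔
      blow β F (x ∘ Sum.inl) = 0 ∧ blow β r (x ∘ Sum.inl) + blow β B (x ∘ Sum.inr) = 0 := by
  rw [LinearMap.mem_ker, funext_iff, funext_iff, funext_iff, Sum.forall]
  simp [blow_apply, block, Fintype.sum_sum_type]

variable [FiniteDimensional K V] [FiniteDimensional K W]

omit [FiniteDimensional K W] in
lemma nul_block {D J : Type} [Fintype D] [Fintype J] (F : J → J → Φ) (r : D → J → Φ)
    (B : D → D → Φ) : nul β (block F r B) ≤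
      finrank K (LinearMap.ker (blow β F) ⊓ (LinearMap.range (blow β B)).comap (blow β r) :
        Submodule K (J → V)) + nul β B := by
  let g : LinearMap.ker (blow β (block F r B)) →ₗ[K] (J → V) :=
    LinearMap.funLeft K V Sum.inl ∘ₗ Submodule.subtype _
  have h1 := LinearMap.finrank_range_add_finrank_ker g
  have h2 : LinearMap.range g ≤
      LinearMap.ker (blow β F) ⊓ (LinearMap.range (blow β B)).comap (blow β r) := by
    rintro _ ⟨x, rfl⟩
    obtain ⟨a, b⟩ := (mem_ker_block β F r B x.1).1 x.2
    refine ⟨a, -(x.1 ∘ Sum.inr), ?_⟩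
    rw [map_neg]
    exact neg_eq_of_add_eq_zero_left b
  have h3 : finrank K (LinearMap.ker g) ≤ nul β B := by
    refine LinearMap.finrank_le_finrank_of_injective (f := LinearMap.codRestrict _
      (LinearMap.funLeft K V Sum.inr ∘ₗ Submodule.subtype _ ∘ₗ (LinearMap.ker g).subtype) ?_) ?_
    · intro x
      obtain ⟨-, b⟩ := (mem_ker_block β F r B x.1.1).1 x.1.2
      have h0 : x.1.1 ∘ Sum.inl = 0 := x.2
      rw [h0, map_zero, zero_add] at b
      exact b
    · intro x y hxy
      have h0 : x.1.1 ∘ Sum.inl = 0 := x.2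
      have h0' : y.1.1 ∘ Sum.inl = 0 := y.2
      have h4 : x.1.1 ∘ Sum.inr = y.1.1 ∘ Sum.inr := congrArg Subtype.val hxy
      ext (j | i)
      · exact (congrFun h0 j).trans (congrFun h0' j).symm
      · exact congrFun h4 i
  have h4 := Submodule.finrank_mono h2
  unfold nul at *
  omega

/-- The vectors reached from `u` by one more row. -/
def reach {J : Type} [Fintype J] (u : J → V) : (J → Φ) →ₗ[K] W where
  toFun r := ∑ j, β (r j) (u j)
  map_add' a b := by simp [Finset.sum_add_distrib]
  map_smul' a b := by simp [Finset.smul_sum]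

theorem wong (n : ℕ) (hmin : ∀ (D : Type) [Fintype D] (F : D → D → Φ), n * Fintype.card D ≤ nul β F)
    (D : Type) [Fintype D] [Nonempty D] (B : D → D → Φ) (hB : nul β B ≤ n * Fintype.card D) :
    ∃ (V' : Submodule K V) (R : Submodule K W), (∀ φ, ∀ v ∈ V', β φ v ∈ R) ∧
      finrank K R + n ≤ finrank K V' := by
  classical
  have hex : ∃ t, ∃ (J : Type) (_ : Fintype J) (F : J → J → Φ) (u : J → V),
      nul β F ≤ n * Fintype.card J ∧ blow β F u = 0 ∧
      finrank K (LinearMap.range (reach β u)) + t = finrank K W := by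
    refine ⟨finrank K W - finrank K (LinearMap.range (reach β (0 : D → V))), D, inferInstance, B,
      0, hB, map_zero _, ?_⟩
    have := Submodule.finrank_le (LinearMap.range (reach β (0 : D → V)))
    omega
  obtain ⟨J, hJ, F, u, hF, hu, ht⟩ := Nat.find_spec hex
  set R := LinearMap.range (reach β u) with hR
  have hrow : ∀ w : D → W, (∀ i, w i ∈ R) → ∃ r : D → J → Φ, blow β r u = w := by
    intro w hw
    choose r hr using hw
    exact ⟨r, funext hr⟩
  have c1 : ∀ w : D → W, (∀ i, w i ∈ R) → w ∈ LinearMap.range (blow β B) := by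
    intro w hw
    obtain ⟨r, rfl⟩ := hrow w hw
    by_contra hn
    have h1 := nul_block β F r B
    have h2 : LinearMap.ker (blow β F) ⊓ (LinearMap.range (blow β B)).comap (blow β r) <
        LinearMap.ker (blow β F) := by
      refine lt_of_le_of_ne inf_le_left fun h => hn ?_
      have : u ∈ LinearMap.ker (blow β F) := hu
      rw [← h] at this
      exact this.2
    have h3 := Submodule.finrank_lt_finrank_of_lt h2
    have h4 := hmin _ (block F r B)
    rw [Fintype.card_sum, mul_add] at h4
    unfold nul at *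
    omega
  have c2 : ∀ v : D → V, (∀ i, blow β B v i ∈ R) → ∀ j φ, β φ (v j) ∈ R := by
    intro v hv j φ
    obtain ⟨r, hr⟩ := hrow (-blow β B v) (fun i => R.neg_mem (hv i))
    have h1 := nul_block β F r B
    have h2 := Submodule.finrank_mono (inf_le_left : LinearMap.ker (blow β F) ⊓
      (LinearMap.range (blow β B)).comap (blow β r) ≤ _)
    have h3 : R ≤ LinearMap.range (reach β (Sum.elim u v)) := by
      rintro _ ⟨ρ, rfl⟩
      exact ⟨Sum.elim ρ 0, by simp [reach, Fintype.sum_sum_type]⟩
    have h4 := Submodule.finrank_le (LinearMap.range (reach β (Sum.elim u v)))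
    have h5 := Nat.find_min' hex (m := finrank K W -
      finrank K (LinearMap.range (reach β (Sum.elim u v)))) ⟨J ⊕ D, inferInstance, block F r B,
        Sum.elim u v, by
          rw [Fintype.card_sum, mul_add]
          unfold nul at *
          omega, (mem_ker_block β F r B _).2 ⟨hu, by
            rw [Sum.elim_comp_inl, Sum.elim_comp_inr, hr, neg_add_cancel]⟩, by omega⟩
    rw [Submodule.eq_of_le_of_finrank_le h3 (by omega)]
    refine ⟨Sum.elim 0 (Pi.single j φ), ?_⟩
    simp only [reach, LinearMap.coe_mk, AddHom.coe_mk, Fintype.sum_sum_type, Sum.elim_inl,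
      Sum.elim_inr, Pi.zero_apply, map_zero, LinearMap.zero_apply, Finset.sum_const_zero, zero_add]
    rw [Finset.sum_eq_single j (fun b _ hb => by simp [hb]) (by simp)]
    simp
  set V' : Submodule K V := ⨅ φ, R.comap (β φ) with hV'
  have hV : ∀ φ, ∀ v ∈ V', β φ v ∈ R := fun φ v hv => (Submodule.mem_iInf _).1 hv φ
  refine ⟨V', R, hV, ?_⟩
  let B' : (D → V') →ₗ[K] (D → R) :=
    { toFun := fun v i => ⟨blow β B (fun j => v j) i,
        R.sum_mem fun j _ => hV _ _ (v j).2⟩
      map_add' := fun a b => by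
        ext i
        simp [blow_apply, Finset.sum_add_distrib]
      map_smul' := fun a b => by
        ext i
        simp [blow_apply, Finset.smul_sum] }
  have hs : Surjective B' := by
    intro ρ
    obtain ⟨v, hv⟩ := c1 (fun i => ρ i) (fun i => (ρ i).2)
    have := c2 v (fun i => by rw [hv]; exact (ρ i).2)
    refine ⟨fun j => ⟨v j, (Submodule.mem_iInf _).2 (this j)⟩, ?_⟩
    ext i
    exact congrFun hv i
  have hk : nul β B ≤ finrank K (LinearMap.ker B') := by
    have hmem : ∀ v : LinearMap.ker (blow β B), ∀ j, v.1 j ∈ V' := fun v j =>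
      (Submodule.mem_iInf _).2 (c2 v.1 (fun i => by rw [v.2]; exact R.zero_mem) j)
    refine LinearMap.finrank_le_finrank_of_injective (f :=
      { toFun := fun v => ⟨fun j => ⟨v.1 j, hmem v j⟩, ?_⟩
        map_add' := fun _ _ => rfl
        map_smul' := fun _ _ => rfl }) ?_
    · ext i
      exact congrFun v.2 i
    · intro a b hab
      ext j
      exact congrArg Subtype.val (congrFun (congrArg Subtype.val hab) j)
  have h1 := LinearMap.finrank_range_add_finrank_ker B'
  rw [LinearMap.range_eq_top.2 hs, finrank_top, Module.finrank_pi_fintype,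
    Module.finrank_pi_fintype, Finset.sum_const, Finset.sum_const, Finset.card_univ,
    smul_eq_mul, smul_eq_mul] at h1
  have h2 := hmin D B
  have h3 : 0 < Fintype.card D := Fintype.card_pos
  refine Nat.le_of_mul_le_mul_left ?_ h3
  nlinarith

lemma nul_add_rank {α γ : Type} [Fintype α] [Fintype γ] [DecidableEq α] (bV : Basis α K V)
    (bW : Basis γ K W) {D : Type} [Fintype D] (F : D → D → Φ) :
    nul β F + (Zmat ((LinearMap.toMatrix bV bW).toLinearMap ∘ₗ β) F).rank =
      Fintype.card D * Fintype.card α := by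
  classical
  let cV := (Pi.basis fun _ : D => bV).reindex (Equiv.sigmaEquivProd D α)
  let cW := (Pi.basis fun _ : D => bW).reindex (Equiv.sigmaEquivProd D γ)
  have h : Zmat ((LinearMap.toMatrix bV bW).toLinearMap ∘ₗ β) F =
      LinearMap.toMatrix cV cW (blow β F) := by
    ext x y
    simp only [Zmat, Matrix.of_apply, LinearMap.comp_apply, LinearEquiv.coe_coe,
      LinearMap.toMatrix_apply, cV, cW, Basis.repr_reindex_apply, Basis.reindex_apply,
      Equiv.sigmaEquivProd_symm_apply, Pi.basis_apply, Pi.basis_repr, blow_apply]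
    rw [Finset.sum_eq_single y.1 (fun b _ hb => by simp [hb]) (by simp)]
    simp
  rw [h, Matrix.rank_eq_finrank_range_toLin _ cW cV, Matrix.toLin_toMatrix, add_comm]
  have := LinearMap.finrank_range_add_finrank_ker (blow β F)
  rw [finrank_eq_card_basis cV, Fintype.card_prod] at this
  exact this

theorem nc_main (c : ℕ) (hc : ∀ (V' : Submodule K V) (R : Submodule K W),
    (∀ φ, ∀ v ∈ V', β φ v ∈ R) → finrank K V' ≤ finrank K R + c) :
    ∃ (D : Type) (_ : Fintype D) (_ : Nonempty D) (F : D → D → Φ),
      nul β F ≤ c * Fintype.card D := by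
  classical
  have hex : ∃ n, ∃ (D : Type) (_ : Fintype D) (_ : Nonempty D) (F : D → D → Φ),
      nul β F ≤ n * Fintype.card D :=
    ⟨nul β (fun _ _ : Unit => (0 : Φ)), Unit, inferInstance, inferInstance, fun _ _ => 0, by simp⟩
  obtain ⟨D, hD, hD', B, hB⟩ := Nat.find_spec hex
  have hmin : ∀ (D : Type) [Fintype D] (F : D → D → Φ),
      Nat.find hex * Fintype.card D ≤ nul β F := by
    intro D _ F
    rcases isEmpty_or_nonempty D with h | h
    · simp
    have : NeZero (Fintype.card D) := ⟨Fintype.card_ne_zero⟩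
    let e : ZMod (Fintype.card D) ≃ D := Fintype.equivOfCardEq (ZMod.card _)
    let bV := Module.finBasis K V
    let bW := Module.finBasis K W
    obtain ⟨m, ι, hι, hι', F', h1, h2⟩ := regularity
      ((LinearMap.toMatrix bV bW).toLinearMap ∘ₗ β) (Fintype.card D) (fun i j => F (e i) (e j))
    have h3 : (Zmat ((LinearMap.toMatrix bV bW).toLinearMap ∘ₗ β) (fun i j => F (e i) (e j))).rank
        = (Zmat ((LinearMap.toMatrix bV bW).toLinearMap ∘ₗ β) F).rank :=
      Matrix.rank_submatrix (Zmat ((LinearMap.toMatrix bV bW).toLinearMap ∘ₗ β) F)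
        (e.prodCongr (Equiv.refl _)) (e.prodCongr (Equiv.refl _))
    have h4 := nul_add_rank β bV bW F
    have h5 := nul_add_rank β bV bW F'
    rw [Fintype.card_prod, ZMod.card] at h5
    have h6 := Nat.find_min' hex (m := m) ⟨_, inferInstance, inferInstance, F', by
      rw [Fintype.card_prod, ZMod.card]
      omega⟩
    have h7 := Nat.mul_le_mul_right (Fintype.card D) h6
    omega
  obtain ⟨V', R, h1, h2⟩ := wong β _ hmin D B hB
  have h3 := hc V' R h1
  exact ⟨D, hD, hD', B, hB.trans (Nat.mul_le_mul_right _ (by omega))⟩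

end Pool.Agent.P.MP_a7c6c4_al.H37
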