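import Mathlib

/-! Regularity of blow-ups of matrix spaces over an arbitrary field. -/

set_option autoImplicit false
open Module Function

namespace Pool.Agent.P.MP_a7c6c4_al.H37

section minors
variable {R C : Type} [Fintype R] [Fintype C]

lemma exists_minor {F : Type} [Field F] (Z : Matrix R C F) :
    ∃ (p : Fin Z.rank → R) (q : Fin Z.rank → C), (Z.submatrix p q).det ≠ 0 := by
  classical
  obtain ⟨κ, a, ha, hsp, hli⟩ := exists_linearIndependent' F Z.col
  have : Finite κ := Finite.of_injective a ha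
  have := Fintype.ofFinite κ
  have h1 : Fintype.card κ = Z.rank := by
    rw [Matrix.rank_eq_finrank_span_cols, ← hsp, finrank_span_eq_card hli]
  set Z1 : Matrix R κ F := Z.submatrix id a with hZ1
  have h2 : Z1.rank = Z.rank := by
    rw [Matrix.rank_eq_finrank_span_cols, Matrix.rank_eq_finrank_span_cols, ← hsp]
    rfl
  obtain ⟨κ', a', ha', hsp', hli'⟩ := exists_linearIndependent' F Z1.row
  have : Finite κ' := Finite.of_injective a' ha'
  have := Fintype.ofFinite κ'
  have h3 : Fintype.card κ' = Z.rank := by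
    rw [← h2, Matrix.rank_eq_finrank_span_row, ← hsp', finrank_span_eq_card hli']
  let e : Fin Z.rank ≃ κ := (Fintype.equivFinOfCardEq h1).symm
  let e' : Fin Z.rank ≃ κ' := (Fintype.equivFinOfCardEq h3).symm
  refine ⟨a' ∘ e', a ∘ e, ?_⟩
  have h4 : LinearIndependent F (Z.submatrix (a' ∘ e') (a ∘ e)).row := by
    have h5 := (hli'.comp e' e'.injective).map' (LinearEquiv.funCongrLeft F F e).toLinearMap
      (LinearEquiv.ker _)
    exact h5
  rw [Matrix.linearIndependent_rows_iff_isUnit, Matrix.isUnit_iff_isUnit_det] at h4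
  exact h4.ne_zero

lemma rank_spec {O F : Type} [CommRing O] [Field F] (Z : Matrix R C O) (f : O →+* F) :
    ∃ δ : O, f δ ≠ 0 ∧ ∀ (F' : Type) [Field F'] (g : O →+* F'), g δ ≠ 0 →
      (Z.map f).rank ≤ (Z.map g).rank := by
  obtain ⟨p, q, h⟩ := exists_minor (Z.map f)
  refine ⟨(Z.submatrix p q).det, ?_, fun F' _ g hg => ?_⟩
  · rw [RingHom.map_det]
    exact h
  · rw [RingHom.map_det] at hg
    have := Matrix.rank_of_det_ne_zero hg
    rw [Fintype.card_fin] at this
    rw [← this]
    exact Matrix.rank_submatrix_le (Z.map g) p q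

lemma rank_restrict {K K1 ι : Type} [Field K] [Field K1] [Algebra K K1] [Fintype ι]
    [DecidableEq ι] (e : Basis ι K K1) (Z : Matrix R C K1) :
    (Matrix.of fun (x : R × ι) (y : C × ι) =>
      Algebra.leftMulMatrix e (Z x.1 y.1) x.2 y.2).rank = Fintype.card ι * Z.rank := by
  classical
  rw [Matrix.rank_eq_finrank_range_toLin _ (e.smulTower' (Pi.basisFun K1 R))
    (e.smulTower' (Pi.basisFun K1 C))]
  have h : Matrix.toLin (e.smulTower' (Pi.basisFun K1 C)) (e.smulTower' (Pi.basisFun K1 R))
      (Matrix.of fun (x : R × ι) (y : C × ι) => Algebra.leftMulMatrix e (Z x.1 y.1) x.2 y.2) =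
      Z.mulVecLin.restrictScalars K := by
    rw [← Matrix.toLin_toMatrix (e.smulTower' (Pi.basisFun K1 C))
      (e.smulTower' (Pi.basisFun K1 R)) (Z.mulVecLin.restrictScalars K)]
    congr 1
    ext x y
    rw [LinearMap.toMatrix_apply, Basis.smulTower'_repr, Basis.smulTower'_apply, Matrix.of_apply,
      Algebra.leftMulMatrix_eq_repr_mul]
    simp [mul_comm]
  rw [h, LinearMap.range_restrictScalars, ← finrank_eq_card_basis e, Matrix.rank,
    Module.finrank_mul_finrank]
  rfl

end minors

/-- A semilinear operator whose `d`-th power is a scalar of degree one forces `d ∣ dim`. -/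
lemma dvd_finrank {L N : Type} [Field L] [AddCommGroup N] [Module L N] [FiniteDimensional L N]
    (σ : L →+* L) (deg : L → ℤ) (hmul : ∀ a b, a ≠ 0 → b ≠ 0 → deg (a * b) = deg a + deg b)
    (hσ : ∀ a, deg (σ a) = deg a) (s : L) (hs0 : s ≠ 0) (hs : deg s = 1) (d : ℕ)
    (S : N →ₛₗ[σ] N) (hS : ∀ v, S^[d] v = s • v) : d ∣ finrank L N := by
  classical
  set b := Module.finBasis L N
  let T : ℕ → Matrix (Fin (finrank L N)) (Fin (finrank L N)) L :=
    fun t => Matrix.of fun k l => b.repr (S^[t] (b l)) k
  have hT : ∀ t, T (t + 1) = T 1 * (T t).map σ := by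
    intro t
    ext k l
    simp only [T, Matrix.of_apply, Matrix.mul_apply, Matrix.map_apply, iterate_succ_apply',
      iterate_zero, id]
    conv_lhs => rw [← b.sum_repr (S^[t] (b l)), map_sum, map_sum]
    simp [mul_comm]
  have h1 : deg 1 = 0 := by
    have := hmul 1 1 one_ne_zero one_ne_zero
    rw [mul_one] at this
    omega
  have hpow : ∀ n : ℕ, deg (s ^ n) = n := by
    intro n
    induction n with
    | zero => simpa using h1
    | succ n ih => rw [pow_succ, hmul _ _ (pow_ne_zero _ hs0) hs0, ih, hs]; push_cast; ring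
  have hdet : ∀ t : ℕ, (T t).det ≠ 0 → deg (T t).det = t * deg (T 1).det := by
    intro t
    induction t with
    | zero =>
      intro _
      have : T 0 = 1 := by
        ext k l
        simp [T, Matrix.one_apply, Finsupp.single_apply, eq_comm]
      rw [this, Matrix.det_one, h1]
      simp
    | succ t ih =>
      intro h
      have e : ((T t).map σ).det = σ (T t).det := (RingHom.map_det σ _).symm
      rw [hT, Matrix.det_mul, e] at h ⊢
      have ha := left_ne_zero_of_mul h
      have hb := right_ne_zero_of_mul h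
      rw [hmul _ _ ha hb, hσ, ih (fun h0 => hb (by rw [h0, map_zero]))]
      push_cast
      ring
  have hd : T d = s • (1 : Matrix _ _ L) := by
    ext k l
    simp [T, hS, Matrix.one_apply, Finsupp.single_apply, eq_comm]
  have hd2 : (T d).det = s ^ finrank L N := by
    rw [hd, Matrix.det_smul, Matrix.det_one, mul_one, Fintype.card_fin]
  have := hdet d (by rw [hd2]; exact pow_ne_zero _ hs0)
  rw [hd2, hpow] at this
  exact Int.natCast_dvd_natCast.1 ⟨_, this⟩

/-- The degree function on rational functions. -/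
lemma exists_deg (K D : Type) [Field K] :
    ∃ deg : FractionRing (MvPolynomial D K) → ℤ,
      (∀ a b, a ≠ 0 → b ≠ 0 → deg (a * b) = deg a + deg b) ∧
      (∀ p : MvPolynomial D K, p ≠ 0 → deg (algebraMap _ _ p) = p.totalDegree) := by
  have hex : ∀ a : FractionRing (MvPolynomial D K), ∃ p q : MvPolynomial D K, q ≠ 0 ∧
      a * algebraMap _ _ q = algebraMap _ _ p := by
    intro a
    obtain ⟨p, q, hq, rfl⟩ := IsFractionRing.div_surjective (A := MvPolynomial D K) a
    have hq' := nonZeroDivisors.ne_zero hq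
    exact ⟨p, q, hq', div_mul_cancel₀ _ (by simpa using hq')⟩
  choose p q hq h using hex
  have hinj := IsFractionRing.injective (MvPolynomial D K) (FractionRing (MvPolynomial D K))
  have key : ∀ a, a ≠ 0 → ∀ p' q' : MvPolynomial D K, q' ≠ 0 →
      a * algebraMap _ _ q' = algebraMap _ _ p' →
      ((p a).totalDegree : ℤ) - (q a).totalDegree = p'.totalDegree - q'.totalDegree := by
    intro a ha p' q' hq' h'
    have hp : p a ≠ 0 := by
      intro h0
      have := h a
      rw [h0, map_zero] at this
      exact mul_ne_zero ha (by simpa using hq a) this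
    have hp' : p' ≠ 0 := by
      intro h0
      rw [h0, map_zero] at h'
      exact mul_ne_zero ha (by simpa using hq') h'
    have e : p a * q' = p' * q a := by
      apply hinj
      rw [map_mul, map_mul, ← h', ← h a]
      ring
    have := congrArg MvPolynomial.totalDegree e
    rw [MvPolynomial.totalDegree_mul_of_isDomain hp hq',
      MvPolynomial.totalDegree_mul_of_isDomain hp' (hq a)] at this
    omega
  refine ⟨fun a => ((p a).totalDegree : ℤ) - (q a).totalDegree, fun a b ha hb => ?_,
    fun r hr => ?_⟩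
  · have hp : ∀ a, a ≠ 0 → p a ≠ 0 := by
      intro a ha h0
      have := h a
      rw [h0, map_zero] at this
      exact mul_ne_zero ha (by simpa using hq a) this
    beta_reduce
    rw [key (a * b) (mul_ne_zero ha hb) (p a * p b) (q a * q b) (mul_ne_zero (hq a) (hq b)) (by
      rw [map_mul, map_mul, ← h a, ← h b]; ring),
      MvPolynomial.totalDegree_mul_of_isDomain (hp a ha) (hp b hb),
      MvPolynomial.totalDegree_mul_of_isDomain (hq a) (hq b)]
    push_cast
    ring
  · beta_reduce
    rw [key _ (by simpa using hr) r 1 one_ne_zero (by simp)]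
    simp

lemma val_add_one {d : ℕ} [NeZero d] (i : ZMod d) :
    (i + 1).val = if i.val + 1 = d then 0 else i.val + 1 := by
  have h := ZMod.val_lt i
  rw [ZMod.val_add, ZMod.val_one_eq_one_mod, Nat.add_mod_mod]
  split_ifs with h1
  · rw [h1, Nat.mod_self]
  · exact Nat.mod_eq_of_lt (by omega)

lemma twist {d : ℕ} [NeZero d] {O : Type} [CommRing O] (s : O) (i j : ZMod d) :
    (if (i + 1).val < (j + 1).val then s else 1) * (if j + 1 = 0 then s else 1) =
      (if i + 1 = 0 then s else 1) * (if i.val < j.val then s else 1) := by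
  have hi := ZMod.val_lt i
  have hj := ZMod.val_lt j
  simp only [← ZMod.val_eq_zero (j + 1), ← ZMod.val_eq_zero (i + 1), val_add_one]
  split_ifs <;> first | omega | contradiction | simp

/-- The matrix of a blow-up. -/
def Zmat {K Φ α γ : Type} [Field K] [AddCommGroup Φ] [Module K Φ] (μ : Φ →ₗ[K] Matrix γ α K)
    {D : Type} (F : D → D → Φ) : Matrix (D × γ) (D × α) K :=
  Matrix.of fun x y => μ (F x.1 y.1) x.2 y.2

abbrev OO (K : Type) [Field K] (d : ℕ) : Type := MvPolynomial (ZMod d) K
abbrev LL (K : Type) [Field K] (d : ℕ) : Type := FractionRing (MvPolynomial (ZMod d) K)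

open MvPolynomial in
theorem regularity {K Φ α γ : Type} [Field K] [AddCommGroup Φ] [Module K Φ] [Fintype α]
    [Fintype γ] (μ : Φ →ₗ[K] Matrix γ α K) (d : ℕ) [NeZero d] (F : ZMod d → ZMod d → Φ) :
    ∃ (m : ℕ) (ι : Type) (_ : Fintype ι) (_ : Nonempty ι) (F' : ZMod d × ι → ZMod d × ι → Φ),
      m * d + (Zmat μ F).rank ≤ d * Fintype.card α ∧
      d * Fintype.card ι * Fintype.card α ≤ (Zmat μ F').rank + m * (d * Fintype.card ι) := by
  classical
  let s : (OO K d) := ∑ m, X m
  let ε : ZMod d → ZMod d → (OO K d) := fun i j => if i.val < j.val then s else 1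
  let c : ZMod d → (OO K d) := fun j => if j = 0 then s else 1
  let Z : Matrix (ZMod d × γ) (ZMod d × α) (OO K d) := Matrix.of fun x y =>
    ∑ m, ε x.1 y.1 * X m * C (μ (F (x.1 + m) (y.1 + m)) x.2 y.2)
  let ev : (OO K d) →+* K := MvPolynomial.eval (fun m => if m = 0 then 1 else 0)
  have hevs : ev s = 1 := by simp [ev, s]
  have hs0 : s ≠ 0 := fun h => by rw [h, map_zero] at hevs; exact zero_ne_one hevs
  have hZev : Z.map ev = Zmat μ F := by
    ext x y
    have : ev (ε x.1 y.1) = 1 := by
      simp only [ε]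
      split_ifs
      · exact hevs
      · exact map_one _
    simp only [Z, Matrix.map_apply, Matrix.of_apply, map_sum, map_mul, this, one_mul, Zmat]
    simp [ev]
  let σO : (OO K d) ≃ₐ[K] (OO K d) := renameEquiv K (Equiv.subRight (1 : ZMod d))
  have hσX : ∀ m, σO (X m) = X (m - 1) := fun m => by simp [σO]
  have hσC : ∀ k, σO (C k) = C k := fun m => by simp [σO]
  have hσs : σO s = s := by
    simp only [s, map_sum, hσX]
    exact Equiv.sum_comp (Equiv.subRight (1 : ZMod d)) (fun m => (X m : (OO K d)))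
  have hσc : ∀ j, σO (c j) = c j := fun j => by
    simp only [c]
    split_ifs
    · exact hσs
    · exact map_one _
  have hσε : ∀ i j, σO (ε i j) = ε i j := fun i j => by
    simp only [ε]
    split_ifs
    · exact hσs
    · exact map_one _
  have hZ : ∀ i j k l, Z (i + 1, k) (j + 1, l) * c (j + 1) = c (i + 1) * σO (Z (i, k) (j, l)) := by
    intro i j k l
    simp only [Z, Matrix.of_apply, map_sum, map_mul, hσX, hσC, hσε, Finset.sum_mul,
      Finset.mul_sum]
    rw [← Equiv.sum_comp (Equiv.subRight (1 : ZMod d))]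
    refine Finset.sum_congr rfl fun m _ => ?_
    have h1 : ε (i + 1) (j + 1) * c (j + 1) = c (i + 1) * ε i j := twist s i j
    simp only [Equiv.subRight_apply, add_add_sub_cancel]
    linear_combination (X (m - 1) * C (μ (F (i + m) (j + m)) k l)) * h1
  let σ : (LL K d) →+* (LL K d) := (IsFractionRing.ringEquivOfRingEquiv (K := LL K d) (L := LL K d) σO.toRingEquiv)
  have hσ : ∀ p : (OO K d), σ (algebraMap (OO K d) (LL K d) p) = algebraMap (OO K d) (LL K d) (σO p) := fun p =>
    IsFractionRing.ringEquivOfRingEquiv_algebraMap _ p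
  have hinj := IsFractionRing.injective (OO K d) (LL K d)
  obtain ⟨deg, hmul, hdeg⟩ := exists_deg K (ZMod d)
  have hdegσ : ∀ a, deg (σ a) = deg a := by
    intro a
    by_cases ha : a = 0
    · rw [ha, map_zero]
    obtain ⟨p, q, hq, rfl⟩ := IsFractionRing.div_surjective (A := (OO K d)) a
    have hq' := nonZeroDivisors.ne_zero hq
    have hq2 : algebraMap (OO K d) (LL K d) q ≠ 0 := by simpa using hq'
    have hp : p ≠ 0 := fun h => ha (by rw [h, map_zero, zero_div])
    have e1 := hmul _ _ ha hq2
    have e2 := hmul _ _ ((map_ne_zero σ).2 ha) ((map_ne_zero σ).2 hq2)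
    rw [← map_mul, div_mul_cancel₀ _ hq2, hσ, hσ, hdeg _ (by simpa using hp),
      hdeg _ (by simpa using hq'), totalDegree_renameEquiv, totalDegree_renameEquiv] at e2
    rw [div_mul_cancel₀ _ hq2, hdeg _ hp, hdeg _ hq'] at e1
    omega
  have hdegs : deg (algebraMap (OO K d) (LL K d) s) = 1 := by
    rw [hdeg _ hs0]
    have : s.IsHomogeneous 1 := IsHomogeneous.sum _ _ _ fun m _ => isHomogeneous_X K m
    rw [this.totalDegree hs0]
    rfl
  set ZL := Z.map (algebraMap (OO K d) (LL K d)) with hZL
  let S0 : (ZMod d × α → (LL K d)) →ₛₗ[σ] (ZMod d × α → (LL K d)) :=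
    { toFun := fun v y => algebraMap (OO K d) (LL K d) (c y.1) * σ (v (y.1 - 1, y.2))
      map_add' := fun a b => by ext y; simp [mul_add]
      map_smul' := fun a b => by ext y; simp [mul_left_comm] }
  have hS0 : ∀ v y, S0 v y = algebraMap (OO K d) (LL K d) (c y.1) * σ (v (y.1 - 1, y.2)) := fun _ _ => rfl
  have hker : ∀ v ∈ LinearMap.ker ZL.mulVecLin, S0 v ∈ LinearMap.ker ZL.mulVecLin := by
    intro v hv
    rw [LinearMap.mem_ker, Matrix.mulVecLin_apply] at hv ⊢
    ext ⟨i, k⟩
    obtain ⟨i, rfl⟩ := (Equiv.addRight (1 : ZMod d)).surjective i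
    have h1 := congrArg σ (congrFun hv (i, k))
    simp only [Matrix.mulVec, dotProduct, map_sum, map_mul, Pi.zero_apply, map_zero, hZL,
      Matrix.map_apply, hσ] at h1 ⊢
    rw [← Equiv.sum_comp ((Equiv.addRight (1 : ZMod d)).prodCongr (Equiv.refl α)),
      ← mul_zero (algebraMap (OO K d) (LL K d) (c (i + 1))), ← h1, Finset.mul_sum]
    refine Finset.sum_congr rfl fun y _ => ?_
    obtain ⟨j, l⟩ := y
    have h2 := congrArg (algebraMap (OO K d) (LL K d)) (hZ i j k l)
    simp only [map_mul] at h2
    simp only [Equiv.prodCongr_apply, Equiv.coe_addRight, Equiv.coe_refl, Prod.map, id, hS0,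
      add_sub_cancel_right]
    linear_combination (σ (v (j, l))) * h2
  have hiter : ∀ (t : ℕ) v (y : ZMod d × α), S0^[t] v y =
      algebraMap (OO K d) (LL K d) (∏ u ∈ Finset.range t, c (y.1 - u)) * σ^[t] (v (y.1 - t, y.2)) := by
    intro t
    induction t with
    | zero => intro v y; simp
    | succ t ih =>
      intro v y
      rw [iterate_succ_apply', hS0, ih, map_mul, hσ, map_prod σO, Finset.prod_range_succ',
        map_mul (algebraMap (OO K d) (LL K d)), iterate_succ_apply']
      simp only [hσc, Nat.cast_succ, Nat.cast_zero, sub_zero, sub_sub, add_comm (1 : ZMod d)]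
      ring
  have hσd : ∀ a, σ^[d] a = a := by
    have hid : ∀ p : OO K d, rename (fun m => m) p = p := fun p => rename_id_apply p
    have h1 : ∀ (t : ℕ) (p : (OO K d)), σ^[t] (algebraMap (OO K d) (LL K d) p) =
        algebraMap (OO K d) (LL K d) (rename (fun m => m - (t : ZMod d)) p) := by
      intro t
      induction t with
      | zero => intro p; simp [hid]
      | succ t ih =>
        intro p
        rw [iterate_succ_apply', ih, hσ]
        congr 1
        simp only [σO, renameEquiv_apply, rename_rename]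
        congr 2
        ext m
        simp [sub_sub]
    intro a
    obtain ⟨p, q, -, rfl⟩ := IsFractionRing.div_surjective (A := (OO K d)) a
    rw [← RingHom.coe_pow, map_div₀, RingHom.coe_pow, h1, h1]
    simp [hid]
  have hprod : ∀ j : ZMod d, ∏ u ∈ Finset.range d, c (j - u) = s := by
    intro j
    have : ∏ u ∈ Finset.range d, c (j - u) = ∏ w : ZMod d, c (j - w) := by
      refine Finset.prod_bij' (fun u _ => (u : ZMod d)) (fun w _ => w.val) (by simp)
        (fun w _ => Finset.mem_range.2 (ZMod.val_lt w))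
        (fun u hu => ZMod.val_cast_of_lt (Finset.mem_range.1 hu))
        (fun w _ => ZMod.natCast_zmod_val w) (fun _ _ => rfl)
    rw [this]
    refine (Equiv.prod_comp (Equiv.subLeft j) c).trans ?_
    simp [c]
  let S : LinearMap.ker ZL.mulVecLin →ₛₗ[σ] LinearMap.ker ZL.mulVecLin :=
    { toFun := fun v => ⟨S0 v.1, hker _ v.2⟩
      map_add' := fun a b => Subtype.ext (map_add S0 _ _)
      map_smul' := fun a b => Subtype.ext (S0.map_smulₛₗ _ _) }
  have hSi : ∀ (t : ℕ) v, (S^[t] v).1 = S0^[t] v.1 := by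
    intro t
    induction t with
    | zero => intro v; rfl
    | succ t ih => intro v; rw [iterate_succ_apply', iterate_succ_apply', ← ih]; rfl
  obtain ⟨m, hm⟩ := dvd_finrank σ deg hmul hdegσ (algebraMap (OO K d) (LL K d) s) (by simpa using hs0) hdegs d S
    (by
      intro v
      ext y
      rw [hSi, hiter, hprod, hσd]
      simp [Algebra.smul_def])
  have hrk : ZL.rank + d * m = d * Fintype.card α := by
    have := LinearMap.finrank_range_add_finrank_ker ZL.mulVecLin
    rw [hm, Module.finrank_fintype_fun_eq_card, Fintype.card_prod, ZMod.card] at this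
    exact this
  have h4 : (Zmat μ F).rank ≤ ZL.rank := by
    obtain ⟨δ, h1, h2⟩ := rank_spec Z ev
    rw [← hZev]
    exact h2 (LL K d) (algebraMap (OO K d) (LL K d)) (by
      rw [Ne, map_eq_zero_iff _ hinj]
      rintro rfl
      exact h1 (map_zero _))
  obtain ⟨δ, h1, h2⟩ := rank_spec Z (algebraMap (OO K d) (LL K d))
  have hδ : δ ≠ 0 := by rintro rfl; exact h1 (map_zero _)
  obtain ⟨I, hI, hδI⟩ : ∃ I : Ideal (OO K d), I.IsMaximal ∧ δ ∉ I := by
    by_contra hcon
    push Not at hcon
    have hj : (⊥ : Ideal (OO K d)).jacobson = ⊥ := IsJacobsonRing.out inferInstance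
      (Ideal.IsPrime.isRadical Ideal.isPrime_bot)
    have : δ ∈ (⊥ : Ideal (OO K d)).jacobson := Ideal.mem_sInf.2 fun J hJ => hcon J hJ.2
    rw [hj] at this
    exact hδ this
  letI := Ideal.Quotient.field I
  have : Module.Finite K (OO K d ⧸ I) := finite_of_finite_type_of_isJacobsonRing K (OO K d ⧸ I)
  let g : (OO K d) →ₐ[K] (OO K d) ⧸ I := Ideal.Quotient.mkₐ K I
  have h5 : ZL.rank ≤ (Z.map g.toRingHom).rank :=
    h2 (OO K d ⧸ I) g.toRingHom (fun h => hδI (Ideal.Quotient.eq_zero_iff_mem.1 h))
  let e := Module.finBasis K (OO K d ⧸ I)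
  have hpos : 0 < finrank K (OO K d ⧸ I) := Module.finrank_pos
  refine ⟨m, Fin (finrank K (OO K d ⧸ I)), inferInstance, ⟨⟨0, hpos⟩⟩, fun x y => ∑ m,
    Algebra.leftMulMatrix e (g (ε x.1 y.1 * X m)) x.2 y.2 • F (x.1 + m) (y.1 + m),
    by nlinarith, ?_⟩
  have h6 := rank_restrict e (Z.map g.toRingHom)
  let eq : ∀ β : Type, (ZMod d × Fin (finrank K (OO K d ⧸ I))) × β ≃
      (ZMod d × β) × Fin (finrank K (OO K d ⧸ I)) := fun β =>
    { toFun := fun x => ((x.1.1, x.2), x.1.2)
      invFun := fun x => ((x.1.1, x.2), x.1.2)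
      left_inv := fun _ => rfl
      right_inv := fun _ => rfl }
  rw [← Matrix.rank_submatrix _ (eq γ) (eq α)] at h6
  have h7 : Zmat μ (fun x y : ZMod d × Fin (finrank K (OO K d ⧸ I)) => ∑ m,
      Algebra.leftMulMatrix e (g (ε x.1 y.1 * X m)) x.2 y.2 • F (x.1 + m) (y.1 + m)) =
      (Matrix.of fun (x : (ZMod d × γ) × Fin (finrank K (OO K d ⧸ I)))
        (y : (ZMod d × α) × Fin (finrank K (OO K d ⧸ I))) =>
        Algebra.leftMulMatrix e (Z.map g.toRingHom x.1 y.1) x.2 y.2).submatrix (eq γ) (eq α) := by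
    ext x y
    simp only [Zmat, Matrix.of_apply, Matrix.submatrix_apply, eq, Equiv.coe_fn_mk,
      Matrix.map_apply, Z, map_sum, map_smul, Matrix.sum_apply, Matrix.smul_apply]
    refine Finset.sum_congr rfl fun m _ => ?_
    have : ∀ (p : (OO K d)) (k : K), g.toRingHom (p * C k) = k • g p := fun p k => by
      rw [mul_comm, ← smul_eq_C_mul]
      exact map_smul g k p
    rw [this, map_smul, Matrix.smul_apply, smul_eq_mul, smul_eq_mul, mul_comm]
  rw [h7, h6]
  nlinarith

end Pool.Agent.P.MP_a7c6c4_al.H37
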