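import Pool.Agent.P.MP_a7c6c4_al.H37.Descent

/-! The mediant recursion terminates. -/

set_option autoImplicit false
open Module Function

namespace Pool.Agent.P.MP_a7c6c4_al.H37

variable {K A : Type} [Field K] [Ring A] [Algebra K A]

variable (K A) in
/-- Every class is the class of a rigid presentation. -/
def AllRigid : Prop := ∀ U : Pres K A, ∃ D : Pres K A, D.θ = U.θ ∧ D.Rigid

lemma hom_mono (X : FM K A) {L M : FM K A} (i : L →ₗ[A] M) (hi : Injective i) :
    hom X L ≤ hom X M :=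
  LinearMap.finrank_le_finrank_of_injective (f := post X i) fun _ _ hab =>
    LinearMap.ext fun x => hi (LinearMap.congr_fun hab x)

lemma hom_pos {X L : FM K A} (i : X →ₗ[A] L) (hi : i ≠ 0) : 0 < hom X L := by
  have : Nontrivial (X →ₗ[A] L) := ⟨i, 0, hi⟩
  exact Module.finrank_pos

namespace Pres

lemma exists_add (X Y : Pres K A) : ∃ U : Pres K A, ∀ M, U.θ M = X.θ M + Y.θ M :=
  ⟨pi fun b : Bool => cond b X Y, fun M => by rw [θ_pi]; simp⟩

lemma tau_neg {X : Pres K A} (hX : X.Rigid) {N : FM K A} (hN : ∀ M, hom M N = X.E M)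
    {L : FM K A} (i : L →ₗ[A] N) (hi : Injective i) (hL : Nontrivial L) : X.θ L < 0 := by
  have h1 := hom_pos i (by
    intro h
    obtain ⟨y, hy⟩ := exists_ne (0 : L)
    exact hy (hi (by rw [h]; rfl)))
  have h2 := hom_mono X.C i hi
  rw [hN, (X.E_eq_zero _).2 hX, ← H_eq_hom] at h2
  rw [hN] at h1
  rw [θ_eq]
  omega

lemma drop1 {X Y D : Pres K A} (hX : X.Rigid) (hD : D.Rigid)
    (h : ∀ M, D.θ M = X.θ M + Y.θ M) : D.E X.C ≤ Y.E X.C - 1 := by
  obtain ⟨L, -, h2⟩ := hD.exists_sub X.C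
  by_cases h0 : Subsingleton (X.C.quo L)
  · rw [D.additive.triv] at h2
    omega
  · have h3 := hX.tpos (X.C.quo L) L.mkQ L.mkQ_surjective (not_subsingleton_iff_nontrivial.1 h0)
    have h4 := Y.neg_θ_le_E (M := X.C) (N := X.C.quo L) L.mkQ L.mkQ_surjective
    rw [h] at h2
    omega

lemma drop2 [FiniteDimensional K A] {X Y D : Pres K A} (hX : X.Rigid) (hD : D.Rigid)
    (h : ∀ M, D.θ M = X.θ M + Y.θ M) : X.E D.C ≤ X.E Y.C - 1 := by
  obtain ⟨N, hN⟩ := exists_tau X
  rw [← hN, ← hN, ← H_eq_hom, ← H_eq_hom]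
  obtain ⟨L, h2, -⟩ := hD.exists_sub N
  by_cases h0 : Subsingleton (N.sub L)
  · rw [D.additive.triv] at h2
    omega
  · have h3 := tau_neg hX hN (L := N.sub L) L.subtype L.injective_subtype
      (not_subsingleton_iff_nontrivial.1 h0)
    have h4 := Y.θ_le_H (L := N.sub L) (M := N) L.subtype L.injective_subtype
    rw [h] at h2
    omega

end Pres

theorem AllRigid.induction [FiniteDimensional K A] (hA : AllRigid K A)
    (Q : Pres K A → Pres K A → Prop)
    (base : ∀ X Y : Pres K A, X.Rigid → Y.Rigid → X.E0 Y.C → Y.E0 X.C → Q X Y)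
    (step : ∀ X Y D : Pres K A, (∀ M, D.θ M = X.θ M + Y.θ M) → Q X D → Q D Y → Q X Y)
    (X Y : Pres K A) (hX : X.Rigid) (hY : Y.Rigid) : Q X Y := by
  suffices H : ∀ n (X Y : Pres K A), X.Rigid → Y.Rigid → X.E Y.C + Y.E X.C = n → Q X Y from
    H _ X Y hX hY rfl
  intro n
  induction n using Nat.strong_induction_on with
  | _ n ih =>
    intro X Y hX hY hn
    by_cases h0 : n = 0
    · exact base X Y hX hY ((X.E_eq_zero _).1 (by omega)) ((Y.E_eq_zero _).1 (by omega))
    obtain ⟨U, hU⟩ := X.exists_add Y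
    obtain ⟨D, hD, hDr⟩ := hA U
    have h1 : ∀ M, D.θ M = X.θ M + Y.θ M := fun M => by rw [hD, hU]
    have h2 : ∀ M, D.θ M = Y.θ M + X.θ M := fun M => by rw [h1, add_comm]
    have a1 := Pres.drop1 hX hDr h1
    have a2 := Pres.drop2 hX hDr h1
    have b1 := Pres.drop1 hY hDr h2
    have b2 := Pres.drop2 hY hDr h2
    exact step X Y D h1 (ih _ (by omega) X D hX hDr rfl) (ih _ (by omega) D Y hDr hY rfl)

lemma Stable.congr {θ θ' : FM K A → ℤ} {N : FM K A} (hN : Stable θ' N) (h : ∀ X, θ X = θ' X) :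
    Stable θ N := by
  rwa [funext h]

lemma Stable.scale {θ θ' : FM K A → ℤ} {l : ℕ} (hl : 0 < l) (h : ∀ X, θ' X = l * θ X)
    {N : FM K A} (hN : Stable θ' N) : Stable θ N := by
  refine ⟨hN.1, ?_, fun L h1 h2 => ?_⟩
  · have := hN.2.1
    rw [h] at this
    exact (mul_eq_zero.1 this).resolve_left (by omega)
  · have := hN.2.2 L h1 h2
    rw [h] at this
    exact neg_of_mul_neg_right this (Int.natCast_nonneg l)

/-- In the relative interior of a cone of compatible classes, semistability kills `H` and `E`. -/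
lemma interior_vanish [FiniteDimensional K A] {X Y : Pres K A} (hX : X.Rigid)
    (hXY : X.E0 Y.C) (hYX : Y.E0 X.C) {a b : ℕ} (ha : 0 < a) {N : FM K A}
    (hN : Stable (fun M => a * X.θ M + b * Y.θ M) N) : X.H0 N ∧ X.E0 N := by
  have hη := X.additive.comb Y.additive a b
  constructor
  · rw [Pres.H0_iff]
    intro g
    by_contra hg
    have h1 := hN.sub_le hη (LinearMap.range g)
    have h2 := hX.tpos (N.sub (LinearMap.range g)) g.rangeRestrict g.surjective_rangeRestrict
      (Submodule.nontrivial_iff_ne_bot.2 (fun h0 => hg (LinearMap.range_eq_bot.1 h0)))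
    have h3 := Y.E0_tbar hYX (N.sub (LinearMap.range g)) g.rangeRestrict g.surjective_rangeRestrict
    have : (0 : ℤ) < a := by omega
    have : (0 : ℤ) ≤ b := by omega
    nlinarith
  · obtain ⟨τ, hτ⟩ := exists_tau X
    rw [← Pres.E_eq_zero, ← hτ]
    by_contra h
    have : Nontrivial (N →ₗ[A] τ) := Module.nontrivial_of_finrank_pos (R := K) (Nat.pos_of_ne_zero h)
    obtain ⟨g, hg⟩ := exists_ne (0 : N →ₗ[A] τ)
    have h1 := hN.tbar hη (τ.sub (LinearMap.range g)) g.rangeRestrict g.surjective_rangeRestrict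
    have h2 := Pres.tau_neg hX hτ (L := τ.sub (LinearMap.range g)) (Submodule.subtype _)
      (Submodule.injective_subtype _)
      (Submodule.nontrivial_iff_ne_bot.2 (fun h0 => hg (LinearMap.range_eq_bot.1 h0)))
    have h3 : Y.H0 τ := by rw [← Pres.H_eq_zero, Pres.H_eq_hom, hτ, Pres.E_eq_zero]; exact hXY
    have h4 := Y.H0_fbar h3 (τ.sub (LinearMap.range g)) (Submodule.subtype _)
      (Submodule.injective_subtype _)
    have : (0 : ℤ) < a := by omega
    have : (0 : ℤ) ≤ b := by omega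
    nlinarith

/-- Finitely many stable modules on the cone spanned by two classes. -/
theorem cone_isoFin [FiniteDimensional K A] (hA : AllRigid K A)
    (hfin : ∀ U : Pres K A, IsoFin (Stable U.θ)) (U V : Pres K A) :
    IsoFin (fun N => ∃ a b : ℕ, 0 < a + b ∧ Stable (fun M => a * U.θ M + b * V.θ M) N) := by
  obtain ⟨X, hX, hXr⟩ := hA U
  obtain ⟨Y, hY, hYr⟩ := hA V
  rw [← hX, ← hY]
  refine hA.induction (fun X Y => IsoFin (fun N => ∃ a b : ℕ, 0 < a + b ∧
    Stable (fun M => a * X.θ M + b * Y.θ M) N)) ?_ ?_ X Y hXr hYr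
  · intro X Y hX hY hXY hYX
    obtain ⟨D, hD⟩ := X.exists_add Y
    refine (((hfin X).union (hfin Y)).union (hfin D)).mono ?_
    rintro N ⟨a, b, hab, hN⟩
    rcases Nat.eq_zero_or_pos b with rfl | hb
    · exact Or.inl (Or.inl (hN.scale (l := a) (by omega) (by simp)))
    rcases Nat.eq_zero_or_pos a with rfl | ha
    · exact Or.inl (Or.inr (hN.scale (l := b) (by omega) (by simp)))
    obtain ⟨x1, x2⟩ := interior_vanish hX hXY hYX ha hN
    obtain ⟨y1, y2⟩ := interior_vanish hY hYX hXY hb (b := a) (N := N) (by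
      simpa only [add_comm] using hN)
    refine Or.inr ⟨hN.1, ?_, fun L h1 h2 => ?_⟩
    · rw [hD, X.θ_eq, Y.θ_eq, (X.H_eq_zero _).2 x1, (X.E_eq_zero _).2 x2, (Y.H_eq_zero _).2 y1,
        (Y.E_eq_zero _).2 y2]
      rfl
    · have h3 := hN.2.2 L h1 h2
      have h4 := X.H0_fbar x1 (N.sub L) L.subtype L.injective_subtype
      have h5 := Y.H0_fbar y1 (N.sub L) L.subtype L.injective_subtype
      rw [hD]
      by_contra h6
      have h7 : X.θ (N.sub L) = 0 := by omega
      have h8 : Y.θ (N.sub L) = 0 := by omega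
      simp [h7, h8] at h3
  · intro X Y D hD h1 h2
    refine (h1.union h2).mono ?_
    rintro N ⟨a, b, hab, hN⟩
    rcases le_total b a with h | h
    · refine Or.inl ⟨a - b, b, by omega, ?_⟩
      refine hN.congr fun M => ?_
      rw [hD, Nat.cast_sub h]
      ring
    · refine Or.inr ⟨a, b - a, by omega, ?_⟩
      refine hN.congr fun M => ?_
      rw [hD, Nat.cast_sub h]
      ring

end Pool.Agent.P.MP_a7c6c4_al.H37
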