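import Pool.Agent.P.MP_a7c6c4_al.H37.Segment

/-! Algebras with at most two simple modules. -/

set_option autoImplicit false
open Module Function

namespace Pool.Agent.P.MP_a7c6c4_al.H37

variable {K A : Type} [Field K] [Ring A] [Algebra K A]

lemma exists_simple_sub (M : FM K A) [Nontrivial M] :
    ∃ L : Submodule A M, IsSimpleModule A L := by
  rcases eq_bot_or_exists_atom_le (⊤ : Submodule A M) with h | ⟨L, hL, -⟩
  · exact absurd h top_ne_bot
  · exact ⟨L, isSimpleModule_iff_isAtom.2 hL⟩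

lemma exists_simple_quo (M : FM K A) [Nontrivial M] :
    ∃ L : Submodule A M, IsSimpleModule A (M ⧸ L) := by
  rcases eq_top_or_exists_le_coatom (⊥ : Submodule A M) with h | ⟨L, hL, -⟩
  · exact absurd h bot_ne_top
  · exact ⟨L, isSimpleModule_iff_isCoatom.2 hL⟩

lemma tc_orth (B : FM K A) : TC (fun M : FM K A => ∀ g : M →ₗ[A] B, g = 0) := by
  refine ⟨fun M hM g => Subsingleton.elim _ _, fun M N p hp hM g => ?_, fun M L h1 h2 g => ?_⟩
  · ext y
    obtain ⟨x, rfl⟩ := hp y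
    exact LinearMap.congr_fun (hM (g ∘ₗ p)) x
  · have h3 : L ≤ LinearMap.ker g := fun x hx =>
      LinearMap.congr_fun (h1 (g ∘ₗ L.subtype)) ⟨x, hx⟩
    ext x
    exact LinearMap.congr_fun (h2 (L.liftQ g h3)) (L.mkQ x)

/-- A brick with a quotient `N` receiving a nonzero map from `N` is `N`. -/
lemma Brick.inj {B N : FM K A} (hB : Brick B) (p : B →ₗ[A] N) (hp : Surjective p)
    (g : N →ₗ[A] B) (hg : g ≠ 0) : Injective p := by
  refine Injective.of_comp (f := g) (hB.2 (g ∘ₗ p) fun h => hg ?_).1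
  ext y
  obtain ⟨x, rfl⟩ := hp y
  exact LinearMap.congr_fun h x

/-- A local presentation maps onto at most one label. -/
lemma loc_label {T : Pres K A} (hT : T.Loc) {𝒯 : FM K A → Prop} (h𝒯 : ∀ M, 𝒯 M → T.E0 M)
    (hC : 𝒯 T.C) {S S' : FM K A} (hS : Label 𝒯 S) (hS' : Label 𝒯 S') (π : T.C →ₗ[A] S)
    (π' : T.C →ₗ[A] S') (hπ : π ≠ 0) (hπ' : π' ≠ 0) : Nonempty (S ≃ₗ[A] S') := by
  obtain ⟨s1, k1⟩ := hS.2.2 _ hC π hπ
  by_cases h : π' ∘ₗ (LinearMap.ker π).subtype = 0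
  · have hle : LinearMap.ker π ≤ LinearMap.ker π' := fun x hx => LinearMap.congr_fun h ⟨x, hx⟩
    let f : S →ₗ[A] S' := (LinearMap.ker π).liftQ π' hle ∘ₗ
      (π.quotKerEquivOfSurjective s1).symm.toLinearMap
    refine ⟨LinearEquiv.ofBijective f (hS.orth hS' f fun h0 => hπ' ?_)⟩
    refine LinearMap.ext fun x => ?_
    have := LinearMap.congr_fun h0 (π x)
    simpa [f] using this
  exfalso
  obtain ⟨s2, k2⟩ := hS'.2.2 _ k1 _ h
  let q := (LinearMap.range T.d).mkQ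
  let ρ : T.C →ₗ[A] S × S' := π.prod π'
  have hρ : Surjective ρ := by
    rintro ⟨a, b⟩
    obtain ⟨x, rfl⟩ := s1 a
    obtain ⟨y, hy⟩ := s2 (b - π' x)
    refine ⟨x + y.1, Prod.ext ?_ ?_⟩
    · change π (x + y.1) = π x
      rw [map_add, y.2, add_zero]
    · change π' (x + y.1) = b
      have : π' y.1 = b - π' x := hy
      rw [map_add, this, add_sub_cancel]
  obtain ⟨e, he⟩ := Module.projective_lifting_property ρ ((π ∘ₗ q).prod 0) hρ
  have he1 : ∀ x, π (e x) = π (q x) := fun x => congrArg Prod.fst (LinearMap.congr_fun he x)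
  have he2 : ∀ x, π' (e x) = 0 := fun x => congrArg Prod.snd (LinearMap.congr_fun he x)
  have hq : ∀ x, q (T.d x) = 0 := fun x => (Submodule.Quotient.mk_eq_zero _).2 ⟨x, rfl⟩
  let k : T.P1 →ₗ[A] (T.C.sub (LinearMap.ker π)).sub
      (LinearMap.ker (π' ∘ₗ (LinearMap.ker π).subtype)) :=
    LinearMap.codRestrict _ (LinearMap.codRestrict _ (e ∘ₗ T.d) fun x => by
      change π (e (T.d x)) = 0
      rw [he1, hq, map_zero]) fun x => he2 _
  obtain ⟨g, hg⟩ := h𝒯 _ k2 k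
  have hg' : ∀ x, (g (T.d x)).1.1 = e (T.d x) := fun x =>
    congrArg (fun z => z.1.1) (LinearMap.congr_fun hg x)
  obtain ⟨e0, he0⟩ := Module.projective_lifting_property q
    (e - Submodule.subtype _ ∘ₗ Submodule.subtype _ ∘ₗ g) (Submodule.mkQ_surjective _)
  have h0 : ∀ x, q (e0 x) = e x - (g x).1.1 := fun x => LinearMap.congr_fun he0 x
  have hm : ∀ x, (e0 ∘ₗ T.d) x ∈ LinearMap.range T.d := fun x =>
    (Submodule.Quotient.mk_eq_zero _).1 (by
      change q (e0 (T.d x)) = 0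
      rw [h0, hg', sub_self])
  obtain ⟨e1, he1'⟩ := Module.projective_lifting_property T.d.rangeRestrict
    (LinearMap.codRestrict _ _ hm) T.d.surjective_rangeRestrict
  have a1 : ∀ x, π (q (e0 x)) = π (q x) := fun x => by
    rw [h0, map_sub, he1, (g x).1.2, sub_zero]
  have a2 : ∀ x, π' (q (e0 x)) = 0 := fun x => by
    have : π' (g x).1.1 = 0 := (g x).2
    rw [h0, map_sub, he2, this, sub_zero]
  rcases hT e1 e0 (LinearMap.ext fun x =>
    (congrArg Subtype.val (LinearMap.congr_fun he1' x)).symm) with ⟨-, n, hn⟩ | ⟨-, hb⟩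
  · have a3 : ∀ (m : ℕ) x, π (q (((e0 : Module.End A T.P0) ^ m) x)) = π (q x) := by
      intro m
      induction m with
      | zero => intro x; rfl
      | succ m ih => intro x; rw [pow_succ', Module.End.mul_apply, a1, ih]
    apply hπ
    refine LinearMap.ext fun y => ?_
    obtain ⟨x, rfl⟩ := Submodule.mkQ_surjective _ y
    rw [← a3 n x, hn]
    simp
  · apply hπ'
    refine LinearMap.ext fun y => ?_
    obtain ⟨x, rfl⟩ := Submodule.mkQ_surjective _ y
    obtain ⟨x, rfl⟩ := hb.2 x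
    exact a2 x

lemma exists_stable_quo {θ : FM K A → ℤ} (hθ : Additive θ) {B : FM K A} (h1 : Tbar θ B)
    (h2 : ¬Tpos θ B) : ∃ (N : FM K A) (p : B →ₗ[A] N), Surjective p ∧ Stable θ N := by
  classical
  have hex : ∃ n, ∃ (N : FM K A) (p : B →ₗ[A] N), Surjective p ∧ Nontrivial N ∧ θ N ≤ 0 ∧
      finrank K N = n := by
    simp only [Tpos, not_forall, not_lt] at h2
    obtain ⟨N, p, hp, hN, h⟩ := h2
    exact ⟨_, N, p, hp, hN, h, rfl⟩
  obtain ⟨N, p, hp, hN, h, hn⟩ := Nat.find_spec hex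
  have h0 := h1 N p hp
  refine ⟨N, p, hp, hN, by omega, fun L a b => ?_⟩
  by_contra c
  have e := hθ.sub_quo N L
  have h3 := Nat.find_min' hex ⟨N.quo L, L.mkQ ∘ₗ p, L.mkQ_surjective.comp hp,
    Submodule.Quotient.nontrivial_iff.2 b, by omega, rfl⟩
  have h4 := finrank_exact (L.subtype.restrictScalars K) (L.mkQ.restrictScalars K)
    L.injective_subtype L.mkQ_surjective (LinearMap.exact_subtype_mkQ L)
  have : Nontrivial L := Submodule.nontrivial_iff_ne_bot.2 a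
  have h5 : 0 < finrank K L := Module.finrank_pos
  change _ ≤ finrank K (N ⧸ L) at h3
  omega

section two
variable {S1 S2 : FM K A}
  (hS : ∀ S : FM K A, IsSimpleModule A S → Nonempty (S ≃ₗ[A] S1) ∨ Nonempty (S ≃ₗ[A] S2))
include hS

lemma jordan_holder (M : FM K A) : ∃ m1 m2 : ℕ, (Nontrivial M → 0 < m1 + m2) ∧
    ∀ θ : FM K A → ℤ, Additive θ → θ M = m1 * θ S1 + m2 * θ S2 := by
  suffices H : ∀ n (M : FM K A), finrank K M = n → ∃ m1 m2 : ℕ, (Nontrivial M → 0 < m1 + m2) ∧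
    ∀ θ : FM K A → ℤ, Additive θ → θ M = m1 * θ S1 + m2 * θ S2 from H _ M rfl
  intro n
  induction n using Nat.strong_induction_on with
  | _ n ih =>
    intro M hn
    rcases subsingleton_or_nontrivial M with h | h
    · exact ⟨0, 0, fun h' => absurd h (not_subsingleton M), fun θ hθ => by simp [hθ.triv M]⟩
    obtain ⟨L, hL⟩ := exists_simple_sub M
    have h4 := finrank_exact (L.subtype.restrictScalars K) (L.mkQ.restrictScalars K)
      L.injective_subtype L.mkQ_surjective (LinearMap.exact_subtype_mkQ L)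
    have := IsSimpleModule.nontrivial A L
    have h5 : 0 < finrank K L := Module.finrank_pos
    obtain ⟨m1, m2, -, hm⟩ := ih (finrank K (M ⧸ L)) (by omega) (M.quo L) rfl
    rcases hS (M.sub L) hL with ⟨⟨e⟩⟩ | ⟨⟨e⟩⟩
    · refine ⟨m1 + 1, m2, fun _ => by omega, fun θ hθ => ?_⟩
      rw [hθ.sub_quo M L, hθ.iso e, hm θ hθ]
      push_cast
      ring
    · refine ⟨m1, m2 + 1, fun _ => by omega, fun θ hθ => ?_⟩
      rw [hθ.sub_quo M L, hθ.iso e, hm θ hθ]
      push_cast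
      ring

lemma base_two [IsSimpleModule A S2] {X Y : Pres K A} (hX : X.Rigid) (hYX : Y.E0 X.C)
    (h2 : Y.θ S2 < 0) (hdet : 0 < X.θ S2 * Y.θ S1 - X.θ S1 * Y.θ S2) :
    IsoFin (fun B => Brick B ∧ Tpos X.θ B ∧ ¬Tpos Y.θ B) := by
  obtain ⟨ι, _, T, hT, hs⟩ := X.decompose
  obtain ⟨i, hi⟩ : ∃ i, 0 < (T i).θ S2 * Y.θ S1 - (T i).θ S1 * Y.θ S2 := by
    by_contra h
    push Not at h
    rw [hs, hs, Finset.sum_mul, Finset.sum_mul, ← Finset.sum_sub_distrib] at hdet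
    exact absurd (Finset.sum_nonpos fun i _ => h i) (not_le.2 hdet)
  obtain ⟨hL, hE, p, hp⟩ := hT i
  have hr : (T i).Rigid := hE _ (X.tc_E0.quo _ _ p hp hX)
  have hC : Tbar Y.θ (T i).C := Y.E0_tbar (Y.tc_E0.quo _ _ p hp hYX)
  have hβ : (T i).θ S2 ≤ 0 := by
    refine (T i).H0_fbar (((T i).H0_iff S2).2 fun g => ?_) S2 LinearMap.id injective_id
    by_contra hg
    have := hC S2 g (LinearMap.surjective_of_ne_zero hg)
    omega
  have star : ∀ M, Tbar Y.θ M → (T i).H0 M → Subsingleton M := by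
    intro M a b
    obtain ⟨m1, m2, hm, hm'⟩ := jordan_holder hS M
    have a1 := a M LinearMap.id surjective_id
    have b1 := (T i).H0_fbar b M LinearMap.id injective_id
    rw [hm' _ Y.additive] at a1
    rw [hm' _ (T i).additive] at b1
    by_contra c
    have c1 := hm (not_subsingleton_iff_nontrivial.1 c)
    have c2 : m1 = 0 := by
      by_contra c3
      have : (0 : ℤ) < m1 := by omega
      nlinarith [mul_pos this hi]
    subst c2
    have : (0 : ℤ) < m2 := by omega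
    simp only [Nat.cast_zero, zero_mul, zero_add] at a1
    nlinarith [mul_pos this (neg_pos.2 h2)]
  have hE0 : ∀ M, Tbar Y.θ M → (T i).E0 M := by
    intro M hM
    obtain ⟨L, a, b⟩ := (T i).tc_E0.exists_max M
    exact (T i).tc_E0.ext M L a ((T i).tc_E0.triv _ (star _
      ((tc_Tbar Y.additive).quo M _ L.mkQ L.mkQ_surjective hM) (((T i).H0_iff _).2 (b _ hr))))
  have huniq : ∀ S S', Label (Tbar Y.θ) S → Label (Tbar Y.θ) S' → Nonempty (S ≃ₗ[A] S') := by
    have : ∀ S, Label (Tbar Y.θ) S → ∃ π : (T i).C →ₗ[A] S, π ≠ 0 := by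
      intro S h
      by_contra c
      push Not at c
      exact absurd (star S h.2.1 (((T i).H0_iff _).2 c)) (@not_subsingleton _ h.1)
    intro S S' h h'
    obtain ⟨π, hπ⟩ := this S h
    obtain ⟨π', hπ'⟩ := this S' h'
    exact loc_label hL hE0 hC h h' π π' hπ hπ'
  have key : ∀ B, Brick B ∧ Tpos X.θ B ∧ ¬Tpos Y.θ B →
      ∃ N, Label (Tbar Y.θ) N ∧ Nonempty (B ≃ₗ[A] N) := by
    rintro B ⟨hB, h3, h4⟩
    have h5 : Tbar Y.θ B := by
      have tc := X.tc_E0.inter Y.tc_E0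
      obtain ⟨L, a, b⟩ := tc.exists_max B
      refine Y.E0_tbar (Y.tc_E0.ext B L a.2 (Y.tc_E0.triv _ ?_))
      by_contra c
      have c1 := h3 (B.quo L) L.mkQ L.mkQ_surjective (not_subsingleton_iff_nontrivial.1 c)
      have c2 := X.H0_fbar ((X.H0_iff _).2 (b _ ⟨hX, hYX⟩)) _ LinearMap.id injective_id
      omega
    obtain ⟨N, q, hq, hN⟩ := exists_stable_quo Y.additive h5 h4
    have hN' := hN.label Y.additive
    obtain ⟨S, h6, g, hg⟩ : ∃ S, Label (Tbar Y.θ) S ∧ ∃ g : S →ₗ[A] B, g ≠ 0 := by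
      by_contra c
      push Not at c
      have := label_gen Y.additive (tc_orth B) c B h5 LinearMap.id
      obtain ⟨y, hy⟩ := @exists_ne _ hB.1 (0 : B)
      exact hy (LinearMap.congr_fun this y)
    obtain ⟨e⟩ := huniq N S hN' h6
    refine ⟨N, hN', ⟨LinearEquiv.ofBijective q ⟨hB.inj q hq (g ∘ₗ e.toLinearMap) fun h => hg ?_,
      hq⟩⟩⟩
    ext y
    obtain ⟨x, rfl⟩ := e.surjective y
    exact LinearMap.congr_fun h x
  refine IsoFin.of_subsingleton fun M N hM hN => ?_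
  obtain ⟨M', a, ⟨e⟩⟩ := key M hM
  obtain ⟨N', b, ⟨f⟩⟩ := key N hN
  obtain ⟨g⟩ := huniq _ _ a b
  exact ⟨e.trans (g.trans f.symm)⟩

lemma arc_two [FiniteDimensional K A] [IsSimpleModule A S2] (hA : AllRigid K A)
    {X Y : Pres K A} (hX : X.Rigid) (hY : Y.Rigid) (h1 : X.θ S2 ≤ 0)
    (h2 : Y.θ S2 < 0) (hdet : 0 < X.θ S2 * Y.θ S1 - X.θ S1 * Y.θ S2) :
    IsoFin (fun B => Brick B ∧ Tpos X.θ B ∧ ¬Tpos Y.θ B) := by
  refine hA.induction (fun X Y => X.θ S2 ≤ 0 → Y.θ S2 < 0 →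
    0 < X.θ S2 * Y.θ S1 - X.θ S1 * Y.θ S2 →
    IsoFin (fun B => Brick B ∧ Tpos X.θ B ∧ ¬Tpos Y.θ B)) ?_ ?_ X Y hX hY h1 h2 hdet
  · intro X Y hX _ _ hYX _ h2 hdet
    exact base_two hS hX hYX h2 hdet
  · intro X Y D hD a b h1 h2 hdet
    refine ((a h1 (by rw [hD]; omega) (by rw [hD, hD]; linarith)).union
      (b (by rw [hD]; omega) h2 (by rw [hD, hD]; linarith))).mono ?_
    rintro B ⟨hB, h3, h4⟩
    by_cases h : Tpos D.θ B
    · exact Or.inr ⟨hB, h, h4⟩
    · exact Or.inl ⟨hB, h3, h⟩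

end two

/-- A class which is nonnegative and separates two simple modules. -/
lemma exists_sep [FiniteDimensional K A] (S1 S2 : FM K A) [IsSimpleModule A S1]
    [IsSimpleModule A S2] (h : IsEmpty (S1 ≃ₗ[A] S2)) :
    ∃ T : Pres K A, (∀ M, 0 ≤ T.θ M) ∧ 0 < T.θ S1 ∧ T.θ S2 = 0 := by
  let U : Pres K A := { P1 := FM.zero, P0 := FM.of A, d := 0 }
  have hU : ∀ M, U.E0 M := fun M k => ⟨0, Subsingleton.elim _ _⟩
  obtain ⟨ι, _, T, hT, hs⟩ := U.decompose
  have lab : ∀ S : FM K A, IsSimpleModule A S → Label (fun _ => True) S := fun S hS =>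
    ⟨IsSimpleModule.nontrivial A S, trivial, fun X _ g hg =>
      ⟨LinearMap.surjective_of_ne_zero hg, trivial⟩⟩
  have hpos : 0 < U.θ S1 := by
    have := IsSimpleModule.nontrivial A S1
    obtain ⟨y, hy⟩ := exists_ne (0 : S1)
    have h1 := hom_pos (X := U.P0) (L := S1) (LinearMap.toSpanSingleton A S1 y) (fun h0 =>
      hy (by simpa using LinearMap.congr_fun h0 (1 : A)))
    have h2 : hom U.P1 S1 = 0 := finrank_zero_of_subsingleton
    unfold Pres.θ
    omega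
  obtain ⟨i, hi⟩ : ∃ i, 0 < (T i).θ S1 := by
    by_contra c
    push Not at c
    rw [hs] at hpos
    exact absurd (Finset.sum_nonpos fun i _ => c i) (not_le.2 hpos)
  have hE : ∀ M, (T i).E0 M := fun M => (hT i).2.1 M (hU M)
  have hθ : ∀ M, (T i).θ M = (T i).H M := fun M => by
    rw [Pres.θ_eq, ((T i).E_eq_zero M).2 (hE M)]
    simp
  refine ⟨T i, fun M => by rw [hθ]; omega, hi, ?_⟩
  rw [hθ] at hi ⊢
  by_contra c
  have a : ¬(T i).H0 S1 := by rw [← Pres.H_eq_zero]; omega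
  have b : ¬(T i).H0 S2 := by rw [← Pres.H_eq_zero]; omega
  rw [Pres.H0_iff] at a b
  push Not at a b
  obtain ⟨π, hπ⟩ := a
  obtain ⟨π', hπ'⟩ := b
  obtain ⟨e⟩ := loc_label (hT i).1 (fun M _ => hE M) trivial (lab S1 inferInstance)
    (lab S2 inferInstance) π π' hπ hπ'
  exact h.false e

lemma half_two [FiniteDimensional K A] (hA : AllRigid K A) (S1 S2 : FM K A) [IsSimpleModule A S1]
    [IsSimpleModule A S2] (h : IsEmpty (S1 ≃ₗ[A] S2))
    (hS : ∀ S : FM K A, IsSimpleModule A S → Nonempty (S ≃ₗ[A] S1) ∨ Nonempty (S ≃ₗ[A] S2)) :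
    IsoFin (fun B : FM K A => Brick B ∧ ∀ p : B →ₗ[A] S2, ¬Surjective p) := by
  obtain ⟨T1, a1, b1, c1⟩ := exists_sep S1 S2 h
  obtain ⟨T2, a2, b2, c2⟩ := exists_sep S2 S1 ⟨fun e => h.false e.symm⟩
  obtain ⟨X, hX, hXr⟩ := hA T1
  obtain ⟨Y, hY, hYr⟩ := hA { P1 := T2.P0, P0 := T2.P1, d := 0 }
  have hY' : ∀ M, Y.θ M = -T2.θ M := fun M => by
    rw [hY]
    unfold Pres.θ
    ring
  refine (arc_two hS hA hXr hYr (by rw [hX, c1]) (by rw [hY']; omega) (by
    rw [hX, hY', hY', c1]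
    nlinarith [mul_pos b1 b2])).mono ?_
  rintro B ⟨hB, hp⟩
  refine ⟨hB, fun N p hs hN => ?_, fun c => ?_⟩
  · obtain ⟨L, hL⟩ := exists_simple_quo N
    rw [hX, T1.additive.sub_quo N L]
    have := a1 (N.sub L)
    rcases hS (N.quo L) hL with ⟨⟨e⟩⟩ | ⟨⟨e⟩⟩
    · rw [T1.additive.iso e]
      omega
    · exact absurd (e.surjective.comp (L.mkQ_surjective.comp hs))
        (hp (e.toLinearMap ∘ₗ L.mkQ ∘ₗ p))
  · have := c B LinearMap.id surjective_id hB.1
    rw [hY'] at this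
    have := a2 B
    omega

/-- With at most two simple modules, rigidity of all classes forces brick finiteness. -/
theorem two_isoFin [FiniteDimensional K A] (hA : AllRigid K A)
    (h3 : ∀ S T U : FM K A, IsSimpleModule A S → IsSimpleModule A T → IsSimpleModule A U →
      Nonempty (S ≃ₗ[A] T) ∨ Nonempty (S ≃ₗ[A] U) ∨ Nonempty (T ≃ₗ[A] U)) :
    IsoFin (fun B : FM K A => Brick B) := by
  have key : ∀ (B S : FM K A) (L : Submodule A B), Brick B → IsSimpleModule A L →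
      (L ≃ₗ[A] S) → ∀ p : B →ₗ[A] S, Surjective p → Nonempty (B ≃ₗ[A] S) := by
    intro B S L hB hL e p hp
    refine ⟨LinearEquiv.ofBijective p ⟨hB.inj p hp (L.subtype ∘ₗ e.symm.toLinearMap) fun h => ?_,
      hp⟩⟩
    have := IsSimpleModule.nontrivial A L
    obtain ⟨y, hy⟩ := exists_ne (0 : L)
    exact hy (by simpa using LinearMap.congr_fun h (e y))
  by_cases h : ∃ S1 S2 : FM K A, IsSimpleModule A S1 ∧ IsSimpleModule A S2 ∧
      IsEmpty (S1 ≃ₗ[A] S2)
  · obtain ⟨S1, S2, h1, h2, h⟩ := h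
    have hS : ∀ S : FM K A, IsSimpleModule A S →
        Nonempty (S ≃ₗ[A] S1) ∨ Nonempty (S ≃ₗ[A] S2) := fun S hS => by
      rcases h3 S S1 S2 hS h1 h2 with a | a | ⟨⟨e⟩⟩
      exacts [Or.inl a, Or.inr a, (h.false e).elim]
    have f1 := half_two hA S1 S2 h hS
    have f2 := half_two hA S2 S1 ⟨fun e => h.false e.symm⟩ (fun S a => (hS S a).symm)
    have f3 : IsoFin (fun B : FM K A => Nonempty (B ≃ₗ[A] S1) ∨ Nonempty (B ≃ₗ[A] S2)) :=
      IsoFin.union ⟨Unit, inferInstance, fun _ => S1, fun M hM => ⟨(), hM⟩⟩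
        ⟨Unit, inferInstance, fun _ => S2, fun M hM => ⟨(), hM⟩⟩
    refine ((f1.union f2).union f3).mono fun B hB => ?_
    by_cases a : ∀ p : B →ₗ[A] S2, ¬Surjective p
    · exact Or.inl (Or.inl ⟨hB, a⟩)
    by_cases b : ∀ p : B →ₗ[A] S1, ¬Surjective p
    · exact Or.inl (Or.inr ⟨hB, b⟩)
    push Not at a b
    obtain ⟨p2, hp2⟩ := a
    obtain ⟨p1, hp1⟩ := b
    have := hB.1
    obtain ⟨L, hL⟩ := exists_simple_sub B
    rcases hS (B.sub L) hL with ⟨⟨e⟩⟩ | ⟨⟨e⟩⟩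
    · exact Or.inr (Or.inl (key B S1 L hB hL e p1 hp1))
    · exact Or.inr (Or.inr (key B S2 L hB hL e p2 hp2))
  · push Not at h
    have hs : ∀ B : FM K A, Brick B → IsSimpleModule A B := by
      intro B hB
      have := hB.1
      obtain ⟨L, hL⟩ := exists_simple_sub B
      obtain ⟨L', hL'⟩ := exists_simple_quo B
      obtain ⟨e⟩ := h (B.sub L) (B.quo L') hL hL'
      obtain ⟨f⟩ := key B (B.quo L') L hB hL e L'.mkQ L'.mkQ_surjective
      exact IsSimpleModule.congr f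
    exact IsoFin.of_subsingleton fun M N hM hN => h M N (hs M hM) (hs N hN)

end Pool.Agent.P.MP_a7c6c4_al.H37
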